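import Pool.Agent.helper29.BMain

/-!
# Separability of `B`
-/

open scoped InnerProductSpace ENNReal
open Filter Topology TopologicalSpace

noncomputable section

namespace Pool.Agent.helper29

variable {Z : Type*} [CStarAlgebra Z]
variable {K : Type*} [NormedAddCommGroup K] [InnerProductSpace ℂ K] [CompleteSpace K]
variable (ρ : Z →⋆ₐ[ℂ] (K →L[ℂ] K)) (Ω : K) (hΩ : ‖Ω‖ = 1)

theorem continuous_starAlgHom {A B : Type*} [CStarAlgebra A] [CStarAlgebra B] (f : A →⋆ₐ[ℂ] B) :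
    Continuous f := by
  apply AddMonoidHomClass.continuous_of_bound f 1
  intro y
  rw [one_mul]
  exact norm_starAlgHom_le _ _

theorem isSeparable_DD [SeparableSpace Z] (n : ℕ) :
    IsSeparable (DD ρ Ω hΩ n : Set (OpL Ω hΩ)) := by
  induction n with
  | zero =>
    show IsSeparable ((Submodule.span ℂ {(1 : OpL Ω hΩ)} : Submodule ℂ (OpL Ω hΩ)) : Set (OpL Ω hΩ))
    exact IsSeparable.span (Set.countable_singleton _).isSeparable
  | succ n ih =>
    show IsSeparable ((Submodule.span ℂ {x | ∃ z, ∃ d ∈ DD ρ Ω hΩ n,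
      x = pi0 ρ Ω hΩ z * sig Ω hΩ d} : Submodule ℂ (OpL Ω hΩ)) : Set (OpL Ω hΩ))
    apply IsSeparable.span
    have h1 : IsSeparable ((Set.univ : Set Z) ×ˢ (DD ρ Ω hΩ n : Set (OpL Ω hΩ))) :=
      (isSeparable_univ_iff.2 inferInstance).prod ih
    have hcont : Continuous (fun p : Z × OpL Ω hΩ => pi0 ρ Ω hΩ p.1 * sig Ω hΩ p.2) :=
      ((continuous_starAlgHom (pi0 ρ Ω hΩ)).comp continuous_fst).mul
        ((continuous_starAlgHom (sig Ω hΩ)).comp continuous_snd)
    refine (h1.image hcont).mono ?_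
    rintro x ⟨z, d, hd, rfl⟩
    exact ⟨(z, d), ⟨trivial, hd⟩, rfl⟩

theorem isSeparable_MM [SeparableSpace Z] : IsSeparable (MM ρ Ω hΩ : Set (OpH Ω hΩ)) := by
  apply IsSeparable.span
  have h1 : IsSeparable (DU ρ Ω hΩ) := by
    have : DU ρ Ω hΩ = ⋃ n, (DD ρ Ω hΩ n : Set (OpL Ω hΩ)) := by
      ext x
      rw [Set.mem_iUnion]
      rfl
    rw [this]
    exact IsSeparable.iUnion (isSeparable_DD ρ Ω hΩ)
  have h2 : IsSeparable (⋃ p : List F2 × List F2 × F2,
      (fun d => mono Ω hΩ p.1 p.2.1 p.2.2 d) '' DU ρ Ω hΩ) := by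
    apply IsSeparable.iUnion
    rintro ⟨α, β, g⟩
    apply h1.image
    exact continuous_const.mul (continuous_starAlgHom (dg Ω hΩ))
  refine h2.mono ?_
  rintro x ⟨α, β, g, d, hd, rfl⟩
  rw [Set.mem_iUnion]
  exact ⟨(α, β, g), d, hd, rfl⟩

theorem separable_BB [SeparableSpace Z] : SeparableSpace (BB ρ Ω hΩ) := by
  have h1 : IsSeparable (BB ρ Ω hΩ : Set (OpH Ω hΩ)) :=
    (isSeparable_MM ρ Ω hΩ).closure.mono (fun x hx => mem_closure_MM ρ Ω hΩ hx)
  exact h1.separableSpace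

end Pool.Agent.helper29
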