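import Pool.Agent.helper29.BMain

/-!
# `B` absorbs `Z`
-/

open scoped InnerProductSpace ENNReal TensorProduct
open Filter Topology

noncomputable section

namespace Pool.Agent.helper29

section pointwise

variable {K L : Type*}
  [NormedAddCommGroup K] [InnerProductSpace ℂ K] [CompleteSpace K]
  [NormedAddCommGroup L] [InnerProductSpace ℂ L] [CompleteSpace L]

/-- pointwise action, as a continuous linear map -/
def diagC (X L : Type*) [NormedAddCommGroup L] [InnerProductSpace ℂ L] [CompleteSpace L] :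
    (L →L[ℂ] L) →L[ℂ] (L2 X L →L[ℂ] L2 X L) :=
  LinearMap.mkContinuous
    { toFun := fun T => diag X L T
      map_add' := fun S T => map_add _ S T
      map_smul' := fun c T => map_smul _ c T } 1 (by
    intro T
    rw [one_mul]
    apply ContinuousLinearMap.opNorm_le_bound _ (norm_nonneg _)
    intro f
    exact norm_map_le T f)

/-- the pointwise tensor structure `K ⊗ ℓ²(X, L) = ℓ²(X, K ⊗ L)` when `K ⊗ L = L` -/
def pwTensor (X : Type*) (τ : HTensor K L L) : HTensor K (L2 X L) (L2 X L) where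
  t := (diagC X L).comp τ.t
  inner_t := by
    intro k f k' f'
    show ⟪diag X L (τ.t k) f, diag X L (τ.t k') f'⟫_ℂ = _
    rw [lp.inner_eq_tsum, lp.inner_eq_tsum, ← tsum_mul_left]
    congr 1
    funext x
    rw [diag_apply, diag_apply, τ.inner_t]
  total := by
    classical
    intro m hm
    apply lp.ext
    funext x
    apply τ.total
    intro k l
    have h1 := hm k (lp.single 2 x l)
    have h2 : ((diagC X L).comp τ.t) k (lp.single 2 x l) = lp.single 2 x (τ.t k l) :=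
      diag_single (τ.t k) x l
    rw [h2] at h1
    rw [← h1]
    exact (inner_single_left' x (τ.t k l) m).symm

theorem pwTensor_t {X : Type*} (τ : HTensor K L L) (k : K) (f : L2 X L) :
    (pwTensor X τ).t k f = diag X L (τ.t k) f := rfl

theorem pw_ampR_V {X : Type*} (τ : HTensor K L L) (φ : X ↪ X) :
    (pwTensor X τ).ampR (V L φ) = V L φ := by
  apply (pwTensor X τ).ext_op
  intro k f
  rw [HTensor.ampR_t, pwTensor_t, pwTensor_t]
  exact congrArg (fun g => g f) (V_mul_diag φ (τ.t k)).symm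

theorem pw_ampR_diag {X : Type*} (τ : HTensor K L L) (T : L →L[ℂ] L) :
    (pwTensor X τ).ampR (diag X L T) = diag X L (τ.ampR T) := by
  apply (pwTensor X τ).ext_op
  intro k f
  rw [HTensor.ampR_t, pwTensor_t, pwTensor_t]
  apply lp.ext
  funext x
  rw [diag_apply, diag_apply, diag_apply, diag_apply, HTensor.ampR_t]

theorem pw_ampL {X : Type*} (τ : HTensor K L L) (S : K →L[ℂ] K) :
    (pwTensor X τ).ampL S = diag X L (τ.ampL S) := by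
  apply (pwTensor X τ).ext_op
  intro k f
  rw [HTensor.ampL_t, pwTensor_t, pwTensor_t]
  apply lp.ext
  funext x
  rw [diag_apply, diag_apply, diag_apply, HTensor.ampL_t]

end pointwise

variable {Z : Type*} [CStarAlgebra Z]
variable {K : Type*} [NormedAddCommGroup K] [InnerProductSpace ℂ K] [CompleteSpace K]
variable (ρ : Z →⋆ₐ[ℂ] (K →L[ℂ] K)) (Ω : K) (hΩ : ‖Ω‖ = 1)

/-- the shift endomorphism on operators of `H` -/
def sigH : OpH Ω hΩ →⋆ₐ[ℂ] OpH Ω hΩ := (pwTensor XX (infTensor Ω hΩ)).ampR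

theorem sigH_gens {x : OpH Ω hΩ} (hx : x ∈ gens ρ Ω hΩ) : sigH Ω hΩ x ∈ BB ρ Ω hΩ := by
  rcases hx with ⟨k, rfl⟩ | ⟨g, rfl⟩ | ⟨n, z, rfl⟩
  · rw [sigH, pw_ampR_V]
    exact Sop_mem ρ Ω hΩ k
  · rw [sigH, pw_ampR_V]
    exact Uop_mem ρ Ω hΩ g
  · rw [sigH, pw_ampR_diag]
    exact dg_sigN_mem ρ Ω hΩ (n + 1) z

theorem sigH_mem {x : OpH Ω hΩ} (hx : x ∈ BB ρ Ω hΩ) : sigH Ω hΩ x ∈ BB ρ Ω hΩ := by
  have h1 : StarAlgebra.adjoin ℂ (gens ρ Ω hΩ) ≤ (BB ρ Ω hΩ).comap (sigH Ω hΩ) :=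
    StarAlgebra.adjoin_le (fun y hy => sigH_gens ρ Ω hΩ hy)
  have hcont : Continuous (sigH Ω hΩ) := by
    apply AddMonoidHomClass.continuous_of_bound (sigH Ω hΩ) 1
    intro y
    rw [one_mul]
    exact norm_starAlgHom_le _ _
  have hcl : IsClosed {y : OpH Ω hΩ | sigH Ω hΩ y ∈ BB ρ Ω hΩ} :=
    IsClosed.preimage hcont (inferInstance : IsClosed (BB ρ Ω hΩ : Set (OpH Ω hΩ)))
  have hx' : x ∈ closure (StarAlgebra.adjoin ℂ (gens ρ Ω hΩ) : Set (OpH Ω hΩ)) := by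
    rw [← StarSubalgebra.topologicalClosure_coe]
    exact hx
  exact closure_minimal (fun y hy => h1 hy) hcl hx'

/-- the shift as an endomorphism of `B` -/
def sigB : BB ρ Ω hΩ →⋆ₐ[ℂ] BB ρ Ω hΩ where
  toFun b := ⟨sigH Ω hΩ b.1, sigH_mem ρ Ω hΩ b.2⟩
  map_one' := Subtype.ext (map_one _)
  map_mul' a b := Subtype.ext (map_mul _ _ _)
  map_zero' := Subtype.ext (map_zero _)
  map_add' a b := Subtype.ext (map_add _ _ _)
  commutes' r := Subtype.ext (AlgHomClass.commutes _ r)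
  map_star' a := Subtype.ext (map_star _ _)

/-- the first factor as a homomorphism into `B` -/
def zetB : Z →⋆ₐ[ℂ] BB ρ Ω hΩ where
  toFun z := ⟨dg Ω hΩ (pi0 ρ Ω hΩ z), dg_sigN_mem ρ Ω hΩ 0 z⟩
  map_one' := Subtype.ext (by show dg Ω hΩ (pi0 ρ Ω hΩ 1) = 1; rw [map_one, map_one])
  map_mul' a b := Subtype.ext (by
    show dg Ω hΩ (pi0 ρ Ω hΩ (a * b)) = dg Ω hΩ (pi0 ρ Ω hΩ a) * dg Ω hΩ (pi0 ρ Ω hΩ b)
    rw [map_mul, map_mul])
  map_zero' := Subtype.ext (by show dg Ω hΩ (pi0 ρ Ω hΩ 0) = 0; rw [map_zero, map_zero])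
  map_add' a b := Subtype.ext (by
    show dg Ω hΩ (pi0 ρ Ω hΩ (a + b)) = dg Ω hΩ (pi0 ρ Ω hΩ a) + dg Ω hΩ (pi0 ρ Ω hΩ b)
    rw [map_add, map_add])
  commutes' r := Subtype.ext (by
    show dg Ω hΩ (pi0 ρ Ω hΩ (algebraMap ℂ Z r)) = algebraMap ℂ (OpH Ω hΩ) r
    rw [AlgHomClass.commutes, AlgHomClass.commutes])
  map_star' a := Subtype.ext (by
    show dg Ω hΩ (pi0 ρ Ω hΩ (star a)) = star (dg Ω hΩ (pi0 ρ Ω hΩ a))
    rw [map_star, map_star])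

theorem dg_pi0 (z : Z) : dg Ω hΩ (pi0 ρ Ω hΩ z) = (pwTensor XX (infTensor Ω hΩ)).ampL (ρ z) := by
  rw [pw_ampL]; rfl

theorem sigB_comm (b : BB ρ Ω hΩ) (z : Z) : Commute (sigB ρ Ω hΩ b) (zetB ρ Ω hΩ z) := by
  apply Subtype.ext
  show sigH Ω hΩ b.1 * dg Ω hΩ (pi0 ρ Ω hΩ z) = dg Ω hΩ (pi0 ρ Ω hΩ z) * sigH Ω hΩ b.1
  rw [dg_pi0]
  exact ((pwTensor XX (infTensor Ω hΩ)).amp_comm _ _).symm

/-- `b ⊗ z ↦ σ(b) z` -/
def absA : (BB ρ Ω hΩ ⊗[ℂ] Z) →ₐ[ℂ] BB ρ Ω hΩ :=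
  Algebra.TensorProduct.lift (sigB ρ Ω hΩ : BB ρ Ω hΩ →ₐ[ℂ] BB ρ Ω hΩ)
    (zetB ρ Ω hΩ : Z →ₐ[ℂ] BB ρ Ω hΩ) (sigB_comm ρ Ω hΩ)

theorem absA_tmul (b : BB ρ Ω hΩ) (z : Z) :
    absA ρ Ω hΩ (b ⊗ₜ z) = sigB ρ Ω hΩ b * zetB ρ Ω hΩ z := rfl

/-- `b ⊗ z ↦ σ(b) z` as a `*`-homomorphism -/
def absS : (BB ρ Ω hΩ ⊗[ℂ] Z) →⋆ₐ[ℂ] BB ρ Ω hΩ where
  toAlgHom := absA ρ Ω hΩ
  map_star' x := by
    show absA ρ Ω hΩ (star x) = star (absA ρ Ω hΩ x)
    induction x using TensorProduct.induction_on with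
    | zero => rw [star_zero, map_zero, star_zero]
    | tmul b z =>
      rw [TensorProduct.star_tmul, absA_tmul, absA_tmul, star_mul, map_star, map_star]
      exact ((sigB_comm ρ Ω hΩ b z).star_star).eq
    | add x y hx hy => rw [star_add, map_add, map_add, star_add, hx, hy]

theorem absA_injective (hρ : Function.Injective ρ) : Function.Injective (absA ρ Ω hΩ) := by
  rw [injective_iff_map_eq_zero]
  intro x hx
  obtain ⟨b, hb⟩ := TensorProduct.eq_repr_basis_right (Module.Basis.ofVectorSpace ℂ Z) x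
  rw [← hb] at hx
  rw [Finsupp.sum, map_sum] at hx
  have h1 : ∑ j ∈ b.support, (pwTensor XX (infTensor Ω hΩ)).ampL
      (ρ (Module.Basis.ofVectorSpace ℂ Z j)) *
        (pwTensor XX (infTensor Ω hΩ)).ampR (b j : OpH Ω hΩ) = 0 := by
    have h2 := congrArg Subtype.val hx
    rw [AddSubmonoidClass.coe_finset_sum] at h2
    rw [← ZeroMemClass.coe_zero (BB ρ Ω hΩ), ← h2]
    apply Finset.sum_congr rfl
    intro j _
    rw [HTensor.amp_comm, ← dg_pi0]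
    rfl
  have h2 : ∀ j, b j = 0 := by
    intro j
    apply Subtype.ext
    show (b j : OpH Ω hΩ) = 0
    ext1 l'
    apply ext_inner_left ℂ
    intro l
    have h3 := HTensor.sum_slice _ b.support (fun j => ρ (Module.Basis.ofVectorSpace ℂ Z j))
      (fun j => (b j : OpH Ω hΩ)) h1 l l'
    have h4 : ρ (∑ j ∈ b.support, ⟪l, (b j : OpH Ω hΩ) l'⟫_ℂ • Module.Basis.ofVectorSpace ℂ Z j) = 0 := by
      rw [map_sum, ← h3]
      apply Finset.sum_congr rfl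
      intro j _
      rw [map_smul]
    have h5 := (injective_iff_map_eq_zero ρ).1 hρ _ h4
    have h6 := linearIndependent_iff'.1 (Module.Basis.ofVectorSpace ℂ Z).linearIndependent
      b.support _ h5
    by_cases hj : j ∈ b.support
    · rw [h6 j hj, zero_apply, inner_zero_right]
    · rw [Finsupp.notMem_support_iff] at hj
      rw [hj]
      simp
  rw [← hb]
  have h3 : b = 0 := Finsupp.ext h2
  rw [h3, Finsupp.sum_zero_index]

theorem absA_denseRange : DenseRange (absA ρ Ω hΩ) := by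
  intro y
  rw [closure_subtype]
  have h1 : StarAlgebra.adjoin ℂ (gens ρ Ω hΩ) ≤
      ((absS ρ Ω hΩ).range).map (BB ρ Ω hΩ).subtype := by
    apply StarAlgebra.adjoin_le
    rintro x (⟨k, rfl⟩ | ⟨g, rfl⟩ | ⟨n, z, rfl⟩)
    · refine ⟨⟨Sop (LInf Ω hΩ) k, Sop_mem ρ Ω hΩ k⟩, ⟨⟨Sop (LInf Ω hΩ) k, Sop_mem ρ Ω hΩ k⟩ ⊗ₜ 1, ?_⟩, rfl⟩
      show absA ρ Ω hΩ _ = _
      rw [absA_tmul, map_one, mul_one]
      apply Subtype.ext
      show sigH Ω hΩ (Sop (LInf Ω hΩ) k) = _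
      rw [sigH, pw_ampR_V]
    · refine ⟨⟨Uop (LInf Ω hΩ) g, Uop_mem ρ Ω hΩ g⟩, ⟨⟨Uop (LInf Ω hΩ) g, Uop_mem ρ Ω hΩ g⟩ ⊗ₜ 1, ?_⟩, rfl⟩
      show absA ρ Ω hΩ _ = _
      rw [absA_tmul, map_one, mul_one]
      apply Subtype.ext
      show sigH Ω hΩ (Uop (LInf Ω hΩ) g) = _
      rw [sigH, pw_ampR_V]
    · cases n with
      | zero =>
        refine ⟨zetB ρ Ω hΩ z, ⟨1 ⊗ₜ z, ?_⟩, rfl⟩
        show absA ρ Ω hΩ _ = _
        rw [absA_tmul, map_one, one_mul]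
      | succ n =>
        refine ⟨⟨_, dg_sigN_mem ρ Ω hΩ (n + 1) z⟩, ⟨⟨_, dg_sigN_mem ρ Ω hΩ n z⟩ ⊗ₜ 1, ?_⟩, rfl⟩
        show absA ρ Ω hΩ _ = _
        rw [absA_tmul, map_one, mul_one]
        apply Subtype.ext
        show sigH Ω hΩ (dg Ω hΩ (sigN Ω hΩ n (pi0 ρ Ω hΩ z))) = _
        rw [sigH, pw_ampR_diag]
        rfl
  have hy : (y : OpH Ω hΩ) ∈ closure (StarAlgebra.adjoin ℂ (gens ρ Ω hΩ) : Set (OpH Ω hΩ)) := by
    rw [← StarSubalgebra.topologicalClosure_coe]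
    exact y.2
  refine closure_mono ?_ hy
  intro x hx
  obtain ⟨x', ⟨w, hw⟩, hx'⟩ := h1 hx
  exact ⟨x', ⟨w, hw⟩, hx'⟩

/-- `B` absorbs `Z` -/
theorem stable_Z (hρ : Function.Injective ρ) : TensorStable (BB ρ Ω hΩ) Z :=
  ⟨((absS ρ Ω hΩ : (BB ρ Ω hΩ ⊗[ℂ] Z) →⋆ₐ[ℂ] BB ρ Ω hΩ) : (BB ρ Ω hΩ ⊗[ℂ] Z) →⋆ₙₐ[ℂ] BB ρ Ω hΩ),
    absA_injective ρ Ω hΩ hρ, absA_denseRange ρ Ω hΩ⟩

end Pool.Agent.helper29
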