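import Mathlib

/-!
# Definitions for the problem on `𝒵`-stability and `𝒪_∞`-stability
-/

open scoped TensorProduct ComplexOrder

noncomputable section

namespace Pool.Agent.helper29

/-- A C*-algebra is simple if it is nonzero and has no closed two-sided ideals besides `0` and
itself. -/
def IsSimpleCStar (B : Type*) [NonUnitalCStarAlgebra B] : Prop :=
  Nontrivial B ∧ ∀ I : TwoSidedIdeal B, IsClosed (I : Set B) → I = ⊥ ∨ I = ⊤

/-- Positive elements of a C*-algebra: those of the form `c* c`. -/
def IsPosElt {B : Type*} [NonUnitalCStarAlgebra B] (a : B) : Prop := ∃ c, a = star c * c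

/-- Hereditary C*-subalgebras: closed `*`-subalgebras `H` such that `0 ≤ a ≤ b ∈ H` implies
`a ∈ H`. -/
structure IsHereditaryCStar {B : Type*} [NonUnitalCStarAlgebra B]
    (H : NonUnitalStarSubalgebra ℂ B) : Prop where
  closed : IsClosed (H : Set B)
  hereditary : ∀ a b : B, b ∈ H → IsPosElt a → IsPosElt (b - a) → a ∈ H

/-- A projection `p` is infinite if it is Murray-von Neumann equivalent to a proper subprojection
of itself: `p = v* v`, and `v v* ≤ p`, `v v* ≠ p`. -/
def IsInfiniteProjection {B : Type*} [NonUnitalCStarAlgebra B] (p : B) : Prop :=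
  IsStarProjection p ∧ ∃ v, star v * v = p ∧ p * (v * star v) = v * star v ∧ v * star v ≠ p

/-- Cuntz's definition of pure infiniteness: every nonzero hereditary C*-subalgebra contains an
infinite projection. -/
def IsPurelyInfinite (B : Type*) [NonUnitalCStarAlgebra B] : Prop :=
  ∀ H : NonUnitalStarSubalgebra ℂ B, IsHereditaryCStar H → H ≠ ⊥ → ∃ p ∈ H, IsInfiniteProjection p

/-- `B ⊗ D ≅ B` for a nuclear C*-algebra `D`: there is an injective `*`-homomorphism from the
algebraic tensor product of `B` and `D` to `B` with dense range. (The norm of `B` then induces a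
C*-norm on the algebraic tensor product, which is the unique one because `D` is nuclear, and the
homomorphism extends to an isomorphism of the C*-tensor product with `B`.) -/
def TensorStable (B D : Type*) [NonUnitalCStarAlgebra B] [CStarAlgebra D] : Prop :=
  ∃ π : (B ⊗[ℂ] D) →⋆ₙₐ[ℂ] B, Function.Injective π ∧ DenseRange π

/-- a sequence of isometries with mutually orthogonal ranges -/
structure IsCuntzFamily {C : Type*} [CStarAlgebra C] (T : ℕ → C) : Prop where
  iso : ∀ i, star (T i) * T i = 1
  orth : ∀ i j, i ≠ j → star (T i) * T j = 0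

/-- `C` is the Cuntz algebra `𝒪_∞`: it is generated by a sequence of isometries with mutually
orthogonal ranges. -/
def IsCuntzInfinity (C : Type*) [CStarAlgebra C] : Prop :=
  Nontrivial C ∧ ∃ T : ℕ → C, IsCuntzFamily T ∧
    (StarAlgebra.adjoin ℂ (Set.range T)).topologicalClosure = ⊤

/-- tracial states -/
structure IsTracialState {A : Type*} [CStarAlgebra A] (τ : A →ₗ[ℂ] ℂ) : Prop where
  one : τ 1 = 1
  nonneg : ∀ a, 0 ≤ τ (star a * a)
  trace : ∀ a b, τ (a * b) = τ (b * a)

end Pool.Agent.helper29
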