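import Pool.Agent.helper29.BTrace
import Pool.Agent.helper29.CStarDefs

/-!
# The GNS representation of a tracial state
-/

open scoped InnerProductSpace ENNReal ComplexOrder
open Filter Topology

noncomputable section

namespace Pool.Agent.helper29

universe u

variable {Z : Type u} [CStarAlgebra Z]

theorem exists_tracial_rep {τ : Z →ₗ[ℂ] ℂ} (hτ : IsTracialState τ) :
    ∃ (K : Type u) (_ : NormedAddCommGroup K) (_ : InnerProductSpace ℂ K) (_ : CompleteSpace K)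
      (ρ : Z →⋆ₐ[ℂ] (K →L[ℂ] K)) (Ω : K), ‖Ω‖ = 1 ∧ IsTracialVec ρ Ω := by
  let _ : PartialOrder Z := CStarAlgebra.spectralOrder Z
  have _ : StarOrderedRing Z := CStarAlgebra.spectralOrderedRing Z
  obtain ⟨f, hf⟩ : ∃ f : Z →ₚ[ℂ] ℂ, ∀ z, f z = τ z := by
    refine ⟨PositiveLinearMap.mk₀ τ ?_, fun z => rfl⟩
    intro x hx
    rw [CStarAlgebra.nonneg_iff_eq_star_mul_self] at hx
    obtain ⟨c, rfl⟩ := hx
    exact hτ.nonneg c
  have hin : ∀ z z' : Z, ⟪f.gnsStarAlgHom z ((f.toPreGNS 1 : f.PreGNS) : f.GNS),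
      f.gnsStarAlgHom z' ((f.toPreGNS 1 : f.PreGNS) : f.GNS)⟫_ℂ = τ (star z * z') := by
    intro z z'
    have h1 : ∀ z, f.gnsStarAlgHom z ((f.toPreGNS 1 : f.PreGNS) : f.GNS) =
        ((f.toPreGNS z : f.PreGNS) : f.GNS) := by
      intro z
      show f.gnsNonUnitalStarAlgHom z ((f.toPreGNS 1 : f.PreGNS) : f.GNS) = _
      rw [PositiveLinearMap.gnsNonUnitalStarAlgHom_apply_coe,
        PositiveLinearMap.leftMulMapPreGNS_apply]
      simp
    rw [h1, h1, UniformSpace.Completion.inner_coe, PositiveLinearMap.preGNS_inner_def, hf]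
    simp
  refine ⟨f.GNS, inferInstance, inferInstance, inferInstance, f.gnsStarAlgHom,
    ((f.toPreGNS 1 : f.PreGNS) : f.GNS), ?_, ?_⟩
  · have h1 := hin 1 1
    rw [map_one, star_one, one_mul, hτ.one] at h1
    have h2 : ⟪((f.toPreGNS 1 : f.PreGNS) : f.GNS), ((f.toPreGNS 1 : f.PreGNS) : f.GNS)⟫_ℂ = 1 := h1
    have h3 : ‖((f.toPreGNS 1 : f.PreGNS) : f.GNS)‖ ^ 2 = 1 := by
      rw [← inner_self_eq_norm_sq (𝕜 := ℂ), h2]
      simp
    have h4 := norm_nonneg ((f.toPreGNS 1 : f.PreGNS) : f.GNS)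
    nlinarith
  · intro z z'
    rw [hin, hin, star_star, hτ.trace]

theorem simple_injective (hZ : IsSimpleCStar Z) {A : Type*} [CStarAlgebra A] [Nontrivial A]
    (ρ : Z →⋆ₐ[ℂ] A) : Function.Injective ρ := by
  have h1 := hZ.2 (TwoSidedIdeal.ker ρ) (by
    have h2 : ((TwoSidedIdeal.ker ρ : TwoSidedIdeal Z) : Set Z) = ρ ⁻¹' {0} := by
      ext z
      exact TwoSidedIdeal.mem_ker ρ
    rw [h2]
    apply IsClosed.preimage _ isClosed_singleton
    apply AddMonoidHomClass.continuous_of_bound ρ 1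
    intro y
    rw [one_mul]
    exact NonUnitalStarAlgHom.norm_apply_le ρ y)
  rcases h1 with h1 | h1
  · exact (TwoSidedIdeal.ker_eq_bot ρ).1 h1
  · exfalso
    have h2 : (1 : Z) ∈ TwoSidedIdeal.ker ρ := by rw [h1]; trivial
    rw [TwoSidedIdeal.mem_ker, map_one] at h2
    exact one_ne_zero h2

end Pool.Agent.helper29
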