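import Pool.Agent.helper29.CStarDefs

/-!
# A criterion for simplicity and pure infiniteness
-/

noncomputable section

namespace Pool.Agent.helper29

variable {A : Type*} [CStarAlgebra A]

theorem simple_of_conj [Nontrivial A] (h : ∀ y : A, y ≠ 0 → ∃ b, star (y * b) * (y * b) = 1) :
    IsSimpleCStar A := by
  refine ⟨inferInstance, fun I _ => ?_⟩
  by_cases hI : I = ⊥
  · exact Or.inl hI
  · right
    have h1 : ∃ y ∈ I, y ≠ 0 := by
      by_contra hcon
      push Not at hcon
      apply hI
      rw [eq_bot_iff]
      intro y hy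
      rw [hcon y hy]
      exact zero_mem _
    obtain ⟨y, hy, hy0⟩ := h1
    obtain ⟨b, hb⟩ := h y hy0
    have h2 : (1 : A) ∈ I := by
      rw [← hb]
      exact I.mul_mem_left _ _ (I.mul_mem_right _ _ hy)
    rw [eq_top_iff]
    intro z _
    have := I.mul_mem_left z 1 h2
    rwa [mul_one] at this

theorem purelyInfinite_of_conj (h : ∀ y : A, y ≠ 0 → ∃ b, star (y * b) * (y * b) = 1)
    {S : A} (hS : star S * S = 1) (hS' : S * star S ≠ 1) : IsPurelyInfinite A := by
  intro H hH hne
  let _ : PartialOrder A := CStarAlgebra.spectralOrder A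
  have _ : StarOrderedRing A := CStarAlgebra.spectralOrderedRing A
  have h1 : ∃ x ∈ H, x ≠ 0 := by
    by_contra hcon
    push Not at hcon
    apply hne
    rw [eq_bot_iff]
    intro y hy
    rw [hcon y hy]
    exact zero_mem _
  obtain ⟨x, hx, hx0⟩ := h1
  obtain ⟨b, hb⟩ := h x hx0
  obtain ⟨v, hv⟩ : ∃ v : A, v = x * b := ⟨_, rfl⟩
  rw [← hv] at hb
  have hpp : v * star v * (v * star v) = v * star v := by
    rw [mul_assoc, ← mul_assoc (star v), hb, one_mul]
  refine ⟨v * star v, ?_, ⟨⟨hpp, ?_⟩, v * S * star v, ?_, ?_, ?_⟩⟩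
  · apply hH.hereditary _ ((‖b‖ ^ 2 : ℝ) • (x * star x))
    · have h1 : x * star x ∈ H := mul_mem hx (star_mem hx)
      have h2 : ((‖b‖ ^ 2 : ℝ) : ℂ) • (x * star x) ∈ H := SMulMemClass.smul_mem _ h1
      rwa [Complex.coe_smul] at h2
    · exact ⟨star v, by rw [star_star]⟩
    · have h3 : b * star b ≤ algebraMap ℝ A (‖b‖ ^ 2) := CStarAlgebra.mul_star_le_algebraMap_norm_sq
      rw [← sub_nonneg, CStarAlgebra.nonneg_iff_eq_star_mul_self] at h3
      obtain ⟨e, he⟩ := h3
      refine ⟨e * star x, ?_⟩
      rw [star_mul, star_star, mul_assoc, ← mul_assoc (star e), ← he, hv, star_mul,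
        Algebra.algebraMap_eq_smul_one, sub_mul, mul_sub, smul_mul_assoc, one_mul, mul_smul_comm]
      simp only [mul_assoc]
  · rw [isSelfAdjoint_iff, star_mul, star_star]
  · rw [star_mul, star_mul, star_star]
    calc v * (star S * star v) * (v * S * star v)
        = v * (star S * (star v * v) * S) * star v := by simp only [mul_assoc]
      _ = v * star v := by rw [hb, mul_one, hS, mul_one]
  · rw [star_mul, star_mul, star_star]
    calc v * star v * (v * S * star v * (v * (star S * star v)))
        = v * (star v * v) * (S * star v * (v * (star S * star v))) := by simp only [mul_assoc]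
      _ = _ := by rw [hb, mul_one]; simp only [mul_assoc]
  · intro hcon
    apply hS'
    rw [star_mul, star_mul, star_star] at hcon
    have h4 := congrArg (fun t => star v * t * v) hcon
    have e1 : star v * (v * S * star v * (v * (star S * star v))) * v =
        (star v * v) * S * (star v * v) * star S * (star v * v) := by simp only [mul_assoc]
    have e2 : star v * (v * star v) * v = (star v * v) * (star v * v) := by simp only [mul_assoc]
    rw [e1, e2, hb] at h4
    simpa using h4

end Pool.Agent.helper29
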