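import Pool.Agent.helper29.CuntzCentral

/-!
# `𝒪_∞`-stable algebras have asymptotically central isometries
-/

open scoped TensorProduct
open Filter Topology

noncomputable section

namespace Pool.Agent.helper29

variable {B C : Type*} [CStarAlgebra B] [CStarAlgebra C]

/-- the `*`-homomorphism `c ↦ π (1 ⊗ c)` -/
def rightPart (π : (B ⊗[ℂ] C) →⋆ₙₐ[ℂ] B) : C →⋆ₙₐ[ℂ] B where
  toFun c := π (1 ⊗ₜ c)
  map_smul' r c := by
    rw [TensorProduct.tmul_smul, map_smul]; rfl
  map_zero' := by rw [TensorProduct.tmul_zero, map_zero]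
  map_add' x y := by rw [TensorProduct.tmul_add, map_add]
  map_mul' x y := by
    rw [← map_mul, Algebra.TensorProduct.tmul_mul_tmul, one_mul]
  map_star' x := by
    rw [← map_star, TensorProduct.star_tmul, star_one]

theorem rightPart_apply (π : (B ⊗[ℂ] C) →⋆ₙₐ[ℂ] B) (c : C) : rightPart π c = π (1 ⊗ₜ c) := rfl

theorem rightPart_one (π : (B ⊗[ℂ] C) →⋆ₙₐ[ℂ] B) (hπ : DenseRange π) : rightPart π 1 = 1 := by
  have h1 : ∀ y : B, rightPart π 1 * y = y := by
    intro y
    have hcl : IsClosed {y : B | rightPart π 1 * y = y} :=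
      isClosed_eq (continuous_const.mul continuous_id) continuous_id
    have h2 : Set.range π ⊆ {y : B | rightPart π 1 * y = y} := by
      rintro _ ⟨x, rfl⟩
      show π (1 ⊗ₜ 1) * π x = π x
      rw [← map_mul, ← Algebra.TensorProduct.one_def, one_mul]
    exact closure_minimal h2 hcl (hπ y)
  have := h1 1
  rwa [mul_one] at this

theorem tendsto_comm_rightPart (π : (B ⊗[ℂ] C) →⋆ₙₐ[ℂ] B) (hπ : DenseRange π) {s : ℕ → C}
    (hs : ∀ n, ‖s n‖ ≤ 1) (hc : ∀ c, Tendsto (fun n => s n * c - c * s n) atTop (𝓝 0)) (y : B) :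
    Tendsto (fun n => rightPart π (s n) * y - y * rightPart π (s n)) atTop (𝓝 0) := by
  have h1 : ∀ x : B ⊗[ℂ] C,
      Tendsto (fun n => rightPart π (s n) * π x - π x * rightPart π (s n)) atTop (𝓝 0) := by
    intro x
    induction x using TensorProduct.induction_on with
    | zero => simp
    | tmul b c =>
      have e1 : ∀ n, rightPart π (s n) * π (b ⊗ₜ c) - π (b ⊗ₜ c) * rightPart π (s n) =
          π (b ⊗ₜ 1) * rightPart π (s n * c - c * s n) := by
        intro n
        rw [rightPart_apply, rightPart_apply, ← map_mul, ← map_mul, ← map_mul, ← map_sub]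
        congr 1
        simp only [Algebra.TensorProduct.tmul_mul_tmul, one_mul, mul_one]
        rw [TensorProduct.tmul_sub]
      simp only [e1]
      have h2 : Tendsto (fun n => rightPart π (s n * c - c * s n)) atTop (𝓝 0) := by
        apply squeeze_zero_norm (fun n => NonUnitalStarAlgHom.norm_apply_le (rightPart π) _)
        have := (hc c).norm
        rwa [norm_zero] at this
      have h3 := h2.const_mul (π (b ⊗ₜ 1))
      rwa [mul_zero] at h3
    | add x y hx hy =>
      have h2 := hx.add hy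
      rw [add_zero] at h2
      refine h2.congr (fun n => ?_)
      rw [map_add]
      noncomm_ring
  rw [Metric.tendsto_nhds]
  intro ε hε
  obtain ⟨y', ⟨x, rfl⟩, hd⟩ := Metric.mem_closure_iff.1 (hπ y) (ε / 4) (by positivity)
  have h3 := Metric.tendsto_nhds.1 (h1 x) (ε / 4) (by positivity)
  filter_upwards [h3] with n hn
  rw [dist_zero_right] at hn ⊢
  rw [dist_eq_norm] at hd
  have hsn : ‖rightPart π (s n)‖ ≤ 1 :=
    (NonUnitalStarAlgHom.norm_apply_le (rightPart π) _).trans (hs n)
  obtain ⟨r, hr⟩ : ∃ r, r = rightPart π (s n) := ⟨_, rfl⟩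
  rw [← hr] at hn hsn ⊢
  have e1 : r * y - y * r = (r * π x - π x * r) + r * (y - π x) - (y - π x) * r := by
    noncomm_ring
  rw [e1]
  calc ‖(r * π x - π x * r) + r * (y - π x) - (y - π x) * r‖
      ≤ (‖r * π x - π x * r‖ + ‖r‖ * ‖y - π x‖) + ‖y - π x‖ * ‖r‖ :=
        (norm_sub_le _ _).trans (add_le_add ((norm_add_le _ _).trans
          (add_le_add le_rfl (norm_mul_le _ _))) (norm_mul_le _ _))
    _ ≤ (‖r * π x - π x * r‖ + 1 * ‖y - π x‖) + ‖y - π x‖ * 1 := by
        gcongr
    _ < ε := by linarith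

theorem norm_le_one_of_iso {s : C} (h : star s * s = 1) : ‖s‖ ≤ 1 := by
  have h1 : ‖star s * s‖ ≤ 1 := by
    rw [h]
    rcases subsingleton_or_nontrivial C with h | h
    · rw [Subsingleton.elim (1:C) 0, norm_zero]; exact zero_le_one
    · rw [CStarRing.norm_one]
  rw [CStarRing.norm_star_mul_self] at h1
  nlinarith [norm_nonneg s]

/-- `𝒪_∞`-stable unital algebras have asymptotically central isometries with orthogonal ranges -/
theorem central_of_stable (hC : IsCuntzInfinity C) (h : TensorStable B C) :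
    ∃ s t : ℕ → B, (∀ n, star (s n) * s n = 1) ∧ (∀ n, star (t n) * t n = 1) ∧
      (∀ n, star (s n) * t n = 0) ∧
      (∀ c, Tendsto (fun n => s n * c - c * s n) atTop (𝓝 0)) ∧
      (∀ c, Tendsto (fun n => t n * c - c * t n) atTop (𝓝 0)) := by
  obtain ⟨_, T, hT, hgen⟩ := hC
  obtain ⟨π, _, hπ⟩ := h
  obtain ⟨s, t, hs, ht, hst, hsc, htc⟩ := Cuntz.exists_central hT hgen
  refine ⟨fun n => rightPart π (s n), fun n => rightPart π (t n), ?_, ?_, ?_, ?_, ?_⟩
  · intro n
    rw [← map_star, ← map_mul, hs, rightPart_one π hπ]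
  · intro n
    rw [← map_star, ← map_mul, ht, rightPart_one π hπ]
  · intro n
    rw [← map_star, ← map_mul, hst, map_zero]
  · exact tendsto_comm_rightPart π hπ (fun n => norm_le_one_of_iso (hs n)) hsc
  · exact tendsto_comm_rightPart π hπ (fun n => norm_le_one_of_iso (ht n)) htc

end Pool.Agent.helper29
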