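import Pool.Agent.helper29.HTensor

/-!
# Isometries of vector-valued `ℓ²` induced by injective maps of the index set
-/

open scoped InnerProductSpace ENNReal

noncomputable section

namespace Pool.Agent.helper29

variable {X : Type*} {L : Type*} [NormedAddCommGroup L] [InnerProductSpace ℂ L]

section extend

theorem summable_nsq (f : L2 X L) : Summable (fun x => ‖f x‖ ^ 2) := by
  have h := (lp.memℓp f).summable (by norm_num)
  simpa using h

theorem hasSum_nsq (f : L2 X L) : HasSum (fun x => ‖f x‖ ^ 2) (‖f‖ ^ 2) := by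
  have h := lp.hasSum_norm (p := 2) (by norm_num) f
  simpa using h

theorem memlp_of_nsq (f : X → L) (h : Summable (fun x => ‖f x‖ ^ 2)) :
    Memℓp (E := fun _ : X => L) f 2 := by
  apply memℓp_gen
  simpa using h

theorem norm_sq_eq (f : L2 X L) : ‖f‖ ^ 2 = ∑' x, ‖f x‖ ^ 2 := (hasSum_nsq f).tsum_eq.symm

theorem summable_extend {φ : X → X} (hφ : Function.Injective φ) (f : L2 X L) :
    Summable (fun x => ‖Function.extend φ (fun y => f y) 0 x‖ ^ 2) := by
  have h : ∀ x ∉ Set.range φ, ‖Function.extend φ (fun y => f y) 0 x‖ ^ 2 = 0 := by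
    intro x hx
    rw [Function.extend_apply' _ _ _ hx]
    simp
  rw [← hφ.summable_iff h]
  refine (summable_nsq f).congr (fun x => ?_)
  simp [Function.comp_apply, hφ.extend_apply]

theorem tsum_extend {φ : X → X} (hφ : Function.Injective φ) (f : L2 X L) :
    ∑' x, ‖Function.extend φ (fun y => f y) 0 x‖ ^ 2 = ‖f‖ ^ 2 := by
  have h : Function.support (fun x => ‖Function.extend φ (fun y => f y) 0 x‖ ^ 2) ⊆ Set.range φ := by
    intro x hx
    by_contra hx'
    apply hx
    show ‖Function.extend φ (fun y => f y) 0 x‖ ^ 2 = 0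
    rw [Function.extend_apply' _ _ _ hx']
    simp
  rw [← hφ.tsum_eq h, norm_sq_eq]
  apply tsum_congr
  intro x
  rw [hφ.extend_apply]

/-- the isometry `δ_x ⊗ l ↦ δ_{φ x} ⊗ l` -/
def V (L : Type*) [NormedAddCommGroup L] [InnerProductSpace ℂ L] (φ : X ↪ X) :
    L2 X L →L[ℂ] L2 X L :=
  LinearMap.mkContinuous
    { toFun := fun f => ⟨Function.extend φ (fun y => f y) 0,
        memlp_of_nsq _ (summable_extend φ.injective f)⟩
      map_add' := by
        intro f g
        apply lp.ext
        funext x
        show Function.extend φ (fun y => (f + g) y) 0 x =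
          Function.extend φ (fun y => f y) 0 x + Function.extend φ (fun y => g y) 0 x
        by_cases hx : x ∈ Set.range φ
        · obtain ⟨y, rfl⟩ := hx
          rw [φ.injective.extend_apply, φ.injective.extend_apply, φ.injective.extend_apply]
          rfl
        · rw [Function.extend_apply' _ _ _ hx, Function.extend_apply' _ _ _ hx,
            Function.extend_apply' _ _ _ hx]
          simp
      map_smul' := by
        intro c f
        apply lp.ext
        funext x
        show Function.extend φ (fun y => (c • f) y) 0 x =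
          c • Function.extend φ (fun y => f y) 0 x
        by_cases hx : x ∈ Set.range φ
        · obtain ⟨y, rfl⟩ := hx
          rw [φ.injective.extend_apply, φ.injective.extend_apply]
          rfl
        · rw [Function.extend_apply' _ _ _ hx, Function.extend_apply' _ _ _ hx]
          simp } 1
    (by
      intro f
      rw [one_mul]
      apply le_of_sq_le_sq _ (norm_nonneg _)
      rw [norm_sq_eq, ← tsum_extend φ.injective f]
      exact le_refl _)

theorem V_apply (φ : X ↪ X) (f : L2 X L) (x : X) :
    V L φ f (φ x) = f x := φ.injective.extend_apply _ _ x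

theorem V_apply' (φ : X ↪ X) (f : L2 X L) (x : X) (hx : x ∉ Set.range φ) :
    V L φ f x = 0 := by
  show Function.extend φ (fun y => f y) 0 x = 0
  rw [Function.extend_apply' _ _ _ hx]; rfl

theorem norm_V_apply (φ : X ↪ X) (f : L2 X L) : ‖V L φ f‖ = ‖f‖ := by
  rw [← sq_eq_sq₀ (norm_nonneg _) (norm_nonneg _), norm_sq_eq, ← tsum_extend φ.injective f]
  rfl

theorem V_single [DecidableEq X] (φ : X ↪ X) (x : X) (l : L) :
    V L φ (lp.single 2 x l) = lp.single 2 (φ x) l := by
  apply lp.ext
  funext y
  by_cases hy : y ∈ Set.range φ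
  · obtain ⟨z, rfl⟩ := hy
    rw [V_apply]
    by_cases h : z = x
    · subst h; simp
    · rw [lp.single_apply_ne _ _ _ h, lp.single_apply_ne _ _ _ (fun h' => h (φ.injective h'))]
  · rw [V_apply' _ _ _ hy, lp.single_apply_ne _ _ _ (fun h' => hy ⟨x, h'.symm⟩)]

/-- operators are determined by their values on `δ_x ⊗ l` -/
theorem ext_single [DecidableEq X] {N : Type*} [NormedAddCommGroup N] [NormedSpace ℂ N]
    {S T : L2 X L →L[ℂ] N}
    (h : ∀ x l, S (lp.single 2 x l) = T (lp.single 2 x l)) : S = T := by
  ext f
  have h1 := lp.hasSum_single (p := 2) (by norm_num) f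
  have h2 := h1.mapL S
  have h3 := h1.mapL T
  simp only [h] at h2
  exact h2.unique h3

theorem V_one : V L (Function.Embedding.refl X) = 1 := by
  classical
  apply ext_single
  intro x l
  rw [V_single]; rfl

theorem V_mul (φ ψ : X ↪ X) : V L φ * V L ψ = V L (ψ.trans φ) := by
  classical
  apply ext_single
  intro x l
  show V L φ (V L ψ (lp.single 2 x l)) = _
  rw [V_single, V_single, V_single]; rfl

variable [CompleteSpace L]

omit [CompleteSpace L] in
theorem inner_single_left' [DecidableEq X] (x : X) (l : L) (f : L2 X L) :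
    ⟪(lp.single 2 x l : L2 X L), f⟫_ℂ = ⟪l, (f x : L)⟫_ℂ := lp.inner_single_left x l f

theorem adjoint_V_apply (φ : X ↪ X) (f : L2 X L) (x : X) :
    ContinuousLinearMap.adjoint (V L φ) f x = f (φ x) := by
  classical
  apply ext_inner_left ℂ
  intro l
  have h1 := inner_single_left' x l (ContinuousLinearMap.adjoint (V L φ) f)
  have h2 := inner_single_left' (φ x) l f
  rw [ContinuousLinearMap.adjoint_inner_right, V_single, h2] at h1
  exact h1.symm

theorem star_V_mul_V (φ : X ↪ X) : star (V L φ) * V L φ = 1 := by
  ext f x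
  show ContinuousLinearMap.adjoint (V L φ) (V L φ f) x = f x
  rw [adjoint_V_apply, V_apply]

theorem star_V_mul_V_zero (φ ψ : X ↪ X) (h : ∀ x y, φ x ≠ ψ y) : star (V L φ) * V L ψ = 0 := by
  ext f x
  show ContinuousLinearMap.adjoint (V L φ) (V L ψ f) x = 0
  rw [adjoint_V_apply, V_apply']
  rintro ⟨y, hy⟩
  exact h x y hy.symm

theorem star_V_single_zero [DecidableEq X] (φ : X ↪ X) (x : X) (l : L) (h : ∀ y, φ y ≠ x) :
    star (V L φ) (lp.single 2 x l) = 0 := by
  apply lp.ext
  funext y
  show ContinuousLinearMap.adjoint (V L φ) (lp.single 2 x l) y = 0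
  rw [adjoint_V_apply, lp.single_apply_ne _ _ _ (h y)]

/-- a permutation gives a unitary -/
theorem star_V_equiv (e : X ≃ X) :
    star (V L e.toEmbedding) = V L e.symm.toEmbedding := by
  ext f x
  show ContinuousLinearMap.adjoint (V L e.toEmbedding) f x = _
  rw [adjoint_V_apply]
  have h := V_apply e.symm.toEmbedding f (e x)
  simp only [Equiv.coe_toEmbedding, Equiv.symm_apply_apply] at h
  rw [h]; rfl

theorem V_mul_diag (φ : X ↪ X) (T : L →L[ℂ] L) : V L φ * diag X L T = diag X L T * V L φ := by
  classical
  apply ext_single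
  intro x l
  show V L φ (diag X L T (lp.single 2 x l)) = diag X L T (V L φ (lp.single 2 x l))
  rw [diag_single, V_single, V_single, diag_single]

theorem star_V_mul_diag (φ : X ↪ X) (T : L →L[ℂ] L) :
    star (V L φ) * diag X L T = diag X L T * star (V L φ) := by
  have h := congrArg star (V_mul_diag φ (star T))
  rw [star_mul, star_mul, map_star, star_star] at h
  exact h.symm

end extend

end Pool.Agent.helper29
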