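import Mathlib

/-!
# A paradoxical set for left multiplication and for conjugation in the free group on two letters
-/

namespace Pool.Agent.helper29

open FreeGroup

/-- the free group on two letters -/
abbrev F2 : Type := FreeGroup Bool

namespace Paradox

theorem reduce_append_single (v : Bool × Bool) : ∀ L : List (Bool × Bool), IsReduced L →
    reduce (L ++ [v]) = L ++ [v] ∨ (L ≠ [] ∧ reduce (L ++ [v]) = L.dropLast) := by
  intro L
  induction L with
  | nil => intro _; left; rfl
  | cons x L ih =>
    intro hL
    match L, ih, hL with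
    | [], _, _ =>
      by_cases h : x.1 = v.1 ∧ x.2 = !v.2
      · right
        refine ⟨by simp, ?_⟩
        simp [reduce.cons, h]
      · left
        simp only [List.cons_append, List.nil_append, reduce.cons, reduce_nil]
        rw [if_neg h]
    | y :: L, ih, hL =>
      have hL2 := isReduced_cons_cons.1 hL
      have hxy : ¬ (x.1 = y.1 ∧ x.2 = !y.2) := by
        rintro ⟨h1, h2⟩
        have := hL2.1 h1
        rw [this] at h2
        simp at h2
      rcases ih hL2.2 with h | ⟨_, h⟩
      · left
        rw [List.cons_append, reduce.cons, h]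
        simp only [List.cons_append]
        rw [if_neg hxy]
      · right
        refine ⟨by simp, ?_⟩
        rw [List.cons_append, reduce.cons, h]
        match L with
        | [] => simp
        | z :: L =>
          simp only [List.dropLast_cons_cons]
          rw [if_neg hxy]

theorem toWord_mul_mk (h : F2) (v : Bool × Bool) :
    (h * mk [v]).toWord = h.toWord ++ [v] ∨
      (h.toWord ≠ [] ∧ (h * mk [v]).toWord = h.toWord.dropLast) := by
  have := reduce_append_single v h.toWord isReduced_toWord
  rwa [toWord_mul, toWord_mk, reduce_singleton]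

theorem toWord_mk_mul {w : Bool × Bool} (h : F2) (hw : h ∉ startsWith (w.1, !w.2)) :
    (mk [w] * h).toWord = w :: h.toWord := by
  rw [toWord_mul, toWord_mk, reduce_singleton, List.singleton_append, reduce.cons, reduce_toWord]
  cases hL : h.toWord with
  | nil => rfl
  | cons x L =>
    simp only
    rw [if_neg]
    rintro ⟨h1, h2⟩
    apply hw
    show h.toWord[0]? = some (w.1, !w.2)
    rw [hL, h1, h2]
    simp

theorem startsWith_mk_mul_mk {w v : Bool × Bool} {h : F2} (h1 : h ≠ 1)
    (hw : h ∉ startsWith (w.1, !w.2)) : mk [w] * h * mk [v] ∈ startsWith w := by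
  have e := toWord_mk_mul h hw
  have hne : h.toWord ≠ [] := fun h' => h1 (toWord_eq_nil_iff.1 h')
  show (mk [w] * h * mk [v]).toWord[0]? = some w
  rcases toWord_mul_mk (mk [w] * h) v with h2 | ⟨_, h2⟩
  · rw [h2, e]; rfl
  · rw [h2, e]
    cases hL : h.toWord with
    | nil => exact absurd hL hne
    | cons x L => simp

/-- elements whose reduced word starts with `a` or `a⁻¹` -/
def W : Set F2 := {g | g ∈ startsWith (true, true) ∨ g ∈ startsWith (true, false)}

/-- the first generator -/
def ga : F2 := FreeGroup.of true

/-- the second generator -/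
def gb : F2 := FreeGroup.of false

theorem ga_inv : ga⁻¹ = mk [(true, false)] := rfl
theorem gb_eq : gb = mk [(false, true)] := rfl
theorem ga_eq : ga = mk [(true, true)] := rfl
theorem gb_inv : gb⁻¹ = mk [(false, false)] := rfl

theorem notMem_W_of_startsWith {g : F2} {s : Bool} (h : g ∈ startsWith (false, s)) : g ∉ W := by
  have h' : g.toWord[0]? = some (false, s) := h
  rintro (h1 | h1) <;>
  · have h1' : g.toWord[0]? = _ := h1
    rw [h'] at h1'
    simp at h1'

theorem notMem_startsWith_of_W {g : F2} {s : Bool} (h : g ∈ W) : g ∉ startsWith (false, s) :=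
  fun h' => notMem_W_of_startsWith h' h

theorem left_cover (k : F2) : k ∈ W ∨ ga⁻¹ * k ∈ W := by
  by_cases h : k ∈ W
  · exact Or.inl h
  · right
    right
    rw [ga_inv]
    apply startsWith_mk_mul
    intro h'
    exact h (Or.inl h')

theorem conj_cover {h : F2} (h1 : h ≠ 1) : h ∈ W ∨ ga⁻¹ * h * ga ∈ W := by
  by_cases hW : h ∈ W
  · exact Or.inl hW
  · right
    right
    rw [ga_inv, ga_eq]
    apply startsWith_mk_mul_mk h1
    intro h'
    exact hW (Or.inl h')

theorem left_b {k : F2} (h : k ∈ W) : gb * k ∈ startsWith (false, true) := by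
  rw [gb_eq]
  exact startsWith_mk_mul k (notMem_startsWith_of_W h)

theorem left_bb {k : F2} (h : k ∈ startsWith (false, true)) : gb * k ∈ startsWith (false, true) := by
  rw [gb_eq]
  apply startsWith_mk_mul
  intro h'
  have e1 : k.toWord[0]? = some (false, true) := h
  have e2 : k.toWord[0]? = some (false, false) := h'
  rw [e1] at e2
  simp at e2

theorem conj_b {h : F2} (hW : h ∈ W) : gb * h * gb⁻¹ ∈ startsWith (false, true) := by
  have h1 : h ≠ 1 := by
    rcases hW with h' | h' <;> exact startsWith.ne_one h h'
  rw [gb_inv, gb_eq]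
  exact startsWith_mk_mul_mk h1 (notMem_startsWith_of_W hW)

theorem conj_bb {h : F2} (hW : h ∈ startsWith (false, true)) :
    gb * h * gb⁻¹ ∈ startsWith (false, true) := by
  have h1 : h ≠ 1 := startsWith.ne_one h hW
  rw [gb_inv, gb_eq]
  apply startsWith_mk_mul_mk h1
  intro h'
  have e1 : h.toWord[0]? = some (false, true) := hW
  have e2 : h.toWord[0]? = some (false, false) := h'
  rw [e1] at e2
  simp at e2

end Paradox

end Pool.Agent.helper29
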