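import Pool.Agent.helper29.Shift
import Pool.Agent.helper29.Paradox

/-!
# The spectral gap estimate
-/

open scoped InnerProductSpace ENNReal

noncomputable section

namespace Pool.Agent.helper29

section res

variable {X : Type*} {L : Type*} [NormedAddCommGroup L] [InnerProductSpace ℂ L]

theorem indicator_nsq (S : Set X) (f : X → L) (x : X) :
    ‖S.indicator f x‖ ^ 2 = S.indicator (fun x => ‖f x‖ ^ 2) x := by
  by_cases h : x ∈ S
  · rw [Set.indicator_of_mem h, Set.indicator_of_mem h]
  · rw [Set.indicator_of_notMem h, Set.indicator_of_notMem h]; simp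

/-- restriction to a subset of the index set -/
def res (S : Set X) (f : L2 X L) : L2 X L :=
  ⟨S.indicator (fun x => f x), memlp_of_nsq _ (by
    have h := (summable_nsq f).indicator S
    refine h.congr (fun x => ?_)
    rw [indicator_nsq])⟩

theorem res_apply (S : Set X) (f : L2 X L) (x : X) :
    res S f x = S.indicator (fun x => f x) x := rfl

theorem norm_res_sq (S : Set X) (f : L2 X L) :
    ‖res S f‖ ^ 2 = ∑' x, S.indicator (fun x => ‖f x‖ ^ 2) x := by
  rw [norm_sq_eq]
  apply tsum_congr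
  intro x
  rw [res_apply, indicator_nsq]

theorem summable_indicator_nsq (S : Set X) (f : L2 X L) :
    Summable (S.indicator (fun x => ‖f x‖ ^ 2)) := (summable_nsq f).indicator S

theorem norm_res_le (S : Set X) (f : L2 X L) : ‖res S f‖ ≤ ‖f‖ := by
  apply le_of_sq_le_sq _ (norm_nonneg _)
  rw [norm_res_sq, norm_sq_eq]
  apply (summable_indicator_nsq S f).tsum_le_tsum _ (summable_nsq f)
  intro x
  exact Set.indicator_le_self' (fun _ _ => by positivity) x

theorem res_sub (S : Set X) (f g : L2 X L) : res S (f - g) = res S f - res S g := by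
  apply lp.ext
  funext x
  show S.indicator (fun x => (f - g) x) x = S.indicator (fun x => f x) x - S.indicator (fun x => g x) x
  by_cases h : x ∈ S
  · rw [Set.indicator_of_mem h, Set.indicator_of_mem h, Set.indicator_of_mem h]; rfl
  · rw [Set.indicator_of_notMem h, Set.indicator_of_notMem h, Set.indicator_of_notMem h]; simp

theorem res_V (e : X ≃ X) (S : Set X) (f : L2 X L) :
    res (e '' S) (V L e.toEmbedding f) = V L e.toEmbedding (res S f) := by
  apply lp.ext
  funext x
  obtain ⟨y, rfl⟩ := e.surjective x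
  have h1 := V_apply e.toEmbedding (res S f) y
  have h2 := V_apply e.toEmbedding f y
  rw [Equiv.coe_toEmbedding] at h1 h2
  rw [h1, res_apply, res_apply]
  by_cases h : y ∈ S
  · rw [Set.indicator_of_mem h, Set.indicator_of_mem (Set.mem_image_of_mem e h), h2]
  · rw [Set.indicator_of_notMem h, Set.indicator_of_notMem]
    rintro ⟨z, hz, hzy⟩
    exact h (e.injective hzy ▸ hz)

theorem norm_res_image_le (e : X ≃ X) (S : Set X) (f : L2 X L) :
    ‖res (e '' S) f‖ ≤ ‖res S f‖ + ‖V L e.toEmbedding f - f‖ := by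
  have h1 : res (e '' S) f = res (e '' S) (V L e.toEmbedding f) -
      res (e '' S) (V L e.toEmbedding f - f) := by
    rw [res_sub]; abel
  rw [h1]
  refine (norm_sub_le _ _).trans (add_le_add ?_ (norm_res_le _ _))
  rw [res_V, norm_V_apply]

theorem le_norm_res_image (e : X ≃ X) (S : Set X) (f : L2 X L) :
    ‖res S f‖ ≤ ‖res (e '' S) f‖ + ‖V L e.toEmbedding f - f‖ := by
  have h1 : res (e '' S) (V L e.toEmbedding f) = res (e '' S) f +
      res (e '' S) (V L e.toEmbedding f - f) := by
    rw [res_sub]; abel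
  have h2 : ‖res S f‖ = ‖res (e '' S) (V L e.toEmbedding f)‖ := by
    rw [res_V, norm_V_apply]
  rw [h2, h1]
  exact (norm_add_le _ _).trans (add_le_add le_rfl (norm_res_le _ _))

/-- the abstract spectral gap estimate -/
theorem gap_estimate (a b : X ≃ X) (P : Set X) (x₀ : X)
    (hcov : ∀ x, x ≠ x₀ → x ∈ P ∨ x ∈ a '' P)
    (h0 : x₀ ∉ P) (hb0 : b x₀ = x₀)
    (hd1 : ∀ x ∈ P, b x ∉ P) (hd2 : ∀ x ∈ P, b (b x) ∉ P)
    (f : L2 X L) {ε : ℝ} (ha : ‖V L a.toEmbedding f - f‖ ≤ ε)
    (hb : ‖V L b.toEmbedding f - f‖ ≤ ε) :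
    ‖res {x₀}ᶜ f‖ ≤ 13 * ε := by
  have hε : 0 ≤ ε := (norm_nonneg _).trans ha
  set p := ‖res P f‖ with hp
  have hp0 : 0 ≤ p := norm_nonneg _
  set N := ‖res {x₀}ᶜ f‖ with hN
  have hN0 : 0 ≤ N := norm_nonneg _
  have ha1 : ‖res (a '' P) f‖ ≤ p + ε := (norm_res_image_le a P f).trans (by linarith)
  have hb1 : p - ε ≤ ‖res (b '' P) f‖ := by
    have := le_norm_res_image b P f
    linarith
  have hb2 : p - 2 * ε ≤ ‖res (b '' (b '' P)) f‖ := by
    have := le_norm_res_image b (b '' P) f
    linarith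
  have hup : N ^ 2 ≤ p ^ 2 + ‖res (a '' P) f‖ ^ 2 := by
    rw [hN, hp, norm_res_sq, norm_res_sq, norm_res_sq,
      ← (summable_indicator_nsq P f).tsum_add (summable_indicator_nsq (a '' P) f)]
    apply (summable_indicator_nsq _ f).tsum_le_tsum _
      ((summable_indicator_nsq P f).add (summable_indicator_nsq (a '' P) f))
    intro x
    have hx0 : 0 ≤ ‖f x‖ ^ 2 := by positivity
    by_cases hx : x = x₀
    · rw [Set.indicator_of_notMem (by simpa using hx)]
      exact add_nonneg (Set.indicator_nonneg (fun _ _ => by positivity) x)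
        (Set.indicator_nonneg (fun _ _ => by positivity) x)
    · rw [Set.indicator_of_mem (by simpa using hx)]
      rcases hcov x hx with h | h
      · rw [Set.indicator_of_mem h]
        have := Set.indicator_nonneg (s := a '' P) (f := fun x => ‖f x‖ ^ 2)
          (fun _ _ => by positivity) x
        linarith
      · rw [Set.indicator_of_mem h]
        have := Set.indicator_nonneg (s := P) (f := fun x => ‖f x‖ ^ 2)
          (fun _ _ => by positivity) x
        linarith
  have hlow : p ^ 2 + ‖res (b '' P) f‖ ^ 2 + ‖res (b '' (b '' P)) f‖ ^ 2 ≤ N ^ 2 := by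
    rw [hN, hp, norm_res_sq, norm_res_sq, norm_res_sq, norm_res_sq,
      ← (summable_indicator_nsq P f).tsum_add (summable_indicator_nsq (b '' P) f),
      ← ((summable_indicator_nsq P f).add (summable_indicator_nsq (b '' P) f)).tsum_add
        (summable_indicator_nsq (b '' (b '' P)) f)]
    apply (((summable_indicator_nsq P f).add (summable_indicator_nsq (b '' P) f)).add
        (summable_indicator_nsq (b '' (b '' P)) f)).tsum_le_tsum _ (summable_indicator_nsq _ f)
    intro x
    have hx0 : 0 ≤ ‖f x‖ ^ 2 := by positivity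
    have n1 : x ∈ P → x ∉ b '' P := by
      rintro h1 ⟨y, hy, rfl⟩
      exact hd1 y hy h1
    have n2 : x ∈ P → x ∉ b '' (b '' P) := by
      rintro h1 ⟨_, ⟨y, hy, rfl⟩, rfl⟩
      exact hd2 y hy h1
    have n3 : x ∈ b '' P → x ∉ b '' (b '' P) := by
      rintro ⟨y, hy, rfl⟩ ⟨_, ⟨z, hz, rfl⟩, h⟩
      have := b.injective h
      rw [← this] at hy
      exact hd1 z hz hy
    have n4 : x = x₀ → x ∉ P ∧ x ∉ b '' P ∧ x ∉ b '' (b '' P) := by
      rintro rfl
      refine ⟨h0, ?_, ?_⟩
      · rintro ⟨y, hy, h⟩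
        have : y = x := b.injective (h.trans hb0.symm)
        exact h0 (this ▸ hy)
      · rintro ⟨_, ⟨y, hy, rfl⟩, h⟩
        have h1 : b y = x := b.injective (h.trans hb0.symm)
        have : y = x := b.injective (h1.trans hb0.symm)
        exact h0 (this ▸ hy)
    by_cases hx : x = x₀
    · obtain ⟨m1, m2, m3⟩ := n4 hx
      rw [Set.indicator_of_notMem m1, Set.indicator_of_notMem m2, Set.indicator_of_notMem m3,
        Set.indicator_of_notMem (by simpa using hx)]
      simp
    · rw [Set.indicator_of_mem (s := {x₀}ᶜ) (by simpa using hx)]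
      by_cases m1 : x ∈ P
      · rw [Set.indicator_of_mem m1, Set.indicator_of_notMem (n1 m1),
          Set.indicator_of_notMem (n2 m1)]
        simp
      · rw [Set.indicator_of_notMem m1]
        by_cases m2 : x ∈ b '' P
        · rw [Set.indicator_of_mem m2, Set.indicator_of_notMem (n3 m2)]
          simp
        · rw [Set.indicator_of_notMem m2]
          by_cases m3 : x ∈ b '' (b '' P)
          · rw [Set.indicator_of_mem m3]; simp
          · rw [Set.indicator_of_notMem m3]; simpa using hx0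
  have hp8 : p ≤ 8 * ε := by
    by_contra hcon
    rw [not_le] at hcon
    have h1 : (p - ε) ^ 2 ≤ ‖res (b '' P) f‖ ^ 2 := pow_le_pow_left₀ (by linarith) hb1 2
    have h2 : (p - 2 * ε) ^ 2 ≤ ‖res (b '' (b '' P)) f‖ ^ 2 :=
      pow_le_pow_left₀ (by linarith) hb2 2
    have h3 : ‖res (a '' P) f‖ ^ 2 ≤ (p + ε) ^ 2 := pow_le_pow_left₀ (norm_nonneg _) ha1 2
    nlinarith
  have h3 : ‖res (a '' P) f‖ ^ 2 ≤ (p + ε) ^ 2 := pow_le_pow_left₀ (norm_nonneg _) ha1 2
  apply le_of_sq_le_sq _ (by positivity)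
  nlinarith

end res

/-- the index set -/
abbrev XX : Type := List F2 × F2

/-- base point -/
def x0 : XX := ([], 1)

/-- conjugation -/
def cE (g : F2) : XX ≃ XX where
  toFun x := (x.1.map (fun k => g * k), g * x.2 * g⁻¹)
  invFun x := (x.1.map (fun k => g⁻¹ * k), g⁻¹ * x.2 * g)
  left_inv x := by
    apply Prod.ext
    · simp [Function.comp_def]
    · simp [mul_assoc]
  right_inv x := by
    apply Prod.ext
    · simp [Function.comp_def]
    · simp [mul_assoc]

/-- the paradoxical set -/
def PP : Set XX := {x | (∃ k α, x.1 = k :: α ∧ k ∈ Paradox.W) ∨ (x.1 = [] ∧ x.2 ∈ Paradox.W)}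

theorem mem_PP_cons {k : F2} {α : List F2} {h : F2} : ((k :: α, h) : XX) ∈ PP ↔ k ∈ Paradox.W := by
  constructor
  · rintro (⟨k', α', h1, h2⟩ | ⟨h1, _⟩)
    · simp only [List.cons.injEq] at h1
      rw [h1.1]; exact h2
    · simp at h1
  · intro h1
    exact Or.inl ⟨k, α, rfl, h1⟩

theorem mem_PP_nil {h : F2} : (([], h) : XX) ∈ PP ↔ h ∈ Paradox.W := by
  constructor
  · rintro (⟨k', α', h1, h2⟩ | ⟨_, h2⟩)
    · simp at h1
    · exact h2
  · intro h1
    exact Or.inr ⟨rfl, h1⟩

theorem one_notMem_W : (1 : F2) ∉ Paradox.W := by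
  rintro (h | h)
  · exact FreeGroup.startsWith.ne_one _ h rfl
  · exact FreeGroup.startsWith.ne_one _ h rfl

theorem gap {L : Type*} [NormedAddCommGroup L] [InnerProductSpace ℂ L] (f : L2 XX L) {ε : ℝ}
    (ha : ‖V L (cE Paradox.ga).toEmbedding f - f‖ ≤ ε)
    (hb : ‖V L (cE Paradox.gb).toEmbedding f - f‖ ≤ ε) :
    ‖res {x0}ᶜ f‖ ≤ 13 * ε := by
  apply gap_estimate (cE Paradox.ga) (cE Paradox.gb) PP x0 ?_ ?_ ?_ ?_ ?_ f ha hb
  · rintro ⟨α, h⟩ hx
    have hmem : ((cE Paradox.ga).symm (α, h)) ∈ PP → (α, h) ∈ (cE Paradox.ga) '' PP :=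
      fun h' => ⟨_, h', Equiv.apply_symm_apply _ _⟩
    cases α with
    | nil =>
      have h1 : h ≠ 1 := fun h' => hx (by rw [h']; rfl)
      rcases Paradox.conj_cover h1 with h2 | h2
      · exact Or.inl (mem_PP_nil.2 h2)
      · right
        apply hmem
        exact mem_PP_nil.2 h2
    | cons k α =>
      rcases Paradox.left_cover k with h2 | h2
      · exact Or.inl (mem_PP_cons.2 h2)
      · right
        apply hmem
        exact mem_PP_cons.2 h2
  · intro h
    exact one_notMem_W (mem_PP_nil.1 h)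
  · show (([] : List F2).map _, Paradox.gb * 1 * Paradox.gb⁻¹) = (([], 1) : XX)
    simp
  · rintro ⟨α, h⟩ hx
    cases α with
    | nil =>
      have h1 := mem_PP_nil.1 hx
      intro h2
      exact Paradox.notMem_W_of_startsWith (Paradox.conj_b h1) (mem_PP_nil.1 h2)
    | cons k α =>
      have h1 := mem_PP_cons.1 hx
      intro h2
      exact Paradox.notMem_W_of_startsWith (Paradox.left_b h1) (mem_PP_cons.1 h2)
  · rintro ⟨α, h⟩ hx
    cases α with
    | nil =>
      have h1 := mem_PP_nil.1 hx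
      intro h2
      exact Paradox.notMem_W_of_startsWith (Paradox.conj_bb (Paradox.conj_b h1)) (mem_PP_nil.1 h2)
    | cons k α =>
      have h1 := mem_PP_cons.1 hx
      intro h2
      exact Paradox.notMem_W_of_startsWith (Paradox.left_bb (Paradox.left_b h1))
        (mem_PP_cons.1 h2)

end Pool.Agent.helper29
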