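import Pool.Agent.helper29.InfTensor
import Pool.Agent.helper29.Shift
import Pool.Agent.helper29.Spectral

/-!
# The algebra `B`

`B` is the C*-algebra generated on `ℓ²(List F₂ × F₂) ⊗ L` by creation operators, the translations
by `F₂`, and the infinite tensor power of a C*-algebra `Z` acting on `L = K^{⊗ℕ}`.
-/

open scoped InnerProductSpace ENNReal

noncomputable section

namespace Pool.Agent.helper29

section maps

/-- creation -/
def sM (k : F2) : XX ↪ XX where
  toFun x := (k :: x.1, x.2)
  inj' := by
    rintro ⟨α, h⟩ ⟨β, h'⟩ hx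
    simp only [Prod.mk.injEq, List.cons.injEq, true_and] at hx
    exact Prod.ext hx.1 hx.2

/-- translation -/
def uE (g : F2) : XX ≃ XX where
  toFun x := (x.1.map (fun k => g * k), g * x.2)
  invFun x := (x.1.map (fun k => g⁻¹ * k), g⁻¹ * x.2)
  left_inv x := by
    apply Prod.ext
    · simp [Function.comp_def]
    · simp
  right_inv x := by
    apply Prod.ext
    · simp [Function.comp_def]
    · simp

/-- right translation -/
def rE (g : F2) : XX ≃ XX where
  toFun x := (x.1, x.2 * g⁻¹)
  invFun x := (x.1, x.2 * g)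
  left_inv x := by simp
  right_inv x := by simp

/-- word creation -/
def appM (α : List F2) : XX ↪ XX where
  toFun x := (α ++ x.1, x.2)
  inj' := by
    rintro ⟨β, h⟩ ⟨γ, h'⟩ hx
    simp only [Prod.mk.injEq, List.append_cancel_left_eq] at hx
    exact Prod.ext hx.1 hx.2

theorem appM_nil : appM [] = Function.Embedding.refl XX := by
  ext x <;> rfl

theorem appM_cons (k : F2) (α : List F2) : appM (k :: α) = (appM α).trans (sM k) := by
  ext x <;> rfl

theorem uE_sM (g k : F2) : (sM k).trans (uE g).toEmbedding = (uE g).toEmbedding.trans (sM (g * k)) := by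
  ext x <;> rfl

theorem uE_appM (g : F2) (α : List F2) :
    (appM α).trans (uE g).toEmbedding =
      (uE g).toEmbedding.trans (appM (α.map (fun k => g * k))) := by
  apply Function.Embedding.ext
  intro x
  apply Prod.ext
  · show (α ++ x.1).map _ = α.map _ ++ x.1.map _
    rw [List.map_append]
  · rfl

theorem uE_mul (g h : F2) : (uE h).toEmbedding.trans (uE g).toEmbedding = (uE (g * h)).toEmbedding := by
  apply Function.Embedding.ext
  intro x
  apply Prod.ext
  · show (x.1.map (fun k => h * k)).map (fun k => g * k) = x.1.map (fun k => g * h * k)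
    rw [List.map_map]
    congr 1
    funext k
    simp [mul_assoc]
  · show g * (h * x.2) = g * h * x.2
    rw [mul_assoc]

theorem uE_symm (g : F2) : (uE g).symm = uE g⁻¹ := by
  apply Equiv.ext
  intro x
  rfl

theorem uE_one : (uE 1).toEmbedding = Function.Embedding.refl XX := by
  apply Function.Embedding.ext
  intro x
  apply Prod.ext
  · show x.1.map (fun k => 1 * k) = x.1
    simp
  · show 1 * x.2 = x.2
    simp

theorem rE_sM (g k : F2) : (sM k).trans (rE g).toEmbedding = (rE g).toEmbedding.trans (sM k) := by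
  ext x <;> rfl

theorem rE_uE (g h : F2) :
    (uE h).toEmbedding.trans (rE g).toEmbedding = (rE g).toEmbedding.trans (uE h).toEmbedding := by
  apply Function.Embedding.ext
  intro x
  apply Prod.ext
  · rfl
  · show h * x.2 * g⁻¹ = h * (x.2 * g⁻¹)
    rw [mul_assoc]

theorem cE_eq (g : F2) : (cE g).toEmbedding = (uE g).toEmbedding.trans (rE g).toEmbedding := by
  ext x <;> rfl

end maps

section ops

variable {L : Type*} [NormedAddCommGroup L] [InnerProductSpace ℂ L] [CompleteSpace L]

instance : DecidableEq XX := Classical.decEq _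

/-- creation operators -/
abbrev Sop (L : Type*) [NormedAddCommGroup L] [InnerProductSpace ℂ L] (k : F2) :
    L2 XX L →L[ℂ] L2 XX L := V L (sM k)

/-- translation operators -/
abbrev Uop (L : Type*) [NormedAddCommGroup L] [InnerProductSpace ℂ L] (g : F2) :
    L2 XX L →L[ℂ] L2 XX L := V L (uE g).toEmbedding

/-- word operators -/
abbrev Wop (L : Type*) [NormedAddCommGroup L] [InnerProductSpace ℂ L] (α : List F2) :
    L2 XX L →L[ℂ] L2 XX L := V L (appM α)

omit [CompleteSpace L] in
theorem Wop_nil : Wop L [] = 1 := by rw [Wop, appM_nil, V_one]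

omit [CompleteSpace L] in
theorem Wop_cons (k : F2) (α : List F2) : Wop L (k :: α) = Sop L k * Wop L α := by
  rw [Wop, appM_cons, ← V_mul]

omit [CompleteSpace L] in
theorem Uop_mul_Sop (g k : F2) : Uop L g * Sop L k = Sop L (g * k) * Uop L g := by
  rw [V_mul, V_mul, uE_sM]

omit [CompleteSpace L] in
theorem Uop_mul_Wop (g : F2) (α : List F2) :
    Uop L g * Wop L α = Wop L (α.map (fun k => g * k)) * Uop L g := by
  rw [V_mul, V_mul, uE_appM]

omit [CompleteSpace L] in
theorem Uop_mul (g h : F2) : Uop L g * Uop L h = Uop L (g * h) := by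
  rw [V_mul, uE_mul]

omit [CompleteSpace L] in
theorem Uop_one : Uop L 1 = 1 := by
  rw [Uop, uE_one, V_one]

theorem star_Uop (g : F2) : star (Uop L g) = Uop L g⁻¹ := by
  rw [star_V_equiv, uE_symm]

theorem Uop_mul_star_Wop (g : F2) (α : List F2) :
    Uop L g * star (Wop L α) = star (Wop L (α.map (fun k => g * k))) * Uop L g := by
  have h := congrArg star (Uop_mul_Wop (L := L) g⁻¹ (α.map (fun k => g * k)))
  rw [star_mul, star_mul, star_Uop, inv_inv, List.map_map] at h
  have h2 : ((fun k => g⁻¹ * k) ∘ fun k => g * k) = (id : F2 → F2) := by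
    funext k; simp
  rw [h2, List.map_id] at h
  exact h.symm

theorem star_Sop_mul_Sop (k : F2) : star (Sop L k) * Sop L k = 1 := star_V_mul_V _

theorem star_Sop_mul_Sop_ne {k k' : F2} (h : k ≠ k') : star (Sop L k) * Sop L k' = 0 := by
  apply star_V_mul_V_zero
  rintro ⟨α, a⟩ ⟨β, b⟩ hx
  apply h
  have := congrArg Prod.fst hx
  simpa using (List.cons.inj this).1

end ops

end Pool.Agent.helper29
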