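import Pool.Agent.helper29.Excision

/-!
# Excision, complex form
-/

open ComplexStarModule

noncomputable section

namespace Pool.Agent.helper29

variable {A : Type*} [CStarAlgebra A]

/-- the completely positive map attached to a tuple -/
def conjSum {M : ℕ} (a : Fin M → A) (z : A) : A := ∑ i, star (a i) * z * a i

theorem conjSum_add {M : ℕ} (a : Fin M → A) (y z : A) :
    conjSum a (y + z) = conjSum a y + conjSum a z := by
  simp only [conjSum, mul_add, add_mul, Finset.sum_add_distrib]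

theorem conjSum_sub {M : ℕ} (a : Fin M → A) (y z : A) :
    conjSum a (y - z) = conjSum a y - conjSum a z := by
  simp only [conjSum, mul_sub, sub_mul, Finset.sum_sub_distrib]

theorem conjSum_smul {M : ℕ} (a : Fin M → A) (c : ℂ) (z : A) :
    conjSum a (c • z) = c • conjSum a z := by
  simp only [conjSum, mul_smul_comm, smul_mul_assoc, Finset.smul_sum]

theorem conjSum_star {M : ℕ} (a : Fin M → A) (z : A) :
    conjSum a (star z) = star (conjSum a z) := by
  simp only [conjSum, star_sum, star_mul, star_star, mul_assoc]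

theorem conjSum_sum {M : ℕ} (a : Fin M → A) {J : Type*} (t : Finset J) (z : J → A) :
    conjSum a (∑ j ∈ t, z j) = ∑ j ∈ t, conjSum a (z j) := by
  simp only [conjSum, Finset.mul_sum, Finset.sum_mul]
  rw [Finset.sum_comm]

theorem norm_star_add_le (y : A) : ‖(2⁻¹ : ℂ) • (y + star y)‖ ≤ ‖y‖ := by
  rw [norm_smul]
  have h1 : ‖y + star y‖ ≤ ‖y‖ + ‖y‖ := by
    have := norm_add_le y (star y)
    rwa [norm_star] at this
  have h2 : ‖(2⁻¹ : ℂ)‖ = 2⁻¹ := by simp
  rw [h2]
  linarith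

theorem excision_complex (hA : IsSimpleCStar A) {N : ℕ} (z : Fin N → A) (φ : Fin N → ℂ)
    {ε : ℝ} (hε : 0 < ε) :
    ∃ (M : ℕ) (a : Fin M → A) (s : Fin N → ℂ), ∑ i, star (a i) * a i = 1 ∧
      (∀ j, ‖conjSum a (z j) - algebraMap ℂ A (s j)‖ ≤ ε) ∧
      ∀ ψ : A →ₗ[ℂ] ℂ, (∀ c, 0 ≤ (ψ (star c * c)).re) → ψ 1 = 1 →
        (∀ c, ψ (star c) = starRingEnd ℂ (ψ c)) →
        (∑ j, φ j * ψ (z j)).re ≤ (∑ j, φ j * s j).re + ε := by
  have := hA.1
  let _ : PartialOrder A := CStarAlgebra.spectralOrder A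
  have _ : StarOrderedRing A := CStarAlgebra.spectralOrderedRing A
  -- the sum of the coefficients
  obtain ⟨S, hS⟩ : ∃ S : ℝ, S = ∑ j, ‖φ j‖ := ⟨_, rfl⟩
  have hS0 : 0 ≤ S := by rw [hS]; positivity
  obtain ⟨δ, hδ0, hδ1, hδ2⟩ : ∃ δ : ℝ, 0 < δ ∧ 2 * δ ≤ ε ∧ δ + 2 * δ * S ≤ ε := by
    refine ⟨ε / (2 + 2 * S), by positivity, ?_, ?_⟩
    · rw [← mul_div_assoc, div_le_iff₀ (by positivity)]
      nlinarith
    · have : ε / (2 + 2 * S) * (2 + 2 * S) = ε := div_mul_cancel₀ _ (by positivity)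
      have h0 : 0 < ε / (2 + 2 * S) := by positivity
      nlinarith
  obtain ⟨y, hy⟩ : ∃ y : A, y = ∑ j, φ j • z j := ⟨_, rfl⟩
  obtain ⟨z₀, hz₀⟩ : ∃ z₀ : A, z₀ = (2⁻¹ : ℂ) • (y + star y) := ⟨_, rfl⟩
  have hz₀sa : IsSelfAdjoint z₀ := by
    rw [isSelfAdjoint_iff, hz₀, star_smul, star_add, star_star, add_comm]
    congr 1
    simp
  obtain ⟨cs, hcs1, hcs2, hcs3⟩ := excision hA
    (List.ofFn (fun j => (ℜ (z j) : A)) ++ List.ofFn (fun j => (ℑ (z j) : A))) (by
      intro x hx
      rw [List.mem_append, List.mem_ofFn, List.mem_ofFn] at hx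
      rcases hx with ⟨j, rfl⟩ | ⟨j, rfl⟩
      · exact (ℜ (z j)).2
      · exact (ℑ (z j)).2) z₀ hz₀sa hδ0
  obtain ⟨a, ha⟩ : ∃ a : Fin cs.length → A, a = fun i => cs[i.1] := ⟨_, rfl⟩
  have hsum : ∀ f : A → A, (cs.map f).sum = ∑ i, f (a i) := by
    intro f
    rw [ha, ← Fin.sum_univ_fun_getElem]
  have h1 : ∀ j, ∃ s : ℂ, ‖conjSum a (z j) - algebraMap ℂ A s‖ ≤ 2 * δ := by
    intro j
    obtain ⟨s, hs⟩ := hcs3 (ℜ (z j) : A) (by
      rw [List.mem_append, List.mem_ofFn]; exact Or.inl ⟨j, rfl⟩)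
    obtain ⟨t, ht⟩ := hcs3 (ℑ (z j) : A) (by
      rw [List.mem_append, List.mem_ofFn, List.mem_ofFn]; exact Or.inr ⟨j, rfl⟩)
    rw [hsum] at hs ht
    refine ⟨s + Complex.I * t, ?_⟩
    have e1 : conjSum a (z j) = conjSum a (ℜ (z j) : A) + Complex.I • conjSum a (ℑ (z j) : A) := by
      rw [← conjSum_smul, ← conjSum_add, realPart_add_I_smul_imaginaryPart]
    have e2 : algebraMap ℂ A (s + Complex.I * t) =
        algebraMap ℝ A s + Complex.I • algebraMap ℝ A t := by
      rw [map_add, map_mul, Algebra.algebraMap_eq_smul_one, Algebra.algebraMap_eq_smul_one (Complex.I),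
        Algebra.algebraMap_eq_smul_one (t : ℂ), Algebra.algebraMap_eq_smul_one s,
        Algebra.algebraMap_eq_smul_one t, Complex.coe_smul, Complex.coe_smul, smul_mul_assoc, one_mul]
    rw [e1, e2]
    calc ‖conjSum a (ℜ (z j) : A) + Complex.I • conjSum a (ℑ (z j) : A) -
          (algebraMap ℝ A s + Complex.I • algebraMap ℝ A t)‖
        = ‖(conjSum a (ℜ (z j) : A) - algebraMap ℝ A s) +
            Complex.I • (conjSum a (ℑ (z j) : A) - algebraMap ℝ A t)‖ := by
          congr 1; rw [smul_sub]; abel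
      _ ≤ ‖conjSum a (ℜ (z j) : A) - algebraMap ℝ A s‖ +
            ‖Complex.I • (conjSum a (ℑ (z j) : A) - algebraMap ℝ A t)‖ := norm_add_le _ _
      _ ≤ δ + δ := by
          rw [norm_smul, Complex.norm_I, one_mul]
          exact add_le_add hs ht
      _ = 2 * δ := by ring
  choose s hs using h1
  refine ⟨cs.length, a, s, ?_, fun j => (hs j).trans hδ1, ?_⟩
  · rw [← hcs1, hsum]
  · intro ψ hψ0 hψ1 hψs
    -- first bound: the functional is at most the top
    have hb1 : (∑ j, φ j * ψ (z j)).re ≤ top z₀ := by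
      have e1 : ∑ j, φ j * ψ (z j) = ψ y := by
        rw [hy, map_sum]
        simp only [map_smul, smul_eq_mul]
      have e2 : (ψ y).re = (ψ z₀).re := by
        rw [hz₀, map_smul, map_add, hψs]
        simp
        ring
      rw [e1, e2]
      have h2 := le_top hz₀sa
      rw [← sub_nonneg, CStarAlgebra.nonneg_iff_eq_star_mul_self] at h2
      obtain ⟨c, hc⟩ := h2
      have h3 := hψ0 c
      rw [← hc, map_sub, Algebra.algebraMap_eq_smul_one] at h3
      have e3 : ψ (top z₀ • (1 : A)) = (top z₀ : ℂ) := by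
        rw [← Complex.coe_smul, map_smul, hψ1, smul_eq_mul, mul_one]
      rw [e3, Complex.sub_re, Complex.ofReal_re] at h3
      linarith
    -- second bound
    obtain ⟨w, hw⟩ : ∃ w : ℂ, w = ∑ j, φ j * s j := ⟨_, rfl⟩
    have hb2 : ‖conjSum a y - algebraMap ℂ A w‖ ≤ 2 * δ * S := by
      have e1 : conjSum a y - algebraMap ℂ A w =
          ∑ j, φ j • (conjSum a (z j) - algebraMap ℂ A (s j)) := by
        rw [hy, hw, conjSum_sum, map_sum, ← Finset.sum_sub_distrib]
        apply Finset.sum_congr rfl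
        intro j _
        rw [conjSum_smul, smul_sub, map_mul, ← Algebra.smul_def]
      rw [e1]
      calc ‖∑ j, φ j • (conjSum a (z j) - algebraMap ℂ A (s j))‖
          ≤ ∑ j, ‖φ j • (conjSum a (z j) - algebraMap ℂ A (s j))‖ := norm_sum_le _ _
        _ ≤ ∑ j, ‖φ j‖ * (2 * δ) := by
            apply Finset.sum_le_sum
            intro j _
            rw [norm_smul]
            exact mul_le_mul_of_nonneg_left (hs j) (norm_nonneg _)
        _ = 2 * δ * S := by rw [← Finset.sum_mul, ← hS]; ring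
    have hb3 : ‖conjSum a z₀ - algebraMap ℂ A (w.re : ℂ)‖ ≤ 2 * δ * S := by
      have e1 : conjSum a z₀ - algebraMap ℂ A (w.re : ℂ) =
          (2⁻¹ : ℂ) • ((conjSum a y - algebraMap ℂ A w) + star (conjSum a y - algebraMap ℂ A w)) := by
        have e2 : ((w.re : ℝ) : ℂ) = (2⁻¹ : ℂ) * (w + starRingEnd ℂ w) := by
          rw [Complex.add_conj]; push_cast; ring
        rw [hz₀, conjSum_smul, conjSum_add, conjSum_star, e2, map_mul, map_add, star_sub,
          ← Algebra.smul_def]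
        have e3 : star (algebraMap ℂ A w) = algebraMap ℂ A (starRingEnd ℂ w) := by
          rw [← algebraMap_star_comm]; rfl
        rw [e3, ← smul_sub]
        congr 1
        abel
      rw [e1]
      exact (norm_star_add_le _).trans hb2
    rw [hsum] at hcs2
    have hb4 : ‖algebraMap ℂ A (((top z₀ - w.re : ℝ)) : ℂ)‖ ≤ δ + 2 * δ * S := by
      have e1 : algebraMap ℂ A (((top z₀ - w.re : ℝ)) : ℂ) =
          (conjSum a z₀ - algebraMap ℂ A (w.re : ℂ)) - (conjSum a z₀ - algebraMap ℝ A (top z₀)) := by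
        rw [Complex.ofReal_sub, map_sub]
        have : algebraMap ℂ A ((top z₀ : ℝ) : ℂ) = algebraMap ℝ A (top z₀) := by
          rw [Algebra.algebraMap_eq_smul_one, Algebra.algebraMap_eq_smul_one, Complex.coe_smul]
        rw [this]
        abel
      rw [e1]
      refine (norm_sub_le _ _).trans ?_
      have : ‖conjSum a z₀ - algebraMap ℝ A (top z₀)‖ ≤ δ := hcs2
      linarith
    rw [norm_algebraMap', Complex.norm_real, Real.norm_eq_abs] at hb4
    have hb5 := (abs_le.1 hb4).2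
    rw [← hw]
    linarith

end Pool.Agent.helper29
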