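import Pool.Agent.helper29.BExp
import Pool.Agent.helper29.ExcisionC

/-!
# Eliminating the tensor factors one after the other
-/

open scoped InnerProductSpace ENNReal
open Filter

noncomputable section

namespace Pool.Agent.helper29

variable {Z : Type*} [CStarAlgebra Z]
variable {K : Type*} [NormedAddCommGroup K] [InnerProductSpace ℂ K] [CompleteSpace K]
variable (ρ : Z →⋆ₐ[ℂ] (K →L[ℂ] K)) (Ω : K) (hΩ : ‖Ω‖ = 1)

/-- distinct group elements -/
def kE : ℕ ↪ F2 := Infinite.natEmbedding F2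

/-- `Σ S_{k_i} diag(T_i)` -/
def fanW {M : ℕ} (T : Fin M → OpL Ω hΩ) : OpH Ω hΩ :=
  ∑ i, Sop (LInf Ω hΩ) (kE i.1) * dg Ω hΩ (T i)

theorem fanW_conj {M : ℕ} (T : Fin M → OpL Ω hΩ) (y : OpL Ω hΩ) :
    star (fanW Ω hΩ T) * dg Ω hΩ y * fanW Ω hΩ T = dg Ω hΩ (∑ i, star (T i) * y * T i) := by
  have h1 : star (fanW Ω hΩ T) * dg Ω hΩ y =
      ∑ i, dg Ω hΩ (star (T i) * y) * star (Sop (LInf Ω hΩ) (kE i.1)) := by
    rw [fanW, star_sum, Finset.sum_mul]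
    apply Finset.sum_congr rfl
    intro i _
    rw [star_mul, mul_assoc, star_V_mul_diag, ← mul_assoc, map_mul, map_star]
  rw [h1, fanW, Finset.sum_mul, map_sum]
  apply Finset.sum_congr rfl
  intro i _
  rw [Finset.mul_sum, Finset.sum_eq_single i]
  · rw [mul_assoc, ← mul_assoc (star (Sop (LInf Ω hΩ) (kE i.1))), star_Sop_mul_Sop, one_mul,
      ← map_mul]
  · intro j _ hji
    rw [mul_assoc, ← mul_assoc (star (Sop (LInf Ω hΩ) (kE i.1))), star_Sop_mul_Sop_ne,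
      zero_mul, mul_zero]
    intro h
    apply hji
    exact (Fin.ext (kE.injective h)).symm
  · intro h; exact absurd (Finset.mem_univ _) h

theorem fanW_isometry {M : ℕ} (T : Fin M → OpL Ω hΩ) (h : ∑ i, star (T i) * T i = 1) :
    star (fanW Ω hΩ T) * fanW Ω hΩ T = 1 := by
  have h1 := fanW_conj Ω hΩ T 1
  rw [map_one, mul_one] at h1
  rw [h1]
  simp only [mul_one]
  rw [h, map_one]

/-- finite sums representing elements of `DD (n+1)` -/
theorem DD_succ_rep {n : ℕ} {x : OpL Ω hΩ} (hx : x ∈ DD ρ Ω hΩ (n + 1)) :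
    ∃ (N : ℕ) (z : Fin N → Z) (d : Fin N → OpL Ω hΩ), (∀ j, d j ∈ DD ρ Ω hΩ n) ∧
      x = ∑ j, pi0 ρ Ω hΩ (z j) * sig Ω hΩ (d j) := by
  have hx' : x ∈ Submodule.span ℂ {x | ∃ z, ∃ d ∈ DD ρ Ω hΩ n, x = pi0 ρ Ω hΩ z * sig Ω hΩ d} := hx
  rw [Submodule.mem_span_set'] at hx'
  obtain ⟨N, f, g, hfg⟩ := hx'
  have h1 : ∀ j, ∃ z, ∃ d ∈ DD ρ Ω hΩ n, (g j : OpL Ω hΩ) = pi0 ρ Ω hΩ z * sig Ω hΩ d :=
    fun j => (g j).2
  choose z d hd hzd using h1
  refine ⟨N, z, fun j => f j • d j, fun j => Submodule.smul_mem _ _ (hd j), ?_⟩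
  rw [← hfg]
  apply Finset.sum_congr rfl
  intro j _
  rw [hzd j, map_smul, mul_smul_comm]

theorem norm_starAlgHom_le {A B : Type*} [CStarAlgebra A] [CStarAlgebra B] (f : A →⋆ₐ[ℂ] B) (a : A) :
    ‖f a‖ ≤ ‖a‖ := NonUnitalStarAlgHom.norm_apply_le f a

/-- the vector functional -/
def vecFun (k : K) : Z →ₗ[ℂ] ℂ where
  toFun z := ⟪k, ρ z k⟫_ℂ
  map_add' y z := by rw [map_add, add_apply, inner_add_right]
  map_smul' c z := by rw [map_smul, smul_apply, inner_smul_right]; rfl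

theorem vecFun_apply (k : K) (z : Z) : vecFun ρ k z = ⟪k, ρ z k⟫_ℂ := rfl

theorem vecFun_star (k : K) (z : Z) : vecFun ρ k (star z) = starRingEnd ℂ (vecFun ρ k z) := by
  rw [vecFun_apply, vecFun_apply, map_star, ContinuousLinearMap.star_eq_adjoint,
    ContinuousLinearMap.adjoint_inner_right, inner_conj_symm]

theorem vecFun_nonneg (k : K) (z : Z) : 0 ≤ (vecFun ρ k (star z * z)).re := by
  have : vecFun ρ k (star z * z) = ⟪ρ z k, ρ z k⟫_ℂ := by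
    rw [vecFun_apply, map_mul, map_star, ContinuousLinearMap.star_eq_adjoint]
    show ⟪k, ContinuousLinearMap.adjoint (ρ z) (ρ z k)⟫_ℂ = _
    rw [ContinuousLinearMap.adjoint_inner_right]
  rw [this]
  exact inner_self_nonneg (𝕜 := ℂ) (x := ρ z k)

theorem vecFun_one (k : K) (hk : ‖k‖ = 1) : vecFun ρ k 1 = 1 := by
  rw [vecFun_apply, map_one]
  show ⟪k, k⟫_ℂ = 1
  rw [inner_self_eq_norm_sq_to_K, hk]
  simp

/-- elimination of all tensor factors -/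
theorem elim_aux (hZ : IsSimpleCStar Z) (n : ℕ) : ∀ (m : ℕ) (x : OpL Ω hΩ), x ∈ DD ρ Ω hΩ n →
    ∀ ξ : LInf Ω hΩ, ProdVec Ω hΩ n ξ → ∀ ε : ℝ, 0 < ε →
    ∃ w ∈ BB ρ Ω hΩ, star w * w = 1 ∧ ∃ s : ℂ,
      ‖star w * dg Ω hΩ (sigN Ω hΩ m x) * w - algebraMap ℂ _ s‖ ≤ ε ∧
      (⟪ξ, x ξ⟫_ℂ).re - ε ≤ s.re := by
  induction n with
  | zero =>
    intro m x hx ξ hξ ε hε
    obtain ⟨c, rfl⟩ := DD_zero_mem ρ Ω hΩ hx
    refine ⟨1, one_mem _, by simp, c, ?_, ?_⟩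
    · rw [map_smul, map_one, map_smul, map_one, star_one, one_mul, mul_one,
        Algebra.algebraMap_eq_smul_one, sub_self, norm_zero]
      exact hε.le
    · have h1 : ⟪ξ, (c • (1 : OpL Ω hΩ)) ξ⟫_ℂ = c := by
        rw [smul_apply]
        show ⟪ξ, c • ξ⟫_ℂ = c
        rw [inner_smul_right, inner_self_eq_norm_sq_to_K, hξ.norm]
        simp
      rw [h1]
      linarith
  | succ n ih =>
    intro m x hx ξ hξ ε hε
    obtain ⟨N, z, d, hd, hxs⟩ := DD_succ_rep ρ Ω hΩ hx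
    obtain ⟨k, hk, ξ', hξ', hξe⟩ : ∃ k : K, ‖k‖ = 1 ∧ ∃ ξ', ProdVec Ω hΩ n ξ' ∧
        ξ = (infTensor Ω hΩ).t k ξ' := by
      cases hξ with
      | succ n k hk ξ' h => exact ⟨k, hk, ξ', h, rfl⟩
    obtain ⟨S, hS⟩ : ∃ S : ℝ, S = ∑ j, ‖d j‖ := ⟨_, rfl⟩
    have hS0 : 0 ≤ S := by rw [hS]; positivity
    obtain ⟨δ, hδ0, hδ1, hδ2⟩ : ∃ δ : ℝ, 0 < δ ∧ δ ≤ ε / 2 ∧ δ * S ≤ ε / 2 := by
      refine ⟨ε / (2 * (1 + S)), by positivity, ?_, ?_⟩
      · rw [div_le_div_iff₀ (by positivity) (by positivity)]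
        nlinarith
      · rw [div_mul_eq_mul_div, div_le_div_iff₀ (by positivity) (by positivity)]
        nlinarith
    obtain ⟨M, a, s, ha1, ha2, ha3⟩ := excision_complex hZ z (fun j => ⟪ξ', d j ξ'⟫_ℂ) hδ0
    -- the new element
    obtain ⟨x', hx'⟩ : ∃ x' : OpL Ω hΩ, x' = ∑ j, s j • d j := ⟨_, rfl⟩
    have hx'mem : x' ∈ DD ρ Ω hΩ n := by
      rw [hx']
      exact Submodule.sum_mem _ (fun j _ => Submodule.smul_mem _ _ (hd j))
    obtain ⟨w₂, hw₂, hw₂i, s', hs'1, hs'2⟩ := ih (m + 1) x' hx'mem ξ' hξ' (ε / 2) (by positivity)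
    obtain ⟨T, hT⟩ : ∃ T : Fin M → OpL Ω hΩ, T = fun i => sigN Ω hΩ m (pi0 ρ Ω hΩ (a i)) := ⟨_, rfl⟩
    obtain ⟨w₁, hw₁⟩ : ∃ w₁ : OpH Ω hΩ, w₁ = fanW Ω hΩ T := ⟨_, rfl⟩
    have hw₁mem : w₁ ∈ BB ρ Ω hΩ := by
      rw [hw₁, fanW]
      apply sum_mem
      intro i _
      apply mul_mem (Sop_mem ρ Ω hΩ _)
      rw [hT]
      exact dg_sigN_mem ρ Ω hΩ m (a i)
    have hw₁i : star w₁ * w₁ = 1 := by
      rw [hw₁]
      apply fanW_isometry
      rw [hT]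
      simp only [← map_star, ← map_mul, ← map_sum]
      rw [ha1, map_one, map_one]
    have hconj : star w₁ * dg Ω hΩ (sigN Ω hΩ m x) * w₁ =
        dg Ω hΩ (sigN Ω hΩ m (∑ j, pi0 ρ Ω hΩ (conjSum a (z j)) * sig Ω hΩ (d j))) := by
      rw [hw₁, fanW_conj, hT]
      congr 1
      have e1 : ∀ i, star (sigN Ω hΩ m (pi0 ρ Ω hΩ (a i))) * sigN Ω hΩ m x *
          sigN Ω hΩ m (pi0 ρ Ω hΩ (a i)) =
          sigN Ω hΩ m (∑ j, pi0 ρ Ω hΩ (star (a i) * z j * a i) * sig Ω hΩ (d j)) := by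
        intro i
        rw [← map_star, ← map_mul, ← map_mul]
        congr 1
        rw [hxs, Finset.mul_sum, Finset.sum_mul]
        apply Finset.sum_congr rfl
        intro j _
        rw [map_mul, map_mul, map_star, mul_assoc, mul_assoc, ← pi0_comm]
        simp only [mul_assoc]
      simp only [e1]
      rw [← map_sum, Finset.sum_comm]
      congr 1
      apply Finset.sum_congr rfl
      intro j _
      rw [← Finset.sum_mul, ← map_sum]
      rfl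
    have hdiff : ‖star w₁ * dg Ω hΩ (sigN Ω hΩ m x) * w₁ - dg Ω hΩ (sigN Ω hΩ (m + 1) x')‖ ≤
        δ * S := by
      rw [hconj, sigN_succ', ← map_sub, ← map_sub]
      refine (norm_starAlgHom_le _ _).trans ((norm_starAlgHom_le _ _).trans ?_)
      have e1 : ∑ j, pi0 ρ Ω hΩ (conjSum a (z j)) * sig Ω hΩ (d j) - sig Ω hΩ x' =
          ∑ j, pi0 ρ Ω hΩ (conjSum a (z j) - algebraMap ℂ Z (s j)) * sig Ω hΩ (d j) := by
        rw [hx', map_sum, ← Finset.sum_sub_distrib]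
        apply Finset.sum_congr rfl
        intro j _
        rw [map_sub, sub_mul, map_smul, AlgHomClass.commutes, Algebra.algebraMap_eq_smul_one,
          smul_mul_assoc, one_mul]
      rw [e1]
      calc ‖∑ j, pi0 ρ Ω hΩ (conjSum a (z j) - algebraMap ℂ Z (s j)) * sig Ω hΩ (d j)‖
          ≤ ∑ j, ‖pi0 ρ Ω hΩ (conjSum a (z j) - algebraMap ℂ Z (s j)) * sig Ω hΩ (d j)‖ :=
            norm_sum_le _ _
        _ ≤ ∑ j, δ * ‖d j‖ := by
            apply Finset.sum_le_sum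
            intro j _
            refine (norm_mul_le _ _).trans ?_
            exact mul_le_mul ((norm_starAlgHom_le _ _).trans (ha2 j)) (norm_starAlgHom_le _ _)
              (norm_nonneg _) hδ0.le
        _ = δ * S := by rw [hS, Finset.mul_sum]
    refine ⟨w₁ * w₂, mul_mem hw₁mem hw₂, ?_, s', ?_, ?_⟩
    · rw [star_mul, mul_assoc, ← mul_assoc (star w₁), hw₁i, one_mul, hw₂i]
    · have e1 : star (w₁ * w₂) * dg Ω hΩ (sigN Ω hΩ m x) * (w₁ * w₂) - algebraMap ℂ _ s' =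
          star w₂ * (star w₁ * dg Ω hΩ (sigN Ω hΩ m x) * w₁ - dg Ω hΩ (sigN Ω hΩ (m + 1) x')) * w₂ +
            (star w₂ * dg Ω hΩ (sigN Ω hΩ (m + 1) x') * w₂ - algebraMap ℂ _ s') := by
        rw [star_mul, mul_sub, sub_mul]
        simp only [mul_assoc]
        abel
      rw [e1]
      have hn2 : ‖w₂‖ ≤ 1 := by
        have h := CStarRing.norm_star_mul_self (x := w₂)
        rw [hw₂i] at h
        have h1 : ‖(1 : OpH Ω hΩ)‖ ≤ 1 := ContinuousLinearMap.norm_id_le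
        nlinarith [norm_nonneg w₂]
      have hn2' : ‖star w₂‖ ≤ 1 := by
        rw [ContinuousLinearMap.star_eq_adjoint, LinearIsometryEquiv.norm_map]
        exact hn2
      refine (norm_add_le _ _).trans ?_
      have h3 : ‖star w₂ * (star w₁ * dg Ω hΩ (sigN Ω hΩ m x) * w₁ -
          dg Ω hΩ (sigN Ω hΩ (m + 1) x')) * w₂‖ ≤ 1 * (δ * S) * 1 := by
        refine (norm_mul_le _ _).trans ?_
        refine mul_le_mul ((norm_mul_le _ _).trans ?_) hn2 (norm_nonneg _) (by positivity)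
        exact mul_le_mul hn2' hdiff (norm_nonneg _) zero_le_one
      linarith
    · -- lower bound
      have h1 := ha3 (vecFun ρ k) (vecFun_nonneg ρ k) (vecFun_one ρ k hk) (vecFun_star ρ k)
      have e1 : ⟪ξ, x ξ⟫_ℂ = ∑ j, ⟪ξ', d j ξ'⟫_ℂ * vecFun ρ k (z j) := by
        rw [hxs, hξe, sum_apply, inner_sum]
        apply Finset.sum_congr rfl
        intro j _
        show ⟪(infTensor Ω hΩ).t k ξ', (infTensor Ω hΩ).ampL (ρ (z j))
          ((infTensor Ω hΩ).ampR (d j) ((infTensor Ω hΩ).t k ξ'))⟫_ℂ = _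
        rw [HTensor.ampR_t, HTensor.ampL_t, HTensor.inner_t, mul_comm]
        rfl
      have e2 : ⟪ξ', x' ξ'⟫_ℂ = ∑ j, ⟪ξ', d j ξ'⟫_ℂ * s j := by
        rw [hx', sum_apply, inner_sum]
        apply Finset.sum_congr rfl
        intro j _
        rw [smul_apply, inner_smul_right, mul_comm]
      rw [e1]
      rw [e2] at hs'2
      linarith

end Pool.Agent.helper29
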