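import Pool.Agent.helper29.BSpan

/-!
# The slice map `E₀` and its properties
-/

open scoped InnerProductSpace ENNReal
open Filter

noncomputable section

namespace Pool.Agent.helper29

variable {Z : Type*} [CStarAlgebra Z]
variable {K : Type*} [NormedAddCommGroup K] [InnerProductSpace ℂ K] [CompleteSpace K]
variable (ρ : Z →⋆ₐ[ℂ] (K →L[ℂ] K)) (Ω : K) (hΩ : ‖Ω‖ = 1)

/-- the embedding `l ↦ δ_{x₀} ⊗ l` -/
def iotaL : LInf Ω hΩ →L[ℂ] HH Ω hΩ :=
  lp.singleContinuousLinearMap ℂ (fun _ : XX => LInf Ω hΩ) 2 x0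

theorem iotaL_apply (l : LInf Ω hΩ) : iotaL Ω hΩ l = lp.single 2 x0 l := rfl

theorem norm_iotaL_apply (l : LInf Ω hΩ) : ‖iotaL Ω hΩ l‖ = ‖l‖ := by
  rw [iotaL_apply, lp.norm_single (by norm_num)]

/-- the slice map -/
def E0 (x : OpH Ω hΩ) : OpL Ω hΩ :=
  (ContinuousLinearMap.adjoint (iotaL Ω hΩ)).comp (x.comp (iotaL Ω hΩ))

theorem adjoint_iotaL (f : HH Ω hΩ) : ContinuousLinearMap.adjoint (iotaL Ω hΩ) f = f x0 := by
  apply ext_inner_left ℂ
  intro l
  rw [ContinuousLinearMap.adjoint_inner_right, iotaL_apply]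
  exact inner_single_left' x0 l f

theorem E0_apply (x : OpH Ω hΩ) (l : LInf Ω hΩ) : E0 Ω hΩ x l = (x (lp.single 2 x0 l)) x0 := by
  show ContinuousLinearMap.adjoint (iotaL Ω hΩ) (x (iotaL Ω hΩ l)) = _
  rw [adjoint_iotaL, iotaL_apply]

theorem inner_E0 (x : OpH Ω hΩ) (l l' : LInf Ω hΩ) :
    ⟪l, E0 Ω hΩ x l'⟫_ℂ = ⟪(lp.single 2 x0 l : HH Ω hΩ), x (lp.single 2 x0 l')⟫_ℂ := by
  show ⟪l, ContinuousLinearMap.adjoint (iotaL Ω hΩ) (x (iotaL Ω hΩ l'))⟫_ℂ = _
  rw [ContinuousLinearMap.adjoint_inner_right]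
  rfl

theorem E0_add (x y : OpH Ω hΩ) : E0 Ω hΩ (x + y) = E0 Ω hΩ x + E0 Ω hΩ y := by
  ext1 l
  rw [E0_apply, add_apply, add_apply, E0_apply, E0_apply]
  rfl

theorem E0_sub (x y : OpH Ω hΩ) : E0 Ω hΩ (x - y) = E0 Ω hΩ x - E0 Ω hΩ y := by
  ext1 l
  rw [E0_apply, sub_apply, sub_apply, E0_apply, E0_apply]
  rfl

theorem E0_smul (c : ℂ) (x : OpH Ω hΩ) : E0 Ω hΩ (c • x) = c • E0 Ω hΩ x := by
  ext1 l
  rw [E0_apply, smul_apply, smul_apply, E0_apply]
  rfl

theorem E0_zero : E0 Ω hΩ 0 = 0 := by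
  ext1 l
  rw [E0_apply, zero_apply]
  rfl

theorem norm_E0_le (x : OpH Ω hΩ) : ‖E0 Ω hΩ x‖ ≤ ‖x‖ := by
  apply ContinuousLinearMap.opNorm_le_bound _ (norm_nonneg _)
  intro l
  rw [E0_apply]
  refine (lp.norm_apply_le_norm (by norm_num) _ _).trans ?_
  refine (x.le_opNorm _).trans ?_
  rw [lp.norm_single (by norm_num)]

theorem E0_star (x : OpH Ω hΩ) : E0 Ω hΩ (star x) = star (E0 Ω hΩ x) := by
  rw [ContinuousLinearMap.star_eq_adjoint, ContinuousLinearMap.star_eq_adjoint,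
    ContinuousLinearMap.eq_adjoint_iff]
  intro l l'
  rw [← inner_conj_symm, inner_E0, ContinuousLinearMap.adjoint_inner_right, inner_conj_symm,
    inner_E0]

theorem norm_dg_le (d : OpL Ω hΩ) : ‖dg Ω hΩ d‖ ≤ ‖d‖ := by
  apply ContinuousLinearMap.opNorm_le_bound _ (norm_nonneg _)
  intro f
  exact norm_map_le d f

/-- the effect of `E₀` on monomials -/
theorem E0_mono (α β : List F2) (g : F2) (d : OpL Ω hΩ) :
    E0 Ω hΩ (mono Ω hΩ α β g d) = if α = [] ∧ β = [] ∧ g = 1 then d else 0 := by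
  ext1 l
  rw [E0_apply]
  show (Wop (LInf Ω hΩ) α (star (Wop (LInf Ω hΩ) β) (Uop (LInf Ω hΩ) g
    (dg Ω hΩ d (lp.single 2 x0 l))))) x0 = _
  rw [diag_single, V_single]
  have h0 : (uE g).toEmbedding x0 = ([], g) := by
    apply Prod.ext
    · rfl
    · show g * 1 = g
      rw [mul_one]
  rw [h0]
  cases β with
  | cons k β =>
    rw [star_V_single_zero, map_zero, if_neg (by simp)]
    · rfl
    · rintro ⟨γ, h⟩ hx
      have := congrArg Prod.fst hx
      simp [appM] at this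
  | nil =>
    rw [Wop_nil, star_one]
    show (V (LInf Ω hΩ) (appM α) (lp.single 2 ([], g) (d l))) x0 = _
    rw [V_single]
    have h1 : appM α ([], g) = (α, g) := by
      apply Prod.ext
      · show α ++ [] = α
        rw [List.append_nil]
      · rfl
    rw [h1]
    by_cases h : α = [] ∧ g = 1
    · obtain ⟨rfl, rfl⟩ := h
      rw [if_pos ⟨rfl, rfl, rfl⟩]
      exact lp.single_apply_self _ _ _
    · rw [if_neg (by tauto)]
      rw [lp.single_apply_ne]
      · rfl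
      · intro h2
        apply h
        exact ⟨(congrArg Prod.fst h2).symm, (congrArg Prod.snd h2).symm⟩

theorem compress_mono (α β : List F2) (g : F2) (d : OpL Ω hΩ) :
    ∀ᶠ k in cofinite, star (Sop (LInf Ω hΩ) k) * mono Ω hΩ α β g d * Sop (LInf Ω hΩ) k =
      dg Ω hΩ (E0 Ω hΩ (mono Ω hΩ α β g d)) := by
  rw [E0_mono]
  cases α with
  | cons a α =>
    rw [if_neg (by simp), map_zero]
    have : ∀ᶠ k in cofinite, k ≠ a := (Set.finite_singleton a).compl_mem_cofinite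
    filter_upwards [this] with k hk
    rw [star_Sop_mul_mono_cons, if_neg hk, zero_mul]
  | nil =>
    cases β with
    | cons b β =>
      rw [if_neg (by simp), map_zero]
      have : ∀ᶠ k in cofinite, k ≠ g⁻¹ * b := (Set.finite_singleton (g⁻¹ * b)).compl_mem_cofinite
      filter_upwards [this] with k hk
      have h2 : b ≠ g * k := by
        intro h; apply hk; rw [h]; simp
      rw [mono, Wop_nil, one_mul, Wop_cons, star_mul]
      simp only [mul_assoc]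
      rw [← V_mul_diag, ← mul_assoc (Uop (LInf Ω hΩ) g), Uop_mul_Sop]
      simp only [mul_assoc]
      rw [← mul_assoc (star (Sop (LInf Ω hΩ) b)), star_Sop_mul_Sop_ne h2, zero_mul, mul_zero,
        mul_zero]
    | nil =>
      by_cases hg : g = 1
      · subst hg
        rw [if_pos ⟨rfl, rfl, rfl⟩]
        apply Eventually.of_forall
        intro k
        rw [mono, Wop_nil, star_one, Uop_one, mul_one, one_mul, one_mul, mul_assoc, ← V_mul_diag,
          ← mul_assoc, star_Sop_mul_Sop, one_mul]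
      · rw [if_neg (by tauto), map_zero]
        apply Eventually.of_forall
        intro k
        have h2 : k ≠ g * k := by
          intro h; apply hg
          have := congrArg (· * k⁻¹) h
          simpa using this.symm
        rw [mono, Wop_nil, star_one, one_mul, one_mul]
        simp only [mul_assoc]
        rw [← V_mul_diag, ← mul_assoc (Uop (LInf Ω hΩ) g), Uop_mul_Sop]
        simp only [mul_assoc]
        rw [← mul_assoc (star (Sop (LInf Ω hΩ) k)), star_Sop_mul_Sop_ne h2, zero_mul]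

theorem compress_MM {y : OpH Ω hΩ} (hy : y ∈ MM ρ Ω hΩ) :
    ∀ᶠ k in cofinite, star (Sop (LInf Ω hΩ) k) * y * Sop (LInf Ω hΩ) k =
      dg Ω hΩ (E0 Ω hΩ y) := by
  refine Submodule.span_induction (p := fun y _ =>
    ∀ᶠ k in cofinite, star (Sop (LInf Ω hΩ) k) * y * Sop (LInf Ω hΩ) k =
      dg Ω hΩ (E0 Ω hΩ y)) ?_ ?_ ?_ ?_ hy
  · rintro _ ⟨α, β, g, d, _, rfl⟩
    exact compress_mono Ω hΩ α β g d
  · apply Eventually.of_forall
    intro k
    rw [E0_zero, map_zero, mul_zero, zero_mul]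
  · intro x y _ _ h1 h2
    filter_upwards [h1, h2] with k hk1 hk2
    rw [mul_add, add_mul, hk1, hk2, E0_add, map_add]
  · intro c x _ h1
    filter_upwards [h1] with k hk1
    rw [mul_smul_comm, smul_mul_assoc, hk1, E0_smul, map_smul]

theorem E0_mem_DU {y : OpH Ω hΩ} (hy : y ∈ MM ρ Ω hΩ) : E0 Ω hΩ y ∈ DU ρ Ω hΩ := by
  refine Submodule.span_induction (p := fun y _ => E0 Ω hΩ y ∈ DU ρ Ω hΩ) ?_ ?_ ?_ ?_ hy
  · rintro _ ⟨α, β, g, d, hd, rfl⟩
    rw [E0_mono]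
    split_ifs
    · exact hd
    · exact ⟨0, Submodule.zero_mem _⟩
  · rw [E0_zero]; exact ⟨0, Submodule.zero_mem _⟩
  · intro x y _ _ h1 h2; rw [E0_add]; exact DU_add ρ Ω hΩ h1 h2
  · intro c x _ h1; rw [E0_smul]; exact DU_smul ρ Ω hΩ c h1

/-- approximate compression for all elements of `B` -/
theorem exists_compress {x : OpH Ω hΩ} (hx : x ∈ BB ρ Ω hΩ) {ε : ℝ} (hε : 0 < ε) :
    ∃ k, ∃ d ∈ DU ρ Ω hΩ, ‖star (Sop (LInf Ω hΩ) k) * x * Sop (LInf Ω hΩ) k - dg Ω hΩ d‖ ≤ ε ∧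
      ‖E0 Ω hΩ x - d‖ ≤ ε := by
  have h1 := mem_closure_MM ρ Ω hΩ hx
  rw [Metric.mem_closure_iff] at h1
  obtain ⟨y, hy, hxy⟩ := h1 ε hε
  rw [dist_eq_norm] at hxy
  obtain ⟨k, hk⟩ := (compress_MM ρ Ω hΩ hy).exists
  refine ⟨k, E0 Ω hΩ y, E0_mem_DU ρ Ω hΩ hy, ?_, ?_⟩
  · rw [← hk, ← sub_mul, ← mul_sub]
    have hV : ‖Sop (LInf Ω hΩ) k‖ ≤ 1 := by
      apply ContinuousLinearMap.opNorm_le_bound _ zero_le_one
      intro f
      rw [norm_V_apply, one_mul]
    have hV' : ‖star (Sop (LInf Ω hΩ) k)‖ ≤ 1 := by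
      rw [ContinuousLinearMap.star_eq_adjoint, LinearIsometryEquiv.norm_map]
      exact hV
    calc ‖star (Sop (LInf Ω hΩ) k) * (x - y) * Sop (LInf Ω hΩ) k‖
        ≤ ‖star (Sop (LInf Ω hΩ) k)‖ * ‖x - y‖ * ‖Sop (LInf Ω hΩ) k‖ :=
          (norm_mul_le _ _).trans (mul_le_mul_of_nonneg_right (norm_mul_le _ _) (norm_nonneg _))
      _ ≤ 1 * ε * 1 := by
          gcongr
      _ = ε := by ring
  · rw [← E0_sub]
    exact (norm_E0_le Ω hΩ _).trans hxy.le

end Pool.Agent.helper29
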