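import Pool.Agent.helper29.BElim

/-!
# The main lemma: every nonzero element of `B` can be conjugated to `1`
-/

open scoped InnerProductSpace ENNReal
open Filter

noncomputable section

namespace Pool.Agent.helper29

section cstar

variable {A : Type*} [CStarAlgebra A]

theorem exists_conj_of_near_scalar [Nontrivial A] {P : A} (hP : IsSelfAdjoint P) {s : ℂ} {r : ℝ}
    (h : ‖P - algebraMap ℂ A s‖ ≤ r) (hr : r < s.re) :
    ∃ t : A, IsSelfAdjoint t ∧ t * P * t = 1 := by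
  let _ : PartialOrder A := CStarAlgebra.spectralOrder A
  have _ : StarOrderedRing A := CStarAlgebra.spectralOrderedRing A
  have h1 : ‖P - algebraMap ℂ A (s.re : ℂ)‖ ≤ r := by
    have e1 : P - algebraMap ℂ A (s.re : ℂ) =
        (2⁻¹ : ℂ) • ((P - algebraMap ℂ A s) + star (P - algebraMap ℂ A s)) := by
      have e2 : ((s.re : ℝ) : ℂ) = (2⁻¹ : ℂ) * (s + starRingEnd ℂ s) := by
        rw [Complex.add_conj]; push_cast; ring
      have e3 : star (algebraMap ℂ A s) = algebraMap ℂ A (starRingEnd ℂ s) := by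
        rw [← algebraMap_star_comm]; rfl
      rw [star_sub, hP.star_eq, e3, e2, map_mul, map_add, ← Algebra.smul_def]
      have e4 : P = (2⁻¹ : ℂ) • (P + P) := by
        rw [← two_smul ℂ P, smul_smul]; simp
      nth_rewrite 1 [e4]
      rw [← smul_sub]
      congr 1
      abel
    rw [e1]
    exact (norm_star_add_le _).trans h
  have hsa : IsSelfAdjoint (P - algebraMap ℂ A (s.re : ℂ)) := by
    apply hP.sub
    have : algebraMap ℂ A (s.re : ℂ) = algebraMap ℝ A s.re := by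
      rw [Algebra.algebraMap_eq_smul_one, Algebra.algebraMap_eq_smul_one, Complex.coe_smul]
    rw [this]
    exact (IsSelfAdjoint.all s.re).algebraMap A
  have h2 := hsa.neg_algebraMap_norm_le_self
  have h3 : algebraMap ℝ A (s.re - r) ≤ P := by
    have e1 : algebraMap ℂ A (s.re : ℂ) = algebraMap ℝ A s.re := by
      rw [Algebra.algebraMap_eq_smul_one, Algebra.algebraMap_eq_smul_one, Complex.coe_smul]
    rw [e1] at h2 h1
    have h4 : algebraMap ℝ A ‖P - algebraMap ℝ A s.re‖ ≤ algebraMap ℝ A r :=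
      algebraMap_mono A h1
    have h5 : -algebraMap ℝ A r ≤ P - algebraMap ℝ A s.re := (neg_le_neg h4).trans h2
    rw [map_sub]
    have h6 := add_le_add_right h5 (algebraMap ℝ A s.re)
    calc algebraMap ℝ A s.re - algebraMap ℝ A r = algebraMap ℝ A s.re + -algebraMap ℝ A r := by abel
      _ ≤ algebraMap ℝ A s.re + (P - algebraMap ℝ A s.re) := h6
      _ = P := by abel
  exact exists_conj_eq_one (by linarith) h3

end cstar

variable {Z : Type*} [CStarAlgebra Z]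
variable {K : Type*} [NormedAddCommGroup K] [InnerProductSpace ℂ K] [CompleteSpace K]
variable (ρ : Z →⋆ₐ[ℂ] (K →L[ℂ] K)) (Ω : K) (hΩ : ‖Ω‖ = 1)

instance : Nontrivial (LInf Ω hΩ) := by
  refine ⟨vac Ω hΩ, 0, fun h => ?_⟩
  have := norm_vac Ω hΩ
  rw [h, norm_zero] at this
  exact zero_ne_one this

instance : Nontrivial (HH Ω hΩ) := by
  refine ⟨lp.single 2 x0 (vac Ω hΩ), 0, fun h => ?_⟩
  have h1 := lp.norm_single (p := 2) (by norm_num) (E := fun _ : XX => LInf Ω hΩ) x0 (vac Ω hΩ)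
  rw [h, norm_zero, norm_vac] at h1
  exact zero_ne_one h1

instance : Nontrivial (OpH Ω hΩ) := by
  obtain ⟨v, hv⟩ := exists_ne (0 : HH Ω hΩ)
  refine ⟨1, 0, fun h => hv ?_⟩
  have := congrArg (fun f => f v) h
  exact this

instance : Nontrivial (BB ρ Ω hΩ) := by
  refine ⟨1, 0, fun h => ?_⟩
  have := congrArg Subtype.val h
  exact one_ne_zero this

theorem exists_single_ne_zero {y : OpH Ω hΩ} (hy : y ≠ 0) :
    ∃ (p : XX) (q : Seqs Ω hΩ), y (lp.single 2 p (lp.single 2 q 1)) ≠ 0 := by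
  by_contra hcon
  push Not at hcon
  apply hy
  apply ext_single
  intro p l
  have h1 : y.comp (lp.singleContinuousLinearMap ℂ (fun _ : XX => LInf Ω hΩ) 2 p) = 0 := by
    apply ext_single
    intro q c
    have e1 : (lp.single 2 q c : LInf Ω hΩ) = c • lp.single 2 q 1 := by
      rw [← lp.single_smul, smul_eq_mul, mul_one]
    rw [e1, map_smul]
    show c • (y (lp.single 2 p (lp.single 2 q 1))) = _
    rw [hcon]
    simp
  have := congrArg (fun f => f l) h1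
  simpa using this

theorem main_lemma (hZ : IsSimpleCStar Z) {y : OpH Ω hΩ} (hyB : y ∈ BB ρ Ω hΩ) (hy : y ≠ 0) :
    ∃ b ∈ BB ρ Ω hΩ, star (y * b) * (y * b) = 1 := by
  obtain ⟨⟨α, g⟩, q, hpq⟩ := exists_single_ne_zero Ω hΩ hy
  obtain ⟨ξ, hξ⟩ : ∃ ξ : LInf Ω hΩ, ξ = lp.single 2 q 1 := ⟨_, rfl⟩
  rw [← hξ] at hpq
  obtain ⟨c₀, hc₀⟩ : ∃ c₀ : OpH Ω hΩ, c₀ = Wop (LInf Ω hΩ) α * Uop (LInf Ω hΩ) g := ⟨_, rfl⟩
  have hc₀mem : c₀ ∈ BB ρ Ω hΩ := by
    rw [hc₀]; exact mul_mem (Wop_mem ρ Ω hΩ α) (Uop_mem ρ Ω hΩ g)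
  have hc₀x : c₀ (lp.single 2 x0 ξ) = lp.single 2 (α, g) ξ := by
    rw [hc₀]
    show V _ (appM α) (V _ (uE g).toEmbedding (lp.single 2 x0 ξ)) = _
    rw [V_single, V_single]
    congr 1
    apply Prod.ext
    · show α ++ [] = α
      rw [List.append_nil]
    · show g * 1 = g
      rw [mul_one]
  obtain ⟨x, hx⟩ : ∃ x : OpH Ω hΩ, x = star (y * c₀) * (y * c₀) := ⟨_, rfl⟩
  have hxmem : x ∈ BB ρ Ω hΩ := by
    rw [hx]
    exact mul_mem (star_mem (mul_mem hyB hc₀mem)) (mul_mem hyB hc₀mem)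
  obtain ⟨η, hη⟩ : ∃ η : ℝ, η = ‖y (lp.single 2 (α, g) ξ)‖ ^ 2 := ⟨_, rfl⟩
  have hη0 : 0 < η := by
    rw [hη]
    have := norm_pos_iff.2 hpq
    positivity
  have hE0 : ⟪ξ, E0 Ω hΩ x ξ⟫_ℂ = η := by
    rw [inner_E0, hx]
    show ⟪(lp.single 2 x0 ξ : HH Ω hΩ), ContinuousLinearMap.adjoint (y * c₀)
      ((y * c₀) (lp.single 2 x0 ξ))⟫_ℂ = η
    rw [ContinuousLinearMap.adjoint_inner_right]
    show ⟪y (c₀ (lp.single 2 x0 ξ)), y (c₀ (lp.single 2 x0 ξ))⟫_ℂ = η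
    rw [hc₀x, inner_self_eq_norm_sq_to_K, hη]
    simp
  obtain ⟨k, d, hdU, hd1, hd2⟩ := exists_compress ρ Ω hΩ hxmem (ε := η / 8) (by positivity)
  obtain ⟨n, hn⟩ := hdU
  obtain ⟨n', hn'⟩ := prodVec_single Ω hΩ q
  rw [← hξ] at hn'
  obtain ⟨w, hw, hwi, s, hs1, hs2⟩ := elim_aux ρ Ω hΩ hZ (max n n') 0 d
    (DD_mono ρ Ω hΩ (le_max_left n n') hn) ξ (hn'.mono Ω hΩ (le_max_right n n')) (η / 8)
    (by positivity)
  rw [sigN_zero] at hs1
  have hξn : ‖ξ‖ = 1 := hn'.norm Ω hΩ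
  have hre : η - η / 8 ≤ (⟪ξ, d ξ⟫_ℂ).re := by
    have h1 : ‖⟪ξ, (E0 Ω hΩ x - d) ξ⟫_ℂ‖ ≤ η / 8 := by
      refine (norm_inner_le_norm _ _).trans ?_
      rw [hξn, one_mul]
      refine (ContinuousLinearMap.le_opNorm _ _).trans ?_
      rw [hξn, mul_one]
      exact hd2
    rw [sub_apply, inner_sub_right, hE0] at h1
    have h2 := (Complex.abs_re_le_norm _).trans h1
    rw [Complex.sub_re, Complex.ofReal_re] at h2
    have h3 := (abs_le.1 h2).2
    linarith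
  obtain ⟨b₀, hb₀⟩ : ∃ b₀ : OpH Ω hΩ, b₀ = c₀ * (Sop (LInf Ω hΩ) k * w) := ⟨_, rfl⟩
  have hb₀mem : b₀ ∈ BB ρ Ω hΩ := by
    rw [hb₀]
    exact mul_mem hc₀mem (mul_mem (Sop_mem ρ Ω hΩ k) hw)
  have hn2 : ‖w‖ ≤ 1 := by
    have h := CStarRing.norm_star_mul_self (x := w)
    rw [hwi] at h
    have h1 : ‖(1 : OpH Ω hΩ)‖ ≤ 1 := ContinuousLinearMap.norm_id_le
    nlinarith [norm_nonneg w]
  have hn2' : ‖star w‖ ≤ 1 := by
    rw [ContinuousLinearMap.star_eq_adjoint, LinearIsometryEquiv.norm_map]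
    exact hn2
  have hP : ‖star (y * b₀) * (y * b₀) - algebraMap ℂ _ s‖ ≤ η / 4 := by
    have e1 : star (y * b₀) * (y * b₀) - algebraMap ℂ _ s =
        star w * (star (Sop (LInf Ω hΩ) k) * x * Sop (LInf Ω hΩ) k - dg Ω hΩ d) * w +
          (star w * dg Ω hΩ d * w - algebraMap ℂ _ s) := by
      rw [hb₀, hx, mul_sub, sub_mul]
      simp only [star_mul, mul_assoc]
      abel
    rw [e1]
    refine (norm_add_le _ _).trans ?_
    have h3 : ‖star w * (star (Sop (LInf Ω hΩ) k) * x * Sop (LInf Ω hΩ) k - dg Ω hΩ d) * w‖ ≤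
        1 * (η / 8) * 1 := by
      refine (norm_mul_le _ _).trans ?_
      refine mul_le_mul ((norm_mul_le _ _).trans ?_) hn2 (norm_nonneg _) (by positivity)
      exact mul_le_mul hn2' hd1 (norm_nonneg _) zero_le_one
    linarith
  -- now work inside B
  have hPmem : star (y * b₀) * (y * b₀) ∈ BB ρ Ω hΩ :=
    mul_mem (star_mem (mul_mem hyB hb₀mem)) (mul_mem hyB hb₀mem)
  obtain ⟨t, ht1, ht2⟩ := exists_conj_of_near_scalar (A := BB ρ Ω hΩ)
    (P := ⟨star (y * b₀) * (y * b₀), hPmem⟩) (s := s) (r := η / 4)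
    (by
      rw [isSelfAdjoint_iff]
      apply Subtype.ext
      show star (star (y * b₀) * (y * b₀)) = _
      rw [star_mul, star_star])
    hP (by linarith)
  refine ⟨b₀ * t, mul_mem hb₀mem t.2, ?_⟩
  have h1 := congrArg Subtype.val ht2
  have h2 : star (t : OpH Ω hΩ) = t := congrArg Subtype.val ht1.star_eq
  have h3 : (t : OpH Ω hΩ) * (star (y * b₀) * (y * b₀)) * t = 1 := h1
  have h4 : star (y * (b₀ * (t : OpH Ω hΩ))) * (y * (b₀ * (t : OpH Ω hΩ))) =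
      star (t : OpH Ω hΩ) * (star (y * b₀) * (y * b₀)) * t := by
    simp only [star_mul, mul_assoc]
  rw [h4, h2]
  exact h3

end Pool.Agent.helper29
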