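import Pool.Agent.helper29.BTrace
import Pool.Agent.helper29.Absorb

/-!
# `B` has no asymptotically central pairs of isometries with orthogonal ranges
-/

open scoped InnerProductSpace ENNReal
open Filter Topology

noncomputable section

namespace Pool.Agent.helper29

section hilbert

variable {H : Type*} [NormedAddCommGroup H] [InnerProductSpace ℂ H] [CompleteSpace H]

theorem orth_iso_bound {s t : H →L[ℂ] H} (hs : star s * s = 1) (ht : star t * t = 1)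
    (hst : star s * t = 0) (ξ : H) : ‖(star s) ξ‖ ^ 2 + ‖(star t) ξ‖ ^ 2 ≤ ‖ξ‖ ^ 2 := by
  have hs' : ∀ v, (star s) (s v) = v := fun v => congrArg (fun f => f v) hs
  have ht' : ∀ v, (star t) (t v) = v := fun v => congrArg (fun f => f v) ht
  have hst' : ∀ v, (star s) (t v) = 0 := fun v => congrArg (fun f => f v) hst
  have hin : ∀ (a : H →L[ℂ] H) (u v : H), ⟪a u, v⟫_ℂ = ⟪u, (star a) v⟫_ℂ := by
    intro a u v
    rw [ContinuousLinearMap.star_eq_adjoint, ContinuousLinearMap.adjoint_inner_right]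
  have e1 : ‖ξ - s ((star s) ξ) - t ((star t) ξ)‖ ^ 2 =
      ‖ξ‖ ^ 2 - ‖(star s) ξ‖ ^ 2 - ‖(star t) ξ‖ ^ 2 := by
    have h1 : ‖ξ - s ((star s) ξ) - t ((star t) ξ)‖ ^ 2 =
        (⟪ξ - s ((star s) ξ) - t ((star t) ξ), ξ - s ((star s) ξ) - t ((star t) ξ)⟫_ℂ).re :=
      (inner_self_eq_norm_sq (𝕜 := ℂ) _).symm
    have h2 : ⟪s ((star s) ξ), ξ⟫_ℂ = ⟪(star s) ξ, (star s) ξ⟫_ℂ := hin _ _ _
    have h3 : ⟪t ((star t) ξ), ξ⟫_ℂ = ⟪(star t) ξ, (star t) ξ⟫_ℂ := hin _ _ _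
    have h2' : ⟪ξ, s ((star s) ξ)⟫_ℂ = ⟪(star s) ξ, (star s) ξ⟫_ℂ := by
      rw [← inner_conj_symm, h2, inner_conj_symm]
    have h3' : ⟪ξ, t ((star t) ξ)⟫_ℂ = ⟪(star t) ξ, (star t) ξ⟫_ℂ := by
      rw [← inner_conj_symm, h3, inner_conj_symm]
    have h4 : ⟪s ((star s) ξ), s ((star s) ξ)⟫_ℂ = ⟪(star s) ξ, (star s) ξ⟫_ℂ := by
      rw [hin, hs']
    have h5 : ⟪t ((star t) ξ), t ((star t) ξ)⟫_ℂ = ⟪(star t) ξ, (star t) ξ⟫_ℂ := by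
      rw [hin, ht']
    have h6 : ⟪s ((star s) ξ), t ((star t) ξ)⟫_ℂ = 0 := by
      rw [hin, hst', inner_zero_right]
    have h6' : ⟪t ((star t) ξ), s ((star s) ξ)⟫_ℂ = 0 := by
      rw [← inner_conj_symm, h6, map_zero]
    rw [h1]
    simp only [inner_sub_left, inner_sub_right]
    rw [h2, h3, h2', h3', h4, h5, h6, h6']
    have n1 : (⟪ξ, ξ⟫_ℂ).re = ‖ξ‖ ^ 2 := inner_self_eq_norm_sq (𝕜 := ℂ) _
    have n2 : (⟪(star s) ξ, (star s) ξ⟫_ℂ).re = ‖(star s) ξ‖ ^ 2 := inner_self_eq_norm_sq (𝕜 := ℂ) _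
    have n3 : (⟪(star t) ξ, (star t) ξ⟫_ℂ).re = ‖(star t) ξ‖ ^ 2 := inner_self_eq_norm_sq (𝕜 := ℂ) _
    simp only [Complex.sub_re, Complex.zero_re]
    rw [n1, n2, n3]
    ring
  have := sq_nonneg ‖ξ - s ((star s) ξ) - t ((star t) ξ)‖
  linarith

end hilbert

variable {Z : Type*} [CStarAlgebra Z]
variable {K : Type*} [NormedAddCommGroup K] [InnerProductSpace ℂ K] [CompleteSpace K]
variable (ρ : Z →⋆ₐ[ℂ] (K →L[ℂ] K)) (Ω : K) (hΩ : ‖Ω‖ = 1)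

/-- right translations -/
abbrev Rop (g : F2) : OpH Ω hΩ := V (LInf Ω hΩ) (rE g).toEmbedding

theorem rE_symm (g : F2) : (rE g).symm = rE g⁻¹ := by
  apply Equiv.ext
  intro x
  apply Prod.ext
  · rfl
  · show x.2 * g = x.2 * (g⁻¹)⁻¹
    rw [inv_inv]

theorem star_Rop (g : F2) : star (Rop Ω hΩ g) = Rop Ω hΩ g⁻¹ := by
  rw [star_V_equiv, rE_symm]

theorem Rop_comm_adjoin {x : OpH Ω hΩ} (hx : x ∈ StarAlgebra.adjoin ℂ (gens ρ Ω hΩ)) :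
    ∀ g, Rop Ω hΩ g * x = x * Rop Ω hΩ g := by
  refine StarAlgebra.adjoin_induction (p := fun x _ => ∀ g, Rop Ω hΩ g * x = x * Rop Ω hΩ g)
      ?_ ?_ ?_ ?_ ?_ hx
  · rintro _ (⟨k, rfl⟩ | ⟨h, rfl⟩ | ⟨n, z, rfl⟩) g
    · rw [V_mul, V_mul, rE_sM]
    · rw [V_mul, V_mul, rE_uE]
    · rw [V_mul_diag]
  · intro r g
    exact (Algebra.commutes r _).symm
  · intro x y _ _ h1 h2 g
    rw [mul_add, add_mul, h1, h2]
  · intro x y _ _ h1 h2 g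
    rw [← mul_assoc, h1, mul_assoc, h2, mul_assoc]
  · intro x _ h1 g
    have h2 := congrArg star (h1 g⁻¹)
    rw [star_mul, star_mul, star_Rop, inv_inv] at h2
    exact h2.symm

theorem Rop_comm {x : OpH Ω hΩ} (hx : x ∈ BB ρ Ω hΩ) (g : F2) :
    Rop Ω hΩ g * x = x * Rop Ω hΩ g := by
  have hcl : IsClosed {x : OpH Ω hΩ | Rop Ω hΩ g * x = x * Rop Ω hΩ g} :=
    isClosed_eq (continuous_const.mul continuous_id) (continuous_id.mul continuous_const)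
  have hx' : x ∈ closure (StarAlgebra.adjoin ℂ (gens ρ Ω hΩ) : Set (OpH Ω hΩ)) := by
    rw [← StarSubalgebra.topologicalClosure_coe]
    exact hx
  exact closure_minimal (fun y hy => Rop_comm_adjoin ρ Ω hΩ hy g) hcl hx'

theorem norm_iota_vac : ‖(lp.single 2 x0 (vac Ω hΩ) : HH Ω hΩ)‖ = 1 := by
  rw [lp.norm_single (by norm_num), norm_vac]

theorem cE_commutator {v : OpH Ω hΩ} (hv : v ∈ BB ρ Ω hΩ) (g : F2) :
    ‖V (LInf Ω hΩ) (cE g).toEmbedding (v (lp.single 2 x0 (vac Ω hΩ))) -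
      v (lp.single 2 x0 (vac Ω hΩ))‖ ≤
      ‖v * Uop (LInf Ω hΩ) g - Uop (LInf Ω hΩ) g * v‖ := by
  obtain ⟨ξ, hξ⟩ : ∃ ξ : HH Ω hΩ, ξ = lp.single 2 x0 (vac Ω hΩ) := ⟨_, rfl⟩
  have hξn : ‖ξ‖ = 1 := by rw [hξ]; exact norm_iota_vac Ω hΩ
  have h1 : V (LInf Ω hΩ) (cE g).toEmbedding = Rop Ω hΩ g * Uop (LInf Ω hΩ) g := by
    rw [cE_eq, ← V_mul]
  have h2 : V (LInf Ω hΩ) (cE g).toEmbedding ξ = ξ := by
    rw [hξ, V_single]
    congr 1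
    show (([] : List F2).map _, g * 1 * g⁻¹) = (([], 1) : XX)
    simp
  rw [← hξ]
  have h3 : V (LInf Ω hΩ) (cE g).toEmbedding * v - v * V (LInf Ω hΩ) (cE g).toEmbedding =
      - (Rop Ω hΩ g * (v * Uop (LInf Ω hΩ) g - Uop (LInf Ω hΩ) g * v)) := by
    rw [h1, mul_sub, ← mul_assoc, ← mul_assoc, ← mul_assoc, Rop_comm ρ Ω hΩ hv]
    simp only [mul_assoc]
    abel
  have h4 : V (LInf Ω hΩ) (cE g).toEmbedding (v ξ) - v ξ =
      (V (LInf Ω hΩ) (cE g).toEmbedding * v - v * V (LInf Ω hΩ) (cE g).toEmbedding) ξ := by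
    show _ = V (LInf Ω hΩ) (cE g).toEmbedding (v ξ) - v (V (LInf Ω hΩ) (cE g).toEmbedding ξ)
    rw [h2]
  rw [h4, h3, neg_apply, norm_neg]
  show ‖V (LInf Ω hΩ) (rE g).toEmbedding ((v * Uop (LInf Ω hΩ) g - Uop (LInf Ω hΩ) g * v) ξ)‖ ≤ _
  rw [norm_V_apply]
  refine (ContinuousLinearMap.le_opNorm _ _).trans ?_
  rw [hξn, mul_one]

theorem norm_E0_lower {v : OpH Ω hΩ} (hv : v ∈ BB ρ Ω hΩ) (hvi : star v * v = 1) {ε : ℝ}
    (ha : ‖v * Uop (LInf Ω hΩ) Paradox.ga - Uop (LInf Ω hΩ) Paradox.ga * v‖ ≤ ε)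
    (hb : ‖v * Uop (LInf Ω hΩ) Paradox.gb - Uop (LInf Ω hΩ) Paradox.gb * v‖ ≤ ε) :
    1 - 13 * ε ≤ ‖E0 Ω hΩ v (vac Ω hΩ)‖ := by
  obtain ⟨f, hf⟩ : ∃ f : HH Ω hΩ, f = v (lp.single 2 x0 (vac Ω hΩ)) := ⟨_, rfl⟩
  have h1 := (cE_commutator ρ Ω hΩ hv Paradox.ga).trans ha
  have h2 := (cE_commutator ρ Ω hΩ hv Paradox.gb).trans hb
  rw [← hf] at h1 h2
  have h3 := gap f h1 h2
  have h4 : ‖f‖ = 1 := by
    have h5 : ‖f‖ ^ 2 = 1 := by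
      have h6 : ‖f‖ ^ 2 = (⟪f, f⟫_ℂ).re := (inner_self_eq_norm_sq (𝕜 := ℂ) _).symm
      have h7 : ⟪f, f⟫_ℂ = ⟪(lp.single 2 x0 (vac Ω hΩ) : HH Ω hΩ),
          (star v * v) (lp.single 2 x0 (vac Ω hΩ))⟫_ℂ := by
        rw [hf]
        show _ = ⟪(lp.single 2 x0 (vac Ω hΩ) : HH Ω hΩ),
          (ContinuousLinearMap.adjoint v) (v (lp.single 2 x0 (vac Ω hΩ)))⟫_ℂ
        rw [ContinuousLinearMap.adjoint_inner_right]
      rw [h6, h7, hvi]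
      have h8 : (⟪(lp.single 2 x0 (vac Ω hΩ) : HH Ω hΩ), (lp.single 2 x0 (vac Ω hΩ) : HH Ω hΩ)⟫_ℂ).re
          = ‖(lp.single 2 x0 (vac Ω hΩ) : HH Ω hΩ)‖ ^ 2 := inner_self_eq_norm_sq (𝕜 := ℂ) _
      rw [norm_iota_vac] at h8
      rw [one_pow] at h8
      exact h8
    have h9 := norm_nonneg f
    nlinarith
  have h5 : f = lp.single 2 x0 (f x0) + res {x0}ᶜ f := by
    apply lp.ext
    funext x
    show f x = (lp.single 2 x0 (f x0) : HH Ω hΩ) x + res {x0}ᶜ f x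
    rw [res_apply]
    by_cases hx : x = x0
    · subst hx
      rw [lp.single_apply_self, Set.indicator_of_notMem (by simp), add_zero]
    · rw [lp.single_apply_ne _ _ _ hx, Set.indicator_of_mem (by simpa using hx), zero_add]
  have h6 : ‖f‖ ≤ ‖f x0‖ + ‖res {x0}ᶜ f‖ := by
    have h7 := norm_add_le (lp.single 2 x0 (f x0) : HH Ω hΩ) (res {x0}ᶜ f)
    rw [← h5, lp.norm_single (by norm_num)] at h7
    exact h7
  rw [E0_apply, ← hf]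
  linarith

theorem no_central (htr : IsTracialVec ρ Ω) {s t : ℕ → OpH Ω hΩ}
    (hsB : ∀ n, s n ∈ BB ρ Ω hΩ) (htB : ∀ n, t n ∈ BB ρ Ω hΩ)
    (hs : ∀ n, star (s n) * s n = 1) (ht : ∀ n, star (t n) * t n = 1)
    (hst : ∀ n, star (s n) * t n = 0)
    (hsc : ∀ c ∈ BB ρ Ω hΩ, Tendsto (fun n => s n * c - c * s n) atTop (𝓝 0))
    (htc : ∀ c ∈ BB ρ Ω hΩ, Tendsto (fun n => t n * c - c * t n) atTop (𝓝 0)) : False := by
  have key : ∀ {s : ℕ → OpH Ω hΩ} (_ : ∀ n, s n ∈ BB ρ Ω hΩ) (_ : ∀ n, star (s n) * s n = 1)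
      (_ : ∀ c ∈ BB ρ Ω hΩ, Tendsto (fun n => s n * c - c * s n) atTop (𝓝 0)),
      ∀ᶠ n in atTop, 87 / 100 ≤ ‖E0 Ω hΩ (star (s n)) (vac Ω hΩ)‖ := by
    intro s hsB hs hsc
    have h1 := Metric.tendsto_nhds.1 (hsc _ (Uop_mem ρ Ω hΩ Paradox.ga)) (1 / 100) (by norm_num)
    have h2 := Metric.tendsto_nhds.1 (hsc _ (Uop_mem ρ Ω hΩ Paradox.gb)) (1 / 100) (by norm_num)
    filter_upwards [h1, h2] with n hn1 hn2
    rw [dist_zero_right] at hn1 hn2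
    have h3 := norm_E0_lower ρ Ω hΩ (hsB n) (hs n) hn1.le hn2.le
    rw [← trace_E0 ρ Ω hΩ htr (hsB n)]
    linarith
  obtain ⟨n, hn1, hn2⟩ := ((key hsB hs hsc).and (key htB ht htc)).exists
  have h1 := orth_iso_bound (hs n) (ht n) (hst n) (lp.single 2 x0 (vac Ω hΩ) : HH Ω hΩ)
  rw [norm_iota_vac] at h1
  have h2 : ∀ x : OpH Ω hΩ, ‖E0 Ω hΩ x (vac Ω hΩ)‖ ≤ ‖x (lp.single 2 x0 (vac Ω hΩ))‖ := by
    intro x
    rw [E0_apply]
    exact lp.norm_apply_le_norm (by norm_num) _ _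
  have h3 := hn1.trans (h2 (star (s n)))
  have h4 := hn2.trans (h2 (star (t n)))
  nlinarith

/-- `B` is not `𝒪_∞`-stable -/
theorem not_stable (htr : IsTracialVec ρ Ω) {C : Type*} [CStarAlgebra C] (hC : IsCuntzInfinity C) :
    ¬ TensorStable (BB ρ Ω hΩ) C := by
  intro h
  obtain ⟨s, t, hs, ht, hst, hsc, htc⟩ := central_of_stable hC h
  have hcont : Continuous (Subtype.val : BB ρ Ω hΩ → OpH Ω hΩ) := continuous_subtype_val
  refine no_central ρ Ω hΩ htr (s := fun n => (s n : OpH Ω hΩ)) (t := fun n => (t n : OpH Ω hΩ))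
    (fun n => (s n).2) (fun n => (t n).2) (fun n => congrArg Subtype.val (hs n))
    (fun n => congrArg Subtype.val (ht n)) (fun n => congrArg Subtype.val (hst n)) ?_ ?_
  · intro c hc
    exact (hcont.tendsto 0).comp (hsc ⟨c, hc⟩)
  · intro c hc
    exact (hcont.tendsto 0).comp (htc ⟨c, hc⟩)

end Pool.Agent.helper29
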