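import Pool.Agent.helper29.BAlg

/-!
# The algebra `B` and its spanning set
-/

open scoped InnerProductSpace ENNReal
open Filter

noncomputable section

namespace Pool.Agent.helper29

variable {Z : Type*} [CStarAlgebra Z]
variable {K : Type*} [NormedAddCommGroup K] [InnerProductSpace ℂ K] [CompleteSpace K]
variable (ρ : Z →⋆ₐ[ℂ] (K →L[ℂ] K)) (Ω : K) (hΩ : ‖Ω‖ = 1)

/-- operators on `L` -/
abbrev OpL : Type _ := LInf Ω hΩ →L[ℂ] LInf Ω hΩ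

/-- the Hilbert space of `B` -/
abbrev HH : Type _ := L2 XX (LInf Ω hΩ)

/-- operators on `H` -/
abbrev OpH : Type _ := HH Ω hΩ →L[ℂ] HH Ω hΩ

/-- the shift `x ↦ 1 ⊗ x` -/
def sig : OpL Ω hΩ →⋆ₐ[ℂ] OpL Ω hΩ := (infTensor Ω hΩ).ampR

/-- the first factor -/
def pi0 : Z →⋆ₐ[ℂ] OpL Ω hΩ := ((infTensor Ω hΩ).ampL).comp ρ

theorem pi0_comm (z : Z) (x : OpL Ω hΩ) : pi0 ρ Ω hΩ z * sig Ω hΩ x = sig Ω hΩ x * pi0 ρ Ω hΩ z :=
  (infTensor Ω hΩ).amp_comm _ _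

/-- iterated shift -/
def sigN : ℕ → (OpL Ω hΩ →⋆ₐ[ℂ] OpL Ω hΩ)
  | 0 => StarAlgHom.id ℂ _
  | n + 1 => (sig Ω hΩ).comp (sigN n)

@[simp] theorem sigN_zero (x : OpL Ω hΩ) : sigN Ω hΩ 0 x = x := rfl

theorem sigN_succ (n : ℕ) (x : OpL Ω hΩ) : sigN Ω hΩ (n + 1) x = sig Ω hΩ (sigN Ω hΩ n x) := rfl

theorem sigN_succ' (n : ℕ) (x : OpL Ω hΩ) : sigN Ω hΩ (n + 1) x = sigN Ω hΩ n (sig Ω hΩ x) := by
  induction n with
  | zero => rfl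
  | succ n ih => rw [sigN_succ, ih, sigN_succ]

/-- the finite tensor powers of `Z` -/
def DD : ℕ → Submodule ℂ (OpL Ω hΩ)
  | 0 => Submodule.span ℂ {1}
  | n + 1 => Submodule.span ℂ {x | ∃ z, ∃ d ∈ DD n, x = pi0 ρ Ω hΩ z * sig Ω hΩ d}

theorem mem_DD_succ_of {n : ℕ} (z : Z) {d : OpL Ω hΩ} (hd : d ∈ DD ρ Ω hΩ n) :
    pi0 ρ Ω hΩ z * sig Ω hΩ d ∈ DD ρ Ω hΩ (n + 1) := by
  show _ ∈ Submodule.span ℂ _
  exact Submodule.subset_span ⟨z, d, hd, rfl⟩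

theorem one_mem_DD (n : ℕ) : (1 : OpL Ω hΩ) ∈ DD ρ Ω hΩ n := by
  induction n with
  | zero => exact Submodule.subset_span rfl
  | succ n ih =>
    have := mem_DD_succ_of ρ Ω hΩ 1 ih
    rwa [map_one, map_one, mul_one] at this

theorem DD_le_succ (n : ℕ) : DD ρ Ω hΩ n ≤ DD ρ Ω hΩ (n + 1) := by
  induction n with
  | zero =>
    show Submodule.span ℂ _ ≤ _
    rw [Submodule.span_le]
    rintro x hx
    rw [Set.mem_singleton_iff] at hx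
    rw [hx]
    exact one_mem_DD ρ Ω hΩ 1
  | succ n ih =>
    show Submodule.span ℂ _ ≤ _
    rw [Submodule.span_le]
    rintro x ⟨z, d, hd, rfl⟩
    exact mem_DD_succ_of ρ Ω hΩ z (ih hd)

theorem DD_mono {n m : ℕ} (h : n ≤ m) : DD ρ Ω hΩ n ≤ DD ρ Ω hΩ m :=
  monotone_nat_of_le_succ (DD_le_succ ρ Ω hΩ) h

theorem DD_zero_mem {x : OpL Ω hΩ} (hx : x ∈ DD ρ Ω hΩ 0) : ∃ c : ℂ, x = c • 1 := by
  have hx' : x ∈ Submodule.span ℂ {(1 : OpL Ω hΩ)} := hx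
  rw [Submodule.mem_span_singleton] at hx'
  obtain ⟨c, hc⟩ := hx'
  exact ⟨c, hc.symm⟩

theorem DD_mul (n : ℕ) : ∀ x ∈ DD ρ Ω hΩ n, ∀ y ∈ DD ρ Ω hΩ n, x * y ∈ DD ρ Ω hΩ n := by
  induction n with
  | zero =>
    intro x hx y hy
    obtain ⟨c, rfl⟩ := DD_zero_mem ρ Ω hΩ hx
    rw [smul_mul_assoc, one_mul]
    exact Submodule.smul_mem _ _ hy
  | succ n ih =>
    intro x hx y hy
    have hx' : x ∈ Submodule.span ℂ {x | ∃ z, ∃ d ∈ DD ρ Ω hΩ n, x = pi0 ρ Ω hΩ z * sig Ω hΩ d} := hx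
    have hy' : y ∈ Submodule.span ℂ {x | ∃ z, ∃ d ∈ DD ρ Ω hΩ n, x = pi0 ρ Ω hΩ z * sig Ω hΩ d} := hy
    refine Submodule.span_induction₂ (p := fun x y _ _ => x * y ∈ DD ρ Ω hΩ (n + 1)) ?_ ?_ ?_ ?_ ?_ ?_ ?_ hx' hy'
    · rintro _ _ ⟨z, d, hd, rfl⟩ ⟨z', d', hd', rfl⟩
      have h1 : pi0 ρ Ω hΩ z * sig Ω hΩ d * (pi0 ρ Ω hΩ z' * sig Ω hΩ d') =
          pi0 ρ Ω hΩ (z * z') * sig Ω hΩ (d * d') := by
        rw [map_mul, map_mul, mul_assoc, mul_assoc, ← mul_assoc (sig Ω hΩ d), ← pi0_comm, mul_assoc]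
      rw [h1]
      exact mem_DD_succ_of ρ Ω hΩ _ (ih d hd d' hd')
    · intro y _; rw [zero_mul]; exact Submodule.zero_mem _
    · intro x _; rw [mul_zero]; exact Submodule.zero_mem _
    · intro x y z _ _ _ h1 h2; rw [add_mul]; exact Submodule.add_mem _ h1 h2
    · intro x y z _ _ _ h1 h2; rw [mul_add]; exact Submodule.add_mem _ h1 h2
    · intro r x y _ _ h1; rw [smul_mul_assoc]; exact Submodule.smul_mem _ _ h1
    · intro r x y _ _ h1; rw [mul_smul_comm]; exact Submodule.smul_mem _ _ h1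

theorem DD_star (n : ℕ) : ∀ x ∈ DD ρ Ω hΩ n, star x ∈ DD ρ Ω hΩ n := by
  induction n with
  | zero =>
    intro x hx
    obtain ⟨c, rfl⟩ := DD_zero_mem ρ Ω hΩ hx
    rw [star_smul, star_one]
    exact Submodule.smul_mem _ _ (one_mem_DD ρ Ω hΩ 0)
  | succ n ih =>
    intro x hx
    have hx' : x ∈ Submodule.span ℂ {x | ∃ z, ∃ d ∈ DD ρ Ω hΩ n, x = pi0 ρ Ω hΩ z * sig Ω hΩ d} := hx
    refine Submodule.span_induction (p := fun x _ => star x ∈ DD ρ Ω hΩ (n + 1)) ?_ ?_ ?_ ?_ hx'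
    · rintro _ ⟨z, d, hd, rfl⟩
      rw [star_mul, ← map_star, ← map_star, ← pi0_comm]
      exact mem_DD_succ_of ρ Ω hΩ _ (ih d hd)
    · rw [star_zero]; exact Submodule.zero_mem _
    · intro x y _ _ h1 h2; rw [star_add]; exact Submodule.add_mem _ h1 h2
    · intro r x _ h1; rw [star_smul]; exact Submodule.smul_mem _ _ h1

theorem sigN_pi0_mem (n : ℕ) (z : Z) : sigN Ω hΩ n (pi0 ρ Ω hΩ z) ∈ DD ρ Ω hΩ (n + 1) := by
  induction n with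
  | zero =>
    have := mem_DD_succ_of ρ Ω hΩ z (one_mem_DD ρ Ω hΩ 0)
    rwa [map_one, mul_one] at this
  | succ n ih =>
    rw [sigN_succ]
    have := mem_DD_succ_of ρ Ω hΩ 1 ih
    rwa [map_one, one_mul] at this

/-- the union of the finite tensor powers -/
def DU : Set (OpL Ω hΩ) := {x | ∃ n, x ∈ DD ρ Ω hΩ n}

theorem DU_mul {x y : OpL Ω hΩ} (hx : x ∈ DU ρ Ω hΩ) (hy : y ∈ DU ρ Ω hΩ) : x * y ∈ DU ρ Ω hΩ := by
  obtain ⟨n, hn⟩ := hx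
  obtain ⟨m, hm⟩ := hy
  exact ⟨max n m, DD_mul ρ Ω hΩ _ _ (DD_mono ρ Ω hΩ (le_max_left n m) hn) _
    (DD_mono ρ Ω hΩ (le_max_right n m) hm)⟩

theorem DU_add {x y : OpL Ω hΩ} (hx : x ∈ DU ρ Ω hΩ) (hy : y ∈ DU ρ Ω hΩ) : x + y ∈ DU ρ Ω hΩ := by
  obtain ⟨n, hn⟩ := hx
  obtain ⟨m, hm⟩ := hy
  exact ⟨max n m, Submodule.add_mem _ (DD_mono ρ Ω hΩ (le_max_left n m) hn)
    (DD_mono ρ Ω hΩ (le_max_right n m) hm)⟩

theorem DU_star {x : OpL Ω hΩ} (hx : x ∈ DU ρ Ω hΩ) : star x ∈ DU ρ Ω hΩ := by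
  obtain ⟨n, hn⟩ := hx
  exact ⟨n, DD_star ρ Ω hΩ n x hn⟩

theorem DU_smul (c : ℂ) {x : OpL Ω hΩ} (hx : x ∈ DU ρ Ω hΩ) : c • x ∈ DU ρ Ω hΩ := by
  obtain ⟨n, hn⟩ := hx
  exact ⟨n, Submodule.smul_mem _ _ hn⟩

theorem DU_one : (1 : OpL Ω hΩ) ∈ DU ρ Ω hΩ := ⟨0, one_mem_DD ρ Ω hΩ 0⟩

theorem DU_sigN (n : ℕ) (z : Z) : sigN Ω hΩ n (pi0 ρ Ω hΩ z) ∈ DU ρ Ω hΩ :=
  ⟨n + 1, sigN_pi0_mem ρ Ω hΩ n z⟩

/-- `diag` on the relevant space -/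
abbrev dg : OpL Ω hΩ →⋆ₐ[ℂ] OpH Ω hΩ := diag XX (LInf Ω hΩ)

/-- generators of `B` -/
def gens : Set (OpH Ω hΩ) :=
  {x | (∃ k, x = Sop (LInf Ω hΩ) k) ∨ (∃ g, x = Uop (LInf Ω hΩ) g) ∨
    (∃ n z, x = dg Ω hΩ (sigN Ω hΩ n (pi0 ρ Ω hΩ z)))}

/-- the monomials -/
def mono (α β : List F2) (g : F2) (d : OpL Ω hΩ) : OpH Ω hΩ :=
  Wop (LInf Ω hΩ) α * star (Wop (LInf Ω hΩ) β) * Uop (LInf Ω hΩ) g * dg Ω hΩ d

/-- the span of the monomials -/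
def MM : Submodule ℂ (OpH Ω hΩ) :=
  Submodule.span ℂ {x | ∃ α β g, ∃ d ∈ DU ρ Ω hΩ, x = mono Ω hΩ α β g d}

theorem mono_mem {α β : List F2} {g : F2} {d : OpL Ω hΩ} (hd : d ∈ DU ρ Ω hΩ) :
    mono Ω hΩ α β g d ∈ MM ρ Ω hΩ := Submodule.subset_span ⟨α, β, g, d, hd, rfl⟩

theorem one_mem_MM : (1 : OpH Ω hΩ) ∈ MM ρ Ω hΩ := by
  have := mono_mem ρ Ω hΩ (α := []) (β := []) (g := 1) (DU_one ρ Ω hΩ)
  rwa [mono, Wop_nil, star_one, Uop_one, map_one, mul_one, mul_one, mul_one] at this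

theorem Sop_mul_mono (k : F2) (α β : List F2) (g : F2) (d : OpL Ω hΩ) :
    Sop (LInf Ω hΩ) k * mono Ω hΩ α β g d = mono Ω hΩ (k :: α) β g d := by
  rw [mono, mono, Wop_cons]
  simp only [mul_assoc]

theorem star_Sop_mul_mono_cons (k k' : F2) (α β : List F2) (g : F2) (d : OpL Ω hΩ) :
    star (Sop (LInf Ω hΩ) k) * mono Ω hΩ (k' :: α) β g d =
      if k = k' then mono Ω hΩ α β g d else 0 := by
  rw [mono, Wop_cons]
  split_ifs with h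
  · subst h
    rw [mono]
    simp only [mul_assoc]
    rw [← mul_assoc, star_Sop_mul_Sop, one_mul]
  · simp only [mul_assoc]
    rw [← mul_assoc, star_Sop_mul_Sop_ne h, zero_mul]

theorem Wop_append (α β : List F2) :
    Wop (LInf Ω hΩ) (α ++ β) = Wop (LInf Ω hΩ) α * Wop (LInf Ω hΩ) β := by
  induction α with
  | nil => rw [List.nil_append, Wop_nil, one_mul]
  | cons k α ih => rw [List.cons_append, Wop_cons, Wop_cons, ih, mul_assoc]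

theorem Wop_single (k : F2) : Wop (LInf Ω hΩ) [k] = Sop (LInf Ω hΩ) k := by
  rw [Wop_cons, Wop_nil, mul_one]

theorem star_Sop_mul_mono_nil (k : F2) (β : List F2) (g : F2) (d : OpL Ω hΩ) :
    star (Sop (LInf Ω hΩ) k) * mono Ω hΩ [] β g d = mono Ω hΩ [] (β ++ [k]) g d := by
  rw [mono, mono, Wop_nil, one_mul, one_mul, Wop_append, Wop_single, star_mul]
  simp only [mul_assoc]

theorem Uop_mul_mono (h : F2) (α β : List F2) (g : F2) (d : OpL Ω hΩ) :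
    Uop (LInf Ω hΩ) h * mono Ω hΩ α β g d =
      mono Ω hΩ (α.map (fun k => h * k)) (β.map (fun k => h * k)) (h * g) d := by
  rw [mono, mono, ← Uop_mul]
  simp only [← mul_assoc]
  rw [Uop_mul_Wop, mul_assoc (Wop (LInf Ω hΩ) (α.map (fun k => h * k))), Uop_mul_star_Wop]
  simp only [← mul_assoc]

theorem dg_mul_mono (e : OpL Ω hΩ) (α β : List F2) (g : F2) (d : OpL Ω hΩ) :
    dg Ω hΩ e * mono Ω hΩ α β g d = mono Ω hΩ α β g (e * d) := by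
  rw [mono, mono, map_mul]
  simp only [← mul_assoc]
  rw [← V_mul_diag, mul_assoc (Wop (LInf Ω hΩ) α), ← star_V_mul_diag, ← mul_assoc,
    mul_assoc (Wop (LInf Ω hΩ) α * _), ← V_mul_diag]
  simp only [← mul_assoc]

theorem mul_mem_MM_of {a : OpH Ω hΩ}
    (h : ∀ α β g, ∀ d ∈ DU ρ Ω hΩ, a * mono Ω hΩ α β g d ∈ MM ρ Ω hΩ) :
    ∀ y ∈ MM ρ Ω hΩ, a * y ∈ MM ρ Ω hΩ := by
  intro y hy
  refine Submodule.span_induction (p := fun y _ => a * y ∈ MM ρ Ω hΩ) ?_ ?_ ?_ ?_ hy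
  · rintro _ ⟨α, β, g, d, hd, rfl⟩
    exact h α β g d hd
  · rw [mul_zero]; exact Submodule.zero_mem _
  · intro x y _ _ h1 h2; rw [mul_add]; exact Submodule.add_mem _ h1 h2
  · intro r x _ h1; rw [mul_smul_comm]; exact Submodule.smul_mem _ _ h1

theorem gens_mul_mem {a : OpH Ω hΩ} (ha : a ∈ gens ρ Ω hΩ) :
    (∀ y ∈ MM ρ Ω hΩ, a * y ∈ MM ρ Ω hΩ) ∧ (∀ y ∈ MM ρ Ω hΩ, star a * y ∈ MM ρ Ω hΩ) := by
  rcases ha with ⟨k, rfl⟩ | ⟨g, rfl⟩ | ⟨n, z, rfl⟩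
  · constructor
    · apply mul_mem_MM_of
      intro α β g d hd
      rw [Sop_mul_mono]
      exact mono_mem ρ Ω hΩ hd
    · apply mul_mem_MM_of
      intro α β g d hd
      cases α with
      | nil =>
        rw [star_Sop_mul_mono_nil]
        exact mono_mem ρ Ω hΩ hd
      | cons k' α =>
        rw [star_Sop_mul_mono_cons]
        split_ifs
        · exact mono_mem ρ Ω hΩ hd
        · exact Submodule.zero_mem _
  · have h : ∀ h : F2, ∀ y ∈ MM ρ Ω hΩ, Uop (LInf Ω hΩ) h * y ∈ MM ρ Ω hΩ := by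
      intro h
      apply mul_mem_MM_of
      intro α β g d hd
      rw [Uop_mul_mono]
      exact mono_mem ρ Ω hΩ hd
    refine ⟨h g, ?_⟩
    rw [star_Uop]
    exact h _
  · have h : ∀ e ∈ DU ρ Ω hΩ, ∀ y ∈ MM ρ Ω hΩ, dg Ω hΩ e * y ∈ MM ρ Ω hΩ := by
      intro e he
      apply mul_mem_MM_of
      intro α β g d hd
      rw [dg_mul_mono]
      exact mono_mem ρ Ω hΩ (DU_mul ρ Ω hΩ he hd)
    refine ⟨h _ (DU_sigN ρ Ω hΩ n z), ?_⟩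
    rw [← map_star]
    exact h _ (DU_star ρ Ω hΩ (DU_sigN ρ Ω hΩ n z))

theorem adjoin_le_MM {x : OpH Ω hΩ} (hx : x ∈ StarAlgebra.adjoin ℂ (gens ρ Ω hΩ)) :
    x ∈ MM ρ Ω hΩ := by
  have h : (∀ y ∈ MM ρ Ω hΩ, x * y ∈ MM ρ Ω hΩ) ∧ (∀ y ∈ MM ρ Ω hΩ, star x * y ∈ MM ρ Ω hΩ) := by
    refine StarAlgebra.adjoin_induction (p := fun x _ =>
      (∀ y ∈ MM ρ Ω hΩ, x * y ∈ MM ρ Ω hΩ) ∧ (∀ y ∈ MM ρ Ω hΩ, star x * y ∈ MM ρ Ω hΩ))
      ?_ ?_ ?_ ?_ ?_ hx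
    · intro a ha
      exact gens_mul_mem ρ Ω hΩ ha
    · intro r
      constructor
      · intro y hy
        rw [Algebra.algebraMap_eq_smul_one, smul_mul_assoc, one_mul]
        exact Submodule.smul_mem _ _ hy
      · intro y hy
        rw [Algebra.algebraMap_eq_smul_one, star_smul, star_one, smul_mul_assoc, one_mul]
        exact Submodule.smul_mem _ _ hy
    · rintro x y _ _ ⟨hx1, hx2⟩ ⟨hy1, hy2⟩
      constructor
      · intro z hz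
        rw [add_mul]
        exact Submodule.add_mem _ (hx1 z hz) (hy1 z hz)
      · intro z hz
        rw [star_add, add_mul]
        exact Submodule.add_mem _ (hx2 z hz) (hy2 z hz)
    · rintro x y _ _ ⟨hx1, hx2⟩ ⟨hy1, hy2⟩
      constructor
      · intro z hz
        rw [mul_assoc]
        exact hx1 _ (hy1 z hz)
      · intro z hz
        rw [star_mul, mul_assoc]
        exact hy2 _ (hx2 z hz)
    · rintro x _ ⟨hx1, hx2⟩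
      refine ⟨hx2, ?_⟩
      rw [star_star]
      exact hx1
  have := h.1 1 (one_mem_MM ρ Ω hΩ)
  rwa [mul_one] at this

/-- the algebra `B` -/
def BB : StarSubalgebra ℂ (OpH Ω hΩ) :=
  (StarAlgebra.adjoin ℂ (gens ρ Ω hΩ)).topologicalClosure

instance : IsClosed (BB ρ Ω hΩ : Set (OpH Ω hΩ)) :=
  (StarAlgebra.adjoin ℂ (gens ρ Ω hΩ)).isClosed_topologicalClosure

theorem mem_closure_MM {x : OpH Ω hΩ} (hx : x ∈ BB ρ Ω hΩ) :
    x ∈ closure (MM ρ Ω hΩ : Set (OpH Ω hΩ)) := by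
  have hx' : x ∈ closure (StarAlgebra.adjoin ℂ (gens ρ Ω hΩ) : Set (OpH Ω hΩ)) := by
    rw [← StarSubalgebra.topologicalClosure_coe]
    exact hx
  exact closure_mono (fun y hy => adjoin_le_MM ρ Ω hΩ hy) hx'

theorem gens_mem {x : OpH Ω hΩ} (hx : x ∈ gens ρ Ω hΩ) : x ∈ BB ρ Ω hΩ :=
  (StarAlgebra.adjoin ℂ (gens ρ Ω hΩ)).le_topologicalClosure (StarAlgebra.subset_adjoin ℂ _ hx)

theorem Sop_mem (k : F2) : Sop (LInf Ω hΩ) k ∈ BB ρ Ω hΩ := gens_mem ρ Ω hΩ (Or.inl ⟨k, rfl⟩)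

theorem Uop_mem (g : F2) : Uop (LInf Ω hΩ) g ∈ BB ρ Ω hΩ := gens_mem ρ Ω hΩ (Or.inr (Or.inl ⟨g, rfl⟩))

theorem dg_sigN_mem (n : ℕ) (z : Z) : dg Ω hΩ (sigN Ω hΩ n (pi0 ρ Ω hΩ z)) ∈ BB ρ Ω hΩ :=
  gens_mem ρ Ω hΩ (Or.inr (Or.inr ⟨n, z, rfl⟩))

theorem Wop_mem (α : List F2) : Wop (LInf Ω hΩ) α ∈ BB ρ Ω hΩ := by
  induction α with
  | nil => rw [Wop_nil]; exact one_mem _
  | cons k α ih => rw [Wop_cons]; exact mul_mem (Sop_mem ρ Ω hΩ k) ih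

end Pool.Agent.helper29
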