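import Pool.Agent.helper29.BExp

/-!
# The trace property of the vacuum vector
-/

open scoped InnerProductSpace ENNReal
open Filter

noncomputable section

namespace Pool.Agent.helper29

variable {Z : Type*} [CStarAlgebra Z]
variable {K : Type*} [NormedAddCommGroup K] [InnerProductSpace ℂ K] [CompleteSpace K]
variable (ρ : Z →⋆ₐ[ℂ] (K →L[ℂ] K)) (Ω : K) (hΩ : ‖Ω‖ = 1)

/-- the vector `Ω` is tracial -/
def IsTracialVec : Prop := ∀ z z' : Z, ⟪ρ z Ω, ρ z' Ω⟫_ℂ = ⟪ρ (star z') Ω, ρ (star z) Ω⟫_ℂ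

theorem prod_vac (z : Z) (e : OpL Ω hΩ) :
    (pi0 ρ Ω hΩ z * sig Ω hΩ e) (vac Ω hΩ) = (infTensor Ω hΩ).t (ρ z Ω) (e (vac Ω hΩ)) := by
  rw [← infTensor_vac]
  show (infTensor Ω hΩ).ampL (ρ z) ((infTensor Ω hΩ).ampR e ((infTensor Ω hΩ).t Ω (vac Ω hΩ))) = _
  rw [HTensor.ampR_t, HTensor.ampL_t, infTensor_vac]

theorem trace_DD (htr : IsTracialVec ρ Ω) (n : ℕ) : ∀ d ∈ DD ρ Ω hΩ n, ∀ d' ∈ DD ρ Ω hΩ n,
    ⟪d (vac Ω hΩ), d' (vac Ω hΩ)⟫_ℂ = ⟪(star d') (vac Ω hΩ), (star d) (vac Ω hΩ)⟫_ℂ := by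
  induction n with
  | zero =>
    intro d hd d' hd'
    obtain ⟨c, rfl⟩ := DD_zero_mem ρ Ω hΩ hd
    obtain ⟨c', rfl⟩ := DD_zero_mem ρ Ω hΩ hd'
    rw [star_smul, star_smul, star_one, smul_apply, smul_apply, smul_apply, smul_apply,
      inner_smul_left, inner_smul_left, inner_smul_right, inner_smul_right]
    simp
    ring
  | succ n ih =>
    intro d hd d' hd'
    have hd1 : d ∈ Submodule.span ℂ {x | ∃ z, ∃ d ∈ DD ρ Ω hΩ n, x = pi0 ρ Ω hΩ z * sig Ω hΩ d} := hd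
    have hd2 : d' ∈ Submodule.span ℂ {x | ∃ z, ∃ d ∈ DD ρ Ω hΩ n, x = pi0 ρ Ω hΩ z * sig Ω hΩ d} := hd'
    refine Submodule.span_induction₂ (p := fun d d' _ _ =>
      ⟪d (vac Ω hΩ), d' (vac Ω hΩ)⟫_ℂ = ⟪(star d') (vac Ω hΩ), (star d) (vac Ω hΩ)⟫_ℂ)
      ?_ ?_ ?_ ?_ ?_ ?_ ?_ hd1 hd2
    · rintro _ _ ⟨z, e, he, rfl⟩ ⟨z', e', he', rfl⟩
      have h1 : ∀ (z : Z) (e : OpL Ω hΩ), star (pi0 ρ Ω hΩ z * sig Ω hΩ e) =
          pi0 ρ Ω hΩ (star z) * sig Ω hΩ (star e) := by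
        intro z e
        rw [star_mul, ← map_star, ← map_star, ← pi0_comm]
      rw [h1, h1, prod_vac, prod_vac, prod_vac, prod_vac, HTensor.inner_t, HTensor.inner_t,
        htr z z', ih e he e' he']
    · intro y _
      simp
    · intro x _
      simp
    · intro x y z _ _ _ h1 h2
      rw [star_add, add_apply, add_apply, inner_add_left, inner_add_right, h1, h2]
    · intro x y z _ _ _ h1 h2
      rw [star_add, add_apply, add_apply, inner_add_left, inner_add_right, h1, h2]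
    · intro r x y _ _ h1
      rw [star_smul, smul_apply, smul_apply, inner_smul_left, inner_smul_right, h1]
      rfl
    · intro r x y _ _ h1
      rw [star_smul, smul_apply, smul_apply, inner_smul_left, inner_smul_right, h1]
      simp

theorem trace_closure (htr : IsTracialVec ρ Ω) {d : OpL Ω hΩ} (hd : d ∈ closure (DU ρ Ω hΩ)) :
    ‖d (vac Ω hΩ)‖ = ‖(star d) (vac Ω hΩ)‖ := by
  have hcl : IsClosed {d : OpL Ω hΩ | ‖d (vac Ω hΩ)‖ = ‖(star d) (vac Ω hΩ)‖} := by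
    apply isClosed_eq
    · exact continuous_norm.comp ((ContinuousLinearMap.apply ℂ _ (vac Ω hΩ)).continuous)
    · exact continuous_norm.comp (((ContinuousLinearMap.apply ℂ _ (vac Ω hΩ)).continuous).comp
        continuous_star)
  refine closure_minimal ?_ hcl hd
  rintro x ⟨n, hn⟩
  have h := trace_DD ρ Ω hΩ htr n x hn x hn
  rw [inner_self_eq_norm_sq_to_K, inner_self_eq_norm_sq_to_K] at h
  have h2 : ‖x (vac Ω hΩ)‖ ^ 2 = ‖(star x) (vac Ω hΩ)‖ ^ 2 := by exact_mod_cast h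
  exact (sq_eq_sq₀ (norm_nonneg _) (norm_nonneg _)).1 h2

theorem E0_mem_closure {x : OpH Ω hΩ} (hx : x ∈ BB ρ Ω hΩ) : E0 Ω hΩ x ∈ closure (DU ρ Ω hΩ) := by
  rw [Metric.mem_closure_iff]
  intro ε hε
  obtain ⟨k, d, hd, _, h2⟩ := exists_compress ρ Ω hΩ hx (ε := ε / 2) (by positivity)
  refine ⟨d, hd, ?_⟩
  rw [dist_eq_norm]
  linarith

theorem trace_E0 (htr : IsTracialVec ρ Ω) {x : OpH Ω hΩ} (hx : x ∈ BB ρ Ω hΩ) :
    ‖E0 Ω hΩ x (vac Ω hΩ)‖ = ‖E0 Ω hΩ (star x) (vac Ω hΩ)‖ := by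
  rw [E0_star]
  exact trace_closure ρ Ω hΩ htr (E0_mem_closure ρ Ω hΩ hx)

end Pool.Agent.helper29
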