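import Pool.Agent.helper29.CStarDefs

/-!
# Asymptotically central isometries in `𝒪_∞`

If `C` is a unital C*-algebra generated by isometries `T 0, T 1, ...` with mutually orthogonal
ranges, then `C` has asymptotically central sequences of isometries `s n`, `t n` with orthogonal
ranges. The isometries are explicit: with `Λ x = Σ_{i<N} T i x (T i)*`, `q = Λ 1`, `e = 1 - q` and
`m ≥ N`, put `R 0 = 0`, `R (a+1) = T m (q + √(a+1) e) + Λ (R a)`; then `(R a)* (R a) = a` and the
commutators of `R a` with `T i` and `(T i)*` are bounded independently of `a`.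
-/

open Filter Topology

noncomputable section

namespace Pool.Agent.helper29

variable {C : Type*} [CStarAlgebra C]

namespace Cuntz

variable (T : ℕ → C) (N : ℕ)

/-- `Λ x = Σ_{i<N} T i x (T i)*` -/
def Lam (x : C) : C := ∑ i ∈ Finset.range N, T i * x * star (T i)

theorem star_Lam (x : C) : star (Lam T N x) = Lam T N (star x) := by
  simp [Lam, star_sum, mul_assoc]

theorem Lam_add (x y : C) : Lam T N (x + y) = Lam T N x + Lam T N y := by
  simp [Lam, mul_add, add_mul, Finset.sum_add_distrib]

theorem Lam_sub (x y : C) : Lam T N (x - y) = Lam T N x - Lam T N y := by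
  simp [Lam, mul_sub, sub_mul, Finset.sum_sub_distrib]

theorem Lam_smul (r : ℝ) (x : C) : Lam T N (r • x) = r • Lam T N x := by
  simp [Lam, Finset.smul_sum]

variable {T} (hT : IsCuntzFamily T)
include hT

theorem Lam_mul_T (x : C) {i : ℕ} (hi : i < N) : Lam T N x * T i = T i * x := by
  rw [Lam, Finset.sum_mul, Finset.sum_eq_single i]
  · rw [mul_assoc, hT.iso, mul_one]
  · intro j _ hji
    rw [mul_assoc, hT.orth j i hji, mul_zero]
  · intro h
    exact absurd (Finset.mem_range.2 hi) h

theorem star_T_mul_Lam (x : C) {i : ℕ} (hi : i < N) : star (T i) * Lam T N x = x * star (T i) := by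
  have h := congrArg star (Lam_mul_T N hT (star x) hi)
  rw [star_mul, star_Lam, star_star, star_mul, star_star] at h
  exact h

theorem star_T_mul_Lam_zero (x : C) {m : ℕ} (hm : N ≤ m) : star (T m) * Lam T N x = 0 := by
  rw [Lam, Finset.mul_sum]
  apply Finset.sum_eq_zero
  intro i hi
  have : m ≠ i := by
    have := Finset.mem_range.1 hi
    omega
  rw [← mul_assoc, ← mul_assoc, hT.orth m i this, zero_mul, zero_mul]

theorem Lam_mul_T_zero (x : C) {m : ℕ} (hm : N ≤ m) : Lam T N x * T m = 0 := by
  have h := congrArg star (star_T_mul_Lam_zero N hT (star x) hm)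
  rw [star_mul, star_Lam, star_star, star_star, star_zero] at h
  exact h

theorem Lam_mul_Lam (x y : C) : Lam T N x * Lam T N y = Lam T N (x * y) := by
  have h1 : Lam T N x * Lam T N y =
      ∑ i ∈ Finset.range N, T i * x * star (T i) * Lam T N y := by
    conv_lhs => rw [Lam]
    rw [Finset.sum_mul]
  rw [h1]
  conv_rhs => rw [Lam]
  apply Finset.sum_congr rfl
  intro i hi
  rw [mul_assoc, star_T_mul_Lam N hT y (Finset.mem_range.1 hi)]
  noncomm_ring

omit hT in
variable (T) in
/-- the recursively defined elements -/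
def R (m : ℕ) : ℕ → C
  | 0 => 0
  | (a + 1) => T m * (Lam T N 1 + Real.sqrt (a + 1) • (1 - Lam T N 1)) + Lam T N (R m a)

theorem star_R_mul_R {m : ℕ} (hm : N ≤ m) (a : ℕ) :
    star (R T N m a) * R T N m a = (a : ℝ) • 1 := by
  induction a with
  | zero => simp [R]
  | succ a ih =>
    have hq : Lam T N 1 * Lam T N 1 = Lam T N 1 := by rw [Lam_mul_Lam N hT, mul_one]
    have hqs : star (Lam T N 1) = Lam T N 1 := by rw [star_Lam, star_one]
    set q := Lam T N 1 with hqdef
    obtain ⟨y, hy⟩ : ∃ y, y = q + Real.sqrt (a + 1) • (1 - q) := ⟨_, rfl⟩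
    have hys : star y = y := by simp [hy, hqs]
    have hyy : y * y = q + ((a:ℝ) + 1) • (1 - q) := by
      have h1 : Real.sqrt ((a:ℝ) + 1) * Real.sqrt ((a:ℝ) + 1) = (a:ℝ) + 1 :=
        Real.mul_self_sqrt (by positivity)
      have h2 : q * (1 - q) = 0 := by rw [mul_sub, hq, mul_one, sub_self]
      have h3 : (1 - q) * q = 0 := by rw [sub_mul, hq, one_mul, sub_self]
      have h4 : (1 - q) * (1 - q) = 1 - q := by rw [mul_sub, h3, mul_one, sub_zero]
      rw [hy, add_mul, mul_add, mul_add, hq, mul_smul_comm, h2, smul_zero, smul_mul_assoc, h3,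
        smul_zero, smul_mul_assoc, mul_smul_comm, h4, smul_smul, h1]
      simp
    have hR : R T N m (a + 1) = T m * y + Lam T N (R T N m a) := by rw [hy]; rfl
    rw [hR, star_add, star_mul, star_Lam, hys, add_mul, mul_add, mul_add]
    have e1 : y * star (T m) * (T m * y) = y * y := by
      rw [mul_assoc, ← mul_assoc (star (T m)), hT.iso, one_mul]
    have e2 : y * star (T m) * Lam T N (R T N m a) = 0 := by
      rw [mul_assoc, star_T_mul_Lam_zero N hT _ hm, mul_zero]
    have e3 : Lam T N (star (R T N m a)) * (T m * y) = 0 := by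
      rw [← mul_assoc, Lam_mul_T_zero N hT _ hm, zero_mul]
    rw [e1, e2, e3, Lam_mul_Lam N hT, ih, Lam_smul, ← hqdef, hyy]
    push_cast
    module

theorem star_R_mul_R_zero {m m' : ℕ} (hm : N ≤ m) (hm' : N ≤ m') (hmm' : m ≠ m') (a : ℕ) :
    star (R T N m a) * R T N m' a = 0 := by
  induction a with
  | zero => simp [R]
  | succ a ih =>
    have hqs : star (Lam T N 1) = Lam T N 1 := by rw [star_Lam, star_one]
    set q := Lam T N 1 with hqdef
    obtain ⟨y, hy⟩ : ∃ y, y = q + Real.sqrt (a + 1) • (1 - q) := ⟨_, rfl⟩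
    have hys : star y = y := by simp [hy, hqs]
    have hR : R T N m (a + 1) = T m * y + Lam T N (R T N m a) := by rw [hy]; rfl
    have hR' : R T N m' (a + 1) = T m' * y + Lam T N (R T N m' a) := by rw [hy]; rfl
    rw [hR, hR', star_add, star_mul, star_Lam, hys, add_mul, mul_add, mul_add]
    have e1 : y * star (T m) * (T m' * y) = 0 := by
      rw [mul_assoc, ← mul_assoc (star (T m)), hT.orth m m' hmm', zero_mul, mul_zero]
    have e2 : y * star (T m) * Lam T N (R T N m' a) = 0 := by
      rw [mul_assoc, star_T_mul_Lam_zero N hT _ hm, mul_zero]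
    have e3 : Lam T N (star (R T N m a)) * (T m' * y) = 0 := by
      rw [← mul_assoc, Lam_mul_T_zero N hT _ hm', zero_mul]
    rw [e1, e2, e3, Lam_mul_Lam N hT, ih]
    simp [Lam]

/-- the increments of `R` are contractions -/
theorem norm_increment {m : ℕ} (hm : N ≤ m) (a : ℕ) :
    ‖R T N m (a + 1) - R T N m a‖ ≤ 1 := by
  let _ := CStarAlgebra.spectralOrder C
  let _ := CStarAlgebra.spectralOrderedRing C
  have hq : Lam T N 1 * Lam T N 1 = Lam T N 1 := by rw [Lam_mul_Lam N hT, mul_one]
  have hqs : star (Lam T N 1) = Lam T N 1 := by rw [star_Lam, star_one]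
  have key : star (R T N m (a + 1) - R T N m a) * (R T N m (a + 1) - R T N m a) ≤ 1 := by
    induction a with
    | zero =>
      have h1 : R T N m (0 + 1) - R T N m 0 = T m := by
        simp [R, Lam]
      rw [h1, hT.iso]
    | succ a ih =>
      set q := Lam T N 1 with hqdef
      set c : ℝ := Real.sqrt ((a + 1 : ℕ) + 1) - Real.sqrt (a + 1) with hc
      set δ := R T N m (a + 1) - R T N m a with hδ
      have h1 : R T N m (a + 1 + 1) - R T N m (a + 1) = c • (T m * (1 - q)) + Lam T N δ := by
        show T m * (q + Real.sqrt ((a + 1 : ℕ) + 1) • (1 - q)) + Lam T N (R T N m (a + 1)) -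
          (T m * (q + Real.sqrt (a + 1) • (1 - q)) + Lam T N (R T N m a)) = _
        rw [hδ, Lam_sub, hc, sub_smul]
        simp only [mul_add, mul_smul_comm]
        abel
      have h4 : (1 - q) * (1 - q) = 1 - q := by
        have h3 : (1 - q) * q = 0 := by rw [sub_mul, hq, one_mul, sub_self]
        rw [mul_sub, h3, mul_one, sub_zero]
      have hc0 : 0 ≤ c := by
        rw [hc, sub_nonneg]
        apply Real.sqrt_le_sqrt
        push_cast
        linarith
      have hc1 : c ≤ 1 := by
        have h5 : Real.sqrt ((a + 1 : ℕ) + 1) ≤ Real.sqrt (a + 1) + 1 := by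
          rw [Real.sqrt_le_left (by positivity)]
          have h6 := Real.sq_sqrt (show (0:ℝ) ≤ (a:ℝ) + 1 by positivity)
          have h7 := Real.sqrt_nonneg ((a:ℝ) + 1)
          push_cast
          nlinarith
        rw [hc]; linarith
      have h2 : star (c • (T m * (1 - q)) + Lam T N δ) * (c • (T m * (1 - q)) + Lam T N δ) =
          (c * c) • (1 - q) + Lam T N (star δ * δ) := by
        clear_value c
        rw [star_add, star_smul, star_mul, star_Lam, star_sub, star_one, hqs, star_trivial,
          add_mul, mul_add, mul_add, Lam_mul_Lam N hT]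
        have e1 : c • ((1 - q) * star (T m)) * c • (T m * (1 - q)) = (c * c) • (1 - q) := by
          rw [smul_mul_assoc, mul_smul_comm, smul_smul, mul_assoc, ← mul_assoc (star (T m)),
            hT.iso, one_mul, h4]
        have e2 : c • ((1 - q) * star (T m)) * Lam T N δ = 0 := by
          rw [smul_mul_assoc, mul_assoc, star_T_mul_Lam_zero N hT _ hm, mul_zero, smul_zero]
        have e3 : Lam T N (star δ) * c • (T m * (1 - q)) = 0 := by
          rw [mul_smul_comm, ← mul_assoc, Lam_mul_T_zero N hT _ hm, zero_mul, smul_zero]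
        rw [e1, e2, e3]
        simp
      have h3 : Lam T N (star δ * δ) ≤ Lam T N 1 := by
        unfold Lam
        apply Finset.sum_le_sum
        intro i _
        exact star_right_conjugate_le_conjugate ih (T i)
      have h5 : 0 ≤ 1 - q := by
        have : 1 - q = star (1 - q) * (1 - q) := by rw [star_sub, star_one, hqs, h4]
        rw [this]
        exact star_mul_self_nonneg _
      rw [h1, h2]
      calc (c * c) • (1 - q) + Lam T N (star δ * δ) ≤ (1:ℝ) • (1 - q) + q := by
            apply add_le_add _ h3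
            exact smul_le_smul_of_nonneg_right (by nlinarith) h5
        _ = 1 := by simp
  have h0 : 0 ≤ star (R T N m (a + 1) - R T N m a) * (R T N m (a + 1) - R T N m a) :=
    star_mul_self_nonneg _
  have h1 := (CStarAlgebra.norm_le_one_iff_of_nonneg _ h0).2 key
  rw [CStarRing.norm_star_mul_self] at h1
  nlinarith [norm_nonneg (R T N m (a + 1) - R T N m a)]

theorem norm_T (i : ℕ) : ‖T i‖ ≤ 1 := by
  have h1 : ‖star (T i) * T i‖ ≤ 1 := by
    rw [hT.iso]
    rcases subsingleton_or_nontrivial C with h | h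
    · rw [Subsingleton.elim (1:C) 0, norm_zero]; exact zero_le_one
    · rw [CStarRing.norm_one]
  rw [CStarRing.norm_star_mul_self] at h1
  nlinarith [norm_nonneg (T i)]

omit hT in
variable (T) in
/-- the normalised elements -/
def S (m a : ℕ) : C := (Real.sqrt (a + 1))⁻¹ • R T N m (a + 1)

theorem star_S_mul_S {m : ℕ} (hm : N ≤ m) (a : ℕ) : star (S T N m a) * S T N m a = 1 := by
  have h := star_R_mul_R N hT hm (a + 1)
  have h0 : (0:ℝ) < (a:ℝ) + 1 := by positivity
  have h1 : (Real.sqrt ((a:ℝ) + 1))⁻¹ * (Real.sqrt ((a:ℝ) + 1))⁻¹ * ((a:ℝ) + 1) = 1 := by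
    rw [← mul_inv, Real.mul_self_sqrt h0.le, inv_mul_cancel₀ h0.ne']
  rw [S, star_smul, star_trivial, smul_mul_assoc, mul_smul_comm, h, smul_smul, smul_smul]
  push_cast
  rw [h1, one_smul]

theorem star_S_mul_S_zero {m m' : ℕ} (hm : N ≤ m) (hm' : N ≤ m') (hmm' : m ≠ m') (a : ℕ) :
    star (S T N m a) * S T N m' a = 0 := by
  rw [S, S, star_smul, star_trivial, smul_mul_assoc, mul_smul_comm,
    star_R_mul_R_zero N hT hm hm' hmm', smul_zero, smul_zero]

theorem norm_comm_T {m : ℕ} (hm : N ≤ m) (a : ℕ) {i : ℕ} (hi : i < N) :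
    ‖S T N m a * T i - T i * S T N m a‖ ≤ 2 * (Real.sqrt (a + 1))⁻¹ := by
  have h1 : Lam T N 1 * T i = T i := by rw [Lam_mul_T N hT _ hi, mul_one]
  have e1 : R T N m (a + 1) * T i - T i * R T N m (a + 1) =
      T m * T i - T i * (R T N m (a + 1) - R T N m a) := by
    have e2 : R T N m (a + 1) * T i = T m * T i + T i * R T N m a := by
      show (T m * (Lam T N 1 + Real.sqrt (a + 1) • (1 - Lam T N 1)) + Lam T N (R T N m a)) * T i = _
      rw [add_mul, Lam_mul_T N hT _ hi, mul_assoc, add_mul, h1, smul_mul_assoc, sub_mul, h1,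
        one_mul, sub_self, smul_zero, add_zero]
    rw [e2, mul_sub]; abel
  have h2 : ‖R T N m (a + 1) * T i - T i * R T N m (a + 1)‖ ≤ 2 := by
    rw [e1]
    calc ‖T m * T i - T i * (R T N m (a + 1) - R T N m a)‖
        ≤ ‖T m‖ * ‖T i‖ + ‖T i‖ * ‖R T N m (a + 1) - R T N m a‖ :=
          (norm_sub_le _ _).trans (add_le_add (norm_mul_le _ _) (norm_mul_le _ _))
      _ ≤ 1 * 1 + 1 * 1 := by
          have := norm_T hT i
          have := norm_T hT m
          have := norm_increment N hT hm a
          gcongr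
      _ = 2 := by norm_num
  have e3 : S T N m a * T i - T i * S T N m a =
      (Real.sqrt (a + 1))⁻¹ • (R T N m (a + 1) * T i - T i * R T N m (a + 1)) := by
    rw [S, smul_mul_assoc, mul_smul_comm, smul_sub]
  rw [e3, norm_smul, Real.norm_eq_abs, abs_of_nonneg (by positivity), mul_comm]
  gcongr

theorem norm_comm_star_T {m : ℕ} (hm : N ≤ m) (a : ℕ) {i : ℕ} (hi : i < N) :
    ‖S T N m a * star (T i) - star (T i) * S T N m a‖ ≤ 2 * (Real.sqrt (a + 1))⁻¹ := by
  have e1 : R T N m (a + 1) * star (T i) - star (T i) * R T N m (a + 1) =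
      (R T N m (a + 1) - R T N m a) * star (T i) := by
    have e2 : star (T i) * R T N m (a + 1) = R T N m a * star (T i) := by
      show star (T i) * (T m * (Lam T N 1 + Real.sqrt (a + 1) • (1 - Lam T N 1)) +
        Lam T N (R T N m a)) = _
      rw [mul_add, star_T_mul_Lam N hT _ hi, ← mul_assoc, hT.orth i m (by omega), zero_mul,
        zero_add]
    rw [e2, sub_mul]
  have h2 : ‖R T N m (a + 1) * star (T i) - star (T i) * R T N m (a + 1)‖ ≤ 2 := by
    rw [e1]
    calc ‖(R T N m (a + 1) - R T N m a) * star (T i)‖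
        ≤ ‖R T N m (a + 1) - R T N m a‖ * ‖star (T i)‖ := norm_mul_le _ _
      _ ≤ 1 * 1 := by
          have := norm_T hT i
          rw [norm_star]
          have := norm_increment N hT hm a
          gcongr
      _ ≤ 2 := by norm_num
  have e3 : S T N m a * star (T i) - star (T i) * S T N m a =
      (Real.sqrt (a + 1))⁻¹ • (R T N m (a + 1) * star (T i) - star (T i) * R T N m (a + 1)) := by
    rw [S, smul_mul_assoc, mul_smul_comm, smul_sub]
  rw [e3, norm_smul, Real.norm_eq_abs, abs_of_nonneg (by positivity), mul_comm]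
  gcongr

omit hT in
theorem tendsto_aux : Tendsto (fun n : ℕ => 2 * (Real.sqrt ((n:ℝ) + 1))⁻¹) atTop (𝓝 0) := by
  have h1 : Tendsto (fun n : ℕ => (n:ℝ) + 1) atTop atTop :=
    tendsto_atTop_add_const_right _ _ tendsto_natCast_atTop_atTop
  have h2 := (tendsto_inv_atTop_zero.comp (Real.tendsto_sqrt_atTop.comp h1)).const_mul 2
  simpa [Function.comp_def] using h2

omit hT in
/-- bounded sequences asymptotically commuting with the generators asymptotically commute with
everything -/
theorem tendsto_comm_of_gen {s : ℕ → C} (hs : ∀ n, ‖s n‖ ≤ 1) {G : Set C}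
    (hG : ∀ c ∈ G, Tendsto (fun n => s n * c - c * s n) atTop (𝓝 0))
    (hG' : ∀ c ∈ G, Tendsto (fun n => s n * star c - star c * s n) atTop (𝓝 0))
    (c : C) (hc : c ∈ (StarAlgebra.adjoin ℂ G).topologicalClosure) :
    Tendsto (fun n => s n * c - c * s n) atTop (𝓝 0) := by
  have h1 : ∀ c ∈ StarAlgebra.adjoin ℂ G, Tendsto (fun n => s n * c - c * s n) atTop (𝓝 0) := by
    intro c hc
    have hc' : c ∈ Algebra.adjoin ℂ (G ∪ star G) := by
      rw [← StarAlgebra.adjoin_toSubalgebra]; exact hc
    induction hc' using Algebra.adjoin_induction with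
    | mem x hx =>
      rcases hx with hx | hx
      · exact hG x hx
      · have := hG' (star x) hx
        simpa using this
    | algebraMap r =>
      have : ∀ n, s n * algebraMap ℂ C r - algebraMap ℂ C r * s n = 0 := by
        intro n
        rw [Algebra.commutes, sub_self]
      simp [this]
    | add x y hx hy ihx ihy =>
      have h2 := (ihx (by
        show x ∈ (StarAlgebra.adjoin ℂ G).toSubalgebra
        rw [StarAlgebra.adjoin_toSubalgebra]; exact hx)).add (ihy (by
        show y ∈ (StarAlgebra.adjoin ℂ G).toSubalgebra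
        rw [StarAlgebra.adjoin_toSubalgebra]; exact hy))
      rw [add_zero] at h2
      refine h2.congr (fun n => ?_)
      noncomm_ring
    | mul x y hx hy ihx ihy =>
      have h2 := ((ihx (by
        show x ∈ (StarAlgebra.adjoin ℂ G).toSubalgebra
        rw [StarAlgebra.adjoin_toSubalgebra]; exact hx)).mul_const y).add ((ihy (by
        show y ∈ (StarAlgebra.adjoin ℂ G).toSubalgebra
        rw [StarAlgebra.adjoin_toSubalgebra]; exact hy)).const_mul x)
      rw [zero_mul, mul_zero, add_zero] at h2
      refine h2.congr (fun n => ?_)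
      noncomm_ring
  have h2 : c ∈ closure ((StarAlgebra.adjoin ℂ G : StarSubalgebra ℂ C) : Set C) := by
    rw [← StarSubalgebra.topologicalClosure_coe]; exact hc
  rw [Metric.tendsto_nhds]
  intro ε hε
  obtain ⟨c', hc', hd⟩ := Metric.mem_closure_iff.1 h2 (ε / 4) (by positivity)
  have h3 := Metric.tendsto_nhds.1 (h1 c' hc') (ε / 4) (by positivity)
  filter_upwards [h3] with n hn
  rw [dist_zero_right] at hn ⊢
  rw [dist_eq_norm] at hd
  have e1 : s n * c - c * s n = (s n * c' - c' * s n) + s n * (c - c') - (c - c') * s n := by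
    noncomm_ring
  rw [e1]
  calc ‖(s n * c' - c' * s n) + s n * (c - c') - (c - c') * s n‖
      ≤ (‖s n * c' - c' * s n‖ + ‖s n‖ * ‖c - c'‖) + ‖c - c'‖ * ‖s n‖ :=
        (norm_sub_le _ _).trans (add_le_add ((norm_add_le _ _).trans
          (add_le_add le_rfl (norm_mul_le _ _))) (norm_mul_le _ _))
    _ ≤ (‖s n * c' - c' * s n‖ + 1 * ‖c - c'‖) + ‖c - c'‖ * 1 := by
        have := hs n
        gcongr
    _ < ε := by linarith

/-- the asymptotically central isometries with orthogonal ranges -/
theorem exists_central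
    (hgen : (StarAlgebra.adjoin ℂ (Set.range T)).topologicalClosure = ⊤) :
    ∃ s t : ℕ → C, (∀ n, star (s n) * s n = 1) ∧ (∀ n, star (t n) * t n = 1) ∧
      (∀ n, star (s n) * t n = 0) ∧
      (∀ c, Tendsto (fun n => s n * c - c * s n) atTop (𝓝 0)) ∧
      (∀ c, Tendsto (fun n => t n * c - c * t n) atTop (𝓝 0)) := by
  have key : ∀ (f : ℕ → ℕ), (∀ n, n ≤ f n) → ∀ c,
      Tendsto (fun n => S T n (f n) n * c - c * S T n (f n) n) atTop (𝓝 0) := by
    intro f hf c
    apply tendsto_comm_of_gen (G := Set.range T)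
    · intro n
      have h1 : ‖star (S T n (f n) n) * S T n (f n) n‖ ≤ 1 := by
        rw [star_S_mul_S n hT (hf n)]
        rcases subsingleton_or_nontrivial C with h | h
        · rw [Subsingleton.elim (1:C) 0, norm_zero]; exact zero_le_one
        · rw [CStarRing.norm_one]
      rw [CStarRing.norm_star_mul_self] at h1
      nlinarith [norm_nonneg (S T n (f n) n)]
    · rintro _ ⟨i, rfl⟩
      apply squeeze_zero_norm' _ tendsto_aux
      filter_upwards [eventually_gt_atTop i] with n hn
      exact norm_comm_T n hT (hf n) n hn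
    · rintro _ ⟨i, rfl⟩
      apply squeeze_zero_norm' _ tendsto_aux
      filter_upwards [eventually_gt_atTop i] with n hn
      exact norm_comm_star_T n hT (hf n) n hn
    · rw [hgen]; trivial
  refine ⟨fun n => S T n n n, fun n => S T n (n + 1) n, fun n => star_S_mul_S n hT le_rfl n,
    fun n => star_S_mul_S n hT (Nat.le_succ n) n,
    fun n => star_S_mul_S_zero n hT le_rfl (Nat.le_succ n) (by omega) n,
    key (fun n => n) (fun _ => le_rfl), key (fun n => n + 1) (fun n => Nat.le_succ n)⟩

end Cuntz

end Pool.Agent.helper29
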