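import Pool.Agent.helper29.BAlg
import Pool.Agent.helper29.CStarDefs

/-!
# Existence of `𝒪_∞`
-/

open scoped InnerProductSpace ENNReal

noncomputable section

namespace Pool.Agent.helper29

variable {A : Type*} [CStarAlgebra A]

/-- the algebra generated by a family -/
def genAlg (T : ℕ → A) : StarSubalgebra ℂ A :=
  (StarAlgebra.adjoin ℂ (Set.range T)).topologicalClosure

instance (T : ℕ → A) : IsClosed (genAlg T : Set A) :=
  (StarAlgebra.adjoin ℂ (Set.range T)).isClosed_topologicalClosure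

theorem genAlg_isCuntz [Nontrivial A] {T : ℕ → A} (hT : IsCuntzFamily T) :
    IsCuntzInfinity (genAlg T) := by
  have hmem : ∀ n, T n ∈ genAlg T := fun n =>
    (StarAlgebra.adjoin ℂ (Set.range T)).le_topologicalClosure
      (StarAlgebra.subset_adjoin ℂ _ ⟨n, rfl⟩)
  refine ⟨⟨1, 0, fun h => one_ne_zero (congrArg Subtype.val h)⟩, fun n => ⟨T n, hmem n⟩, ⟨?_, ?_⟩, ?_⟩
  · intro i
    exact Subtype.ext (hT.iso i)
  · intro i j hij
    exact Subtype.ext (hT.orth i j hij)
  · rw [eq_top_iff]
    intro y _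
    rw [← SetLike.mem_coe, StarSubalgebra.topologicalClosure_coe, closure_subtype]
    have h1 : StarAlgebra.adjoin ℂ (Set.range T) ≤
        (StarAlgebra.adjoin ℂ (Set.range (fun n => (⟨T n, hmem n⟩ : genAlg T)))).map
          (genAlg T).subtype := by
      apply StarAlgebra.adjoin_le
      rintro _ ⟨n, rfl⟩
      exact ⟨⟨T n, hmem n⟩, StarAlgebra.subset_adjoin ℂ _ ⟨n, rfl⟩, rfl⟩
    have hy : (y : A) ∈ closure (StarAlgebra.adjoin ℂ (Set.range T) : Set A) := by
      rw [← StarSubalgebra.topologicalClosure_coe]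
      exact y.2
    exact closure_mono (fun x hx => h1 hx) hy

/-- the Cuntz algebra exists -/
theorem exists_cuntz : ∃ (O : Type) (_ : CStarAlgebra O), IsCuntzInfinity O := by
  have hT : IsCuntzFamily (fun n : ℕ => Sop ℂ (Infinite.natEmbedding F2 n)) := by
    constructor
    · intro i; exact star_Sop_mul_Sop _
    · intro i j hij
      apply star_Sop_mul_Sop_ne
      intro h
      exact hij ((Infinite.natEmbedding F2).injective h)
  have : Nontrivial (L2 XX ℂ →L[ℂ] L2 XX ℂ) := by
    refine ⟨1, 0, fun h => ?_⟩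
    have h1 := congrArg (fun f => f (lp.single 2 x0 1)) h
    have h2 : (lp.single 2 x0 (1 : ℂ) : L2 XX ℂ) = 0 := h1
    have h3 := lp.norm_single (p := 2) (by norm_num) (E := fun _ : XX => ℂ) x0 (1 : ℂ)
    rw [h2, norm_zero] at h3
    simp at h3
  exact ⟨genAlg (fun n : ℕ => Sop ℂ (Infinite.natEmbedding F2 n)), inferInstance, genAlg_isCuntz hT⟩

end Pool.Agent.helper29
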