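import Pool.Agent.helper29.CStarDefs

/-!
# Excision in simple unital C*-algebras

For a simple unital C*-algebra `A`, finitely many self-adjoint elements `z`, and `ε > 0`, there are
`a_1, ..., a_n` with `Σ a_i* a_i = 1` such that `Σ a_i* z a_i` is within `ε` of a scalar for all
these `z`; moreover for one prescribed self-adjoint element the scalar can be taken within `ε`
of the top of its spectrum.
-/

noncomputable section

namespace Pool.Agent.helper29

section top

variable {A : Type*} [CStarAlgebra A] [PartialOrder A] [StarOrderedRing A]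

/-- top of the real spectrum -/
def top (y : A) : ℝ := sSup (spectrum ℝ y)

theorem top_mem [Nontrivial A] {y : A} (hy : IsSelfAdjoint y) : top y ∈ spectrum ℝ y :=
  (ContinuousFunctionalCalculus.isCompact_spectrum y).sSup_mem
    (ContinuousFunctionalCalculus.spectrum_nonempty y hy)

theorem le_top_of_mem {y : A} (hy : IsSelfAdjoint y) {t : ℝ} (ht : t ∈ spectrum ℝ y) :
    t ≤ top y :=
  le_csSup (ContinuousFunctionalCalculus.isCompact_spectrum y).bddAbove ht

theorem le_top {y : A} (hy : IsSelfAdjoint y) : y ≤ algebraMap ℝ A (top y) :=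
  (le_algebraMap_iff_spectrum_le (ha := hy)).2 (fun _ ht => le_top_of_mem hy ht)

theorem top_le [Nontrivial A] {y : A} (hy : IsSelfAdjoint y) {c : ℝ} (h : y ≤ algebraMap ℝ A c) :
    top y ≤ c :=
  (le_algebraMap_iff_spectrum_le (ha := hy)).1 h _ (top_mem hy)

/-- bump function -/
def bump (m δ t : ℝ) : ℝ := max 0 (min 1 ((t - (m - δ)) / δ))

theorem continuous_bump (m δ : ℝ) : Continuous (bump m δ) := by
  unfold bump; fun_prop

theorem bump_nonneg (m δ t : ℝ) : 0 ≤ bump m δ t := le_max_left _ _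

theorem bump_le_one (m δ t : ℝ) : bump m δ t ≤ 1 := max_le zero_le_one (min_le_left _ _)

theorem bump_self (m : ℝ) {δ : ℝ} (hδ : 0 < δ) : bump m δ m = 1 := by
  have : (m - (m - δ)) / δ = 1 := by field_simp; ring
  rw [bump, this]; simp

theorem bump_eq_zero (m : ℝ) {δ t : ℝ} (hδ : 0 < δ) (ht : t ≤ m - δ) : bump m δ t = 0 := by
  have h1 : (t - (m - δ)) / δ ≤ 0 := div_nonpos_of_nonpos_of_nonneg (by linarith) hδ.le
  rw [bump, max_eq_left]
  exact (min_le_right _ _).trans h1

theorem bump_mul_lower (m : ℝ) {δ : ℝ} (hδ : 0 < δ) (t : ℝ) :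
    (m - δ) * (bump m δ t * bump m δ t) ≤ bump m δ t * t * bump m δ t := by
  rcases le_or_gt t (m - δ) with h | h
  · rw [bump_eq_zero m hδ h]; simp
  · have := mul_le_mul_of_nonneg_right h.le (mul_nonneg (bump_nonneg m δ t) (bump_nonneg m δ t))
    linarith

theorem bump_mul_upper (m : ℝ) (δ : ℝ) {t : ℝ} (ht : t ≤ m) :
    bump m δ t * t * bump m δ t ≤ m * (bump m δ t * bump m δ t) := by
  have := mul_le_mul_of_nonneg_right ht (mul_nonneg (bump_nonneg m δ t) (bump_nonneg m δ t))
  linarith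

variable [Nontrivial A]

/-- the spectral bump at the top of the spectrum -/
theorem exists_bump {y : A} (hy : IsSelfAdjoint y) {δ : ℝ} (hδ : 0 < δ) :
    ∃ f : A, 0 ≤ f ∧ f ≤ 1 ∧ ‖f‖ = 1 ∧ (top y - δ) • (f * f) ≤ f * y * f ∧
      f * y * f ≤ top y • (f * f) := by
  set g := bump (top y) δ with hg
  have hgc : Continuous g := continuous_bump _ _
  refine ⟨cfc g y, ?_, ?_, ?_, ?_, ?_⟩
  · exact cfc_nonneg (fun t _ => bump_nonneg _ _ t)
  · exact cfc_le_one _ _ (fun t _ => bump_le_one _ _ t)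
  · have h0 : (0:A) ≤ cfc g y := cfc_nonneg (fun t _ => bump_nonneg _ _ t)
    apply le_antisymm
    · exact (CStarAlgebra.norm_le_one_iff_of_nonneg _ h0).2
        (cfc_le_one _ _ (fun t _ => bump_le_one _ _ t))
    · have h1 : (1:ℝ) ∈ spectrum ℝ (cfc g y) := by
        rw [cfc_map_spectrum g y hy hgc.continuousOn]
        exact ⟨top y, top_mem hy, bump_self _ hδ⟩
      have := spectrum.norm_le_norm_of_mem h1
      simpa using this
  · have e1 : cfc g y * cfc g y = cfc (fun t => g t * g t) y :=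
      (cfc_mul g g y hgc.continuousOn hgc.continuousOn).symm
    have e2 : cfc g y * y * cfc g y = cfc (fun t => g t * t * g t) y := by
      rw [cfc_mul (fun t => g t * t) g y (by fun_prop) hgc.continuousOn,
        cfc_mul g (fun t => t) y hgc.continuousOn (by fun_prop), cfc_id' ℝ y hy]
    rw [e1, e2, ← cfc_smul (top y - δ) (fun t => g t * g t) y (by fun_prop)]
    apply cfc_mono (fun t _ => ?_) (by fun_prop) (by fun_prop)
    simpa using bump_mul_lower (top y) hδ t
  · have e1 : cfc g y * cfc g y = cfc (fun t => g t * g t) y :=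
      (cfc_mul g g y hgc.continuousOn hgc.continuousOn).symm
    have e2 : cfc g y * y * cfc g y = cfc (fun t => g t * t * g t) y := by
      rw [cfc_mul (fun t => g t * t) g y (by fun_prop) hgc.continuousOn,
        cfc_mul g (fun t => t) y hgc.continuousOn (by fun_prop), cfc_id' ℝ y hy]
    rw [e1, e2, ← cfc_smul (top y) (fun t => g t * g t) y (by fun_prop)]
    apply cfc_mono (fun t ht => ?_) (by fun_prop) (by fun_prop)
    simpa using bump_mul_upper (top y) δ (le_top_of_mem hy ht)

end top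

section step

variable {A : Type*} [CStarAlgebra A] [PartialOrder A] [StarOrderedRing A] [Nontrivial A]

theorem conj_mono {f x y : A} (hf : IsSelfAdjoint f) (h : x ≤ y) : f * x * f ≤ f * y * f :=
  hf.conjugate_le_conjugate h

theorem norm_le_of_two_sided {x : A} {c : ℝ} (hc : 0 ≤ c) (hx : IsSelfAdjoint x)
    (h1 : -algebraMap ℝ A c ≤ x) (h2 : x ≤ algebraMap ℝ A c) : ‖x‖ ≤ c := by
  rcases CStarAlgebra.norm_or_neg_norm_mem_spectrum (a := x) hx with h | h
  · exact (le_algebraMap_iff_spectrum_le (ha := hx)).1 h2 _ h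
  · have h3 : algebraMap ℝ A (-c) ≤ x := by rw [map_neg]; exact h1
    have := (algebraMap_le_iff_le_spectrum (ha := hx)).1 h3 _ h
    linarith

/-- one step: cut down a positive norm one element `e` so that `z` becomes almost scalar -/
theorem excision_step {e z : A} (he0 : 0 ≤ e) (he1 : e ≤ 1) (hen : ‖e‖ = 1)
    (hz : IsSelfAdjoint z) {ε : ℝ} (hε : 0 < ε) :
    ∃ f : A, 0 ≤ f ∧ f ≤ 1 ∧ ‖f‖ = 1 ∧ ‖(1 - e) * f‖ ≤ ε ∧
      ∃ s : ℝ, ‖f * z * f - s • (f * f)‖ ≤ ε := by
  have hesa : IsSelfAdjoint e := .of_nonneg he0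
  have h1e : 0 ≤ 1 - e := sub_nonneg.2 he1
  -- the auxiliary elements
  set y : ℝ → A := fun N => z - N • (1 - e) with hy
  have hysa : ∀ N, IsSelfAdjoint (y N) := fun N =>
    hz.sub ((IsSelfAdjoint.all N).smul ((IsSelfAdjoint.one A).sub hesa))
  set m : ℝ → ℝ := fun N => top (y N) with hm
  -- lower bound
  have hlow : ∀ N, 0 < N → -‖z‖ ≤ m N := by
    intro N hN
    have h1 : y N ≤ algebraMap ℝ A (m N) := le_top (hysa N)
    have h2 : N • e ≤ algebraMap ℝ A (m N + N + ‖z‖) := by
      have h3 : N • e = y N - z + algebraMap ℝ A N := by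
        simp only [hy, Algebra.algebraMap_eq_smul_one, smul_sub]
        abel
      have h4 : -z ≤ algebraMap ℝ A ‖z‖ := by
        have := hz.neg_algebraMap_norm_le_self
        rwa [neg_le] at this
      rw [h3, map_add, map_add]
      calc y N - z + algebraMap ℝ A N = y N + algebraMap ℝ A N + (-z) := by abel
        _ ≤ algebraMap ℝ A (m N) + algebraMap ℝ A N + algebraMap ℝ A ‖z‖ := by
            gcongr
    have h5 : (0:A) ≤ N • e := smul_nonneg hN.le he0
    have h6 : ‖N • e‖ = N := by rw [norm_smul, hen, Real.norm_eq_abs, abs_of_pos hN, mul_one]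
    have h7 : 0 ≤ m N + N + ‖z‖ := by
      by_contra hneg
      rw [not_le] at hneg
      have h8 : (0:A) ≤ algebraMap ℝ A (m N + N + ‖z‖) := h5.trans h2
      have h9 := (algebraMap_le_iff_le_spectrum (r := (0:ℝ))
        (a := algebraMap ℝ A (m N + N + ‖z‖))).1 (by simpa using h8) (m N + N + ‖z‖)
        (by rw [CFC.spectrum_algebraMap_eq]; rfl)
      linarith
    have h8 := (CStarAlgebra.norm_le_iff_le_algebraMap (N • e) h7 h5).2 h2
    rw [h6] at h8
    linarith
  -- antitone
  have hanti : ∀ N N', N ≤ N' → m N' ≤ m N := by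
    intro N N' h
    apply top_le (hysa N')
    refine le_trans ?_ (le_top (hysa N))
    have h1 : N • (1 - e) ≤ N' • (1 - e) := smul_le_smul_of_nonneg_right h h1e
    exact sub_le_sub_left h1 z
  -- choose the scale
  set η : ℝ := min (ε / 5) (ε ^ 2 / 2) with hη
  have hη0 : 0 < η := by positivity
  have hη1 : η ≤ ε / 5 := min_le_left _ _
  have hη2 : η ≤ ε ^ 2 / 2 := min_le_right _ _
  obtain ⟨n, hn⟩ : ∃ n : ℕ, m (2 ^ n) - m (2 ^ (n + 1)) ≤ η := by
    by_contra hcon
    simp only [not_exists, not_le] at hcon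
    have h1 : ∀ n : ℕ, m (2 ^ n) ≤ m 1 - n * η := by
      intro n
      induction n with
      | zero => simp
      | succ n ih =>
        have := hcon n
        push_cast
        linarith
    obtain ⟨n, hn⟩ := exists_nat_gt ((m 1 + ‖z‖) / η)
    rw [div_lt_iff₀ hη0] at hn
    have h2 := h1 n
    have h3 := hlow (2 ^ n) (by positivity)
    linarith
  set N : ℝ := 2 ^ n with hN
  have hN1 : 1 ≤ N := one_le_pow₀ (by norm_num)
  have hN2 : (2:ℝ) ^ (n + 1) = 2 * N := by rw [pow_succ]; ring
  rw [hN2] at hn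
  obtain ⟨f, hf0, hf1, hfn, hfl, hfu⟩ := exists_bump (hysa (2 * N)) hη0
  have hfsa : IsSelfAdjoint f := .of_nonneg hf0
  have hff : f * f ≤ 1 := by
    have := conj_mono hfsa hf1
    have h2 : f * 1 * f ≤ 1 := by
      have h3 : ‖f * f‖ ≤ 1 := (norm_mul_le f f).trans (by rw [hfn]; norm_num)
      have h4 : 0 ≤ f * f := by simpa [hfsa.star_eq] using star_mul_self_nonneg f
      have := (CStarAlgebra.norm_le_one_iff_of_nonneg _ h4).1 h3
      simpa using this
    simpa using h2
  have hff0 : 0 ≤ f * f := by simpa [hfsa.star_eq] using star_mul_self_nonneg f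
  set M : ℝ := m (2 * N) with hM
  have hmN : m N ≤ M + η := by linarith
  -- `N f (1-e) f ≤ 2 η f f`
  have hkey : N • (f * (1 - e) * f) ≤ (2 * η) • (f * f) := by
    have h1 : N • (f * (1 - e) * f) = f * y N * f - f * y (2 * N) * f := by
      simp only [hy, mul_sub, sub_mul, mul_smul_comm, smul_mul_assoc, smul_sub, mul_smul]
      module
    have h2 : f * y N * f ≤ (M + η) • (f * f) := by
      have h3 := conj_mono hfsa (le_top (hysa N))
      have h4 : f * algebraMap ℝ A (m N) * f = m N • (f * f) := by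
        rw [Algebra.algebraMap_eq_smul_one]; simp
      rw [h4] at h3
      exact h3.trans (smul_le_smul_of_nonneg_right hmN hff0)
    calc N • (f * (1 - e) * f) = f * y N * f - f * y (2 * N) * f := h1
      _ ≤ (M + η) • (f * f) - (M - η) • (f * f) := sub_le_sub h2 hfl
      _ = (2 * η) • (f * f) := by module
  have hpos : 0 ≤ f * (1 - e) * f := by
    have := conj_mono hfsa h1e
    simpa using this
  have hkey1 : f * (1 - e) * f ≤ (2 * η) • (1 : A) := by
    calc f * (1 - e) * f = (1:ℝ) • (f * (1 - e) * f) := by simp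
      _ ≤ N • (f * (1 - e) * f) := smul_le_smul_of_nonneg_right hN1 hpos
      _ ≤ (2 * η) • (f * f) := hkey
      _ ≤ (2 * η) • (1 : A) := smul_le_smul_of_nonneg_left hff (by positivity)
  refine ⟨f, hf0, hf1, hfn, ?_, M, ?_⟩
  · -- norm of (1 - e) f
    have h1 : ‖(1 - e) * f‖ ^ 2 = ‖f * ((1 - e) * (1 - e)) * f‖ := by
      rw [sq, ← CStarRing.norm_star_mul_self]
      congr 1
      rw [star_mul, hfsa.star_eq, ((IsSelfAdjoint.one A).sub hesa).star_eq]
      noncomm_ring
    have h2 : (1 - e) * (1 - e) ≤ 1 - e := by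
      have h3 : (1 - e) * (1 - e) = (1 - e) - e * (1 - e) := by noncomm_ring
      have h4 : 0 ≤ e * (1 - e) := by
        have hc : Commute e (1 - e) := (Commute.one_right e).sub_right (Commute.refl e)
        exact hc.mul_nonneg he0 h1e
      rw [h3]
      exact sub_le_self _ h4
    have h3 : 0 ≤ f * ((1 - e) * (1 - e)) * f := by
      have : 0 ≤ (1 - e) * (1 - e) := by
        simpa [((IsSelfAdjoint.one A).sub hesa).star_eq] using star_mul_self_nonneg (1 - e)
      have := conj_mono hfsa this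
      simpa using this
    have h4 : f * ((1 - e) * (1 - e)) * f ≤ algebraMap ℝ A (2 * η) := by
      rw [Algebra.algebraMap_eq_smul_one]
      exact (conj_mono hfsa h2).trans hkey1
    have h5 := (CStarAlgebra.norm_le_iff_le_algebraMap _ (by positivity) h3).2 h4
    have h6 : ‖(1 - e) * f‖ ^ 2 ≤ ε ^ 2 := by rw [h1]; linarith
    exact (sq_le_sq₀ (norm_nonneg _) hε.le).1 h6
  · -- norm of f z f - M f f
    have h1 : f * z * f = f * y (2 * N) * f + (2 * N) • (f * (1 - e) * f) := by
      simp only [hy, mul_sub, sub_mul, mul_smul_comm, smul_mul_assoc, smul_sub]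
      module
    have h2 : (2 * N) • (f * (1 - e) * f) ≤ (4 * η) • (f * f) := by
      have : (2 * N) • (f * (1 - e) * f) = (2:ℝ) • (N • (f * (1 - e) * f)) := by
        rw [smul_smul]
      rw [this]
      calc (2:ℝ) • (N • (f * (1 - e) * f)) ≤ (2:ℝ) • ((2 * η) • (f * f)) :=
            smul_le_smul_of_nonneg_left hkey (by norm_num)
        _ = (4 * η) • (f * f) := by rw [smul_smul]; ring_nf
    have h3 : 0 ≤ (2 * N) • (f * (1 - e) * f) := smul_nonneg (by positivity) hpos
    have hsa : IsSelfAdjoint (f * z * f - M • (f * f)) := by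
      have h4 : IsSelfAdjoint (f * z * f) := by
        have := hz.conjugate f
        rwa [hfsa.star_eq] at this
      have h5 : IsSelfAdjoint (f * f) := .of_nonneg hff0
      exact h4.sub ((IsSelfAdjoint.all M).smul h5)
    have hup : f * z * f - M • (f * f) ≤ algebraMap ℝ A ε := by
      calc f * z * f - M • (f * f)
          ≤ (M • (f * f) + (4 * η) • (f * f)) - M • (f * f) := by
            rw [h1]; exact sub_le_sub_right (add_le_add hfu h2) _
        _ = (4 * η) • (f * f) := by abel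
        _ ≤ (4 * η) • (1 : A) := smul_le_smul_of_nonneg_left hff (by positivity)
        _ ≤ ε • (1 : A) := smul_le_smul_of_nonneg_right (by linarith) zero_le_one
        _ = algebraMap ℝ A ε := (Algebra.algebraMap_eq_smul_one _).symm
    have hlo : -algebraMap ℝ A ε ≤ f * z * f - M • (f * f) := by
      calc -algebraMap ℝ A ε = -(ε • (1 : A)) := by rw [Algebra.algebraMap_eq_smul_one]
        _ ≤ -(η • (1 : A)) :=
            neg_le_neg (smul_le_smul_of_nonneg_right (by linarith) zero_le_one)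
        _ ≤ -(η • (f * f)) := neg_le_neg (smul_le_smul_of_nonneg_left hff hη0.le)
        _ = (M - η) • (f * f) - M • (f * f) := by module
        _ ≤ f * y (2 * N) * f - M • (f * f) := sub_le_sub_right hfl _
        _ ≤ f * z * f - M • (f * f) := by
            rw [h1]; exact sub_le_sub_right (le_add_of_nonneg_right h3) _
    exact norm_le_of_two_sided hε.le hsa hlo hup

omit [Nontrivial A] in
theorem norm_mul_three_le {a b c : A} {α β γ : ℝ} (ha : ‖a‖ ≤ α) (hb : ‖b‖ ≤ β) (hc : ‖c‖ ≤ γ) :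
    ‖a * b * c‖ ≤ α * β * γ := by
  have hα : 0 ≤ α := (norm_nonneg a).trans ha
  have hβ : 0 ≤ β := (norm_nonneg b).trans hb
  have hγ : 0 ≤ γ := (norm_nonneg c).trans hc
  calc ‖a * b * c‖ ≤ ‖a * b‖ * ‖c‖ := norm_mul_le _ _
    _ ≤ (‖a‖ * ‖b‖) * ‖c‖ := by gcongr; exact norm_mul_le _ _
    _ ≤ α * β * γ := by gcongr

omit [Nontrivial A] in
theorem preserve {e f z : A} {s ε₁ ε₂ : ℝ} (he0 : 0 ≤ e) (he1 : ‖e‖ ≤ 1)
    (hf0 : 0 ≤ f) (hf1 : ‖f‖ ≤ 1)
    (h1 : ‖e * z * e - s • (e * e)‖ ≤ ε₁) (h2 : ‖(1 - e) * f‖ ≤ ε₂) :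
    ‖f * z * f - s • (f * f)‖ ≤ ε₁ + 2 * (‖z‖ + |s|) * ε₂ := by
  have hesa : IsSelfAdjoint e := .of_nonneg he0
  have hfsa : IsSelfAdjoint f := .of_nonneg hf0
  have h3 : ‖f * (1 - e)‖ ≤ ε₂ := by
    rw [← norm_star, star_mul, ((IsSelfAdjoint.one A).sub hesa).star_eq, hfsa.star_eq]
    exact h2
  have hε : 0 ≤ ε₂ := (norm_nonneg _).trans h2
  have e1 : f * z * f - s • (f * f) = (f * (1 - e)) * z * f + (f * e) * z * ((1 - e) * f) +
      f * (e * z * e - s • (e * e)) * f - s • ((f * (1 - e)) * 1 * f + (f * 1) * e * ((1 - e) * f)) := by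
    simp only [mul_sub, sub_mul, mul_one, one_mul, smul_sub, smul_add, mul_smul_comm,
      smul_mul_assoc, mul_assoc]
    abel
  have hfe : ‖f * e‖ ≤ 1 := (norm_mul_le _ _).trans (by nlinarith [norm_nonneg f, norm_nonneg e])
  have hone : ‖f * 1‖ ≤ 1 := by simpa using hf1
  have n1 : ‖(f * (1 - e)) * z * f‖ ≤ ε₂ * ‖z‖ * 1 := norm_mul_three_le h3 le_rfl hf1
  have n2 : ‖(f * e) * z * ((1 - e) * f)‖ ≤ 1 * ‖z‖ * ε₂ := norm_mul_three_le hfe le_rfl h2
  have n3 : ‖f * (e * z * e - s • (e * e)) * f‖ ≤ 1 * ε₁ * 1 := norm_mul_three_le hf1 h1 hf1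
  have n4 : ‖(f * (1 - e)) * 1 * f‖ ≤ ε₂ := by
    rw [mul_one]
    calc ‖f * (1 - e) * f‖ ≤ ‖f * (1 - e)‖ * ‖f‖ := norm_mul_le _ _
      _ ≤ ε₂ * 1 := by gcongr
      _ = ε₂ := mul_one _
  have n5 : ‖(f * 1) * e * ((1 - e) * f)‖ ≤ 1 * 1 * ε₂ := norm_mul_three_le hone he1 h2
  have n6 : ‖s • ((f * (1 - e)) * 1 * f + (f * 1) * e * ((1 - e) * f))‖ ≤ |s| * (ε₂ + 1 * 1 * ε₂) := by
    rw [norm_smul, Real.norm_eq_abs]
    gcongr
    exact (norm_add_le _ _).trans (add_le_add n4 n5)
  rw [e1]
  calc _ ≤ ‖(f * (1 - e)) * z * f + (f * e) * z * ((1 - e) * f) +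
      f * (e * z * e - s • (e * e)) * f‖ +
        ‖s • ((f * (1 - e)) * 1 * f + (f * 1) * e * ((1 - e) * f))‖ := norm_sub_le _ _
    _ ≤ (ε₂ * ‖z‖ * 1 + 1 * ‖z‖ * ε₂ + 1 * ε₁ * 1) + |s| * (ε₂ + 1 * 1 * ε₂) := by
        gcongr
        exact (norm_add_le _ _).trans (add_le_add ((norm_add_le _ _).trans (add_le_add n1 n2)) n3)
    _ = ε₁ + 2 * (‖z‖ + |s|) * ε₂ := by ring

theorem excision_list (l : List A) (hl : ∀ z ∈ l, IsSelfAdjoint z) :
    ∀ e : A, 0 ≤ e → e ≤ 1 → ‖e‖ = 1 → ∀ ε > 0, ∃ f : A, 0 ≤ f ∧ f ≤ 1 ∧ ‖f‖ = 1 ∧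
      ‖(1 - e) * f‖ ≤ ε ∧ ∀ z ∈ l, ∃ s : ℝ, ‖f * z * f - s • (f * f)‖ ≤ ε := by
  induction l with
  | nil =>
    intro e he0 he1 hen ε hε
    obtain ⟨f, h1, h2, h3, h4, -⟩ := excision_step he0 he1 hen (IsSelfAdjoint.zero A) hε
    exact ⟨f, h1, h2, h3, h4, by simp⟩
  | cons z l ih =>
    intro e he0 he1 hen ε hε
    obtain ⟨f₁, g0, g1, gn, gl, s, gs⟩ :=
      excision_step he0 he1 hen (hl z (by simp)) (show 0 < ε / 2 by positivity)
    set ε₂ : ℝ := ε / (2 * (2 * (‖z‖ + |s|) + 1)) with hε₂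
    have hden : 0 < 2 * (2 * (‖z‖ + |s|) + 1) := by positivity
    have hε₂0 : 0 < ε₂ := by positivity
    have hε₂1 : 2 * (‖z‖ + |s|) * ε₂ ≤ ε / 2 := by
      rw [hε₂, ← mul_div_assoc, div_le_iff₀ hden]
      nlinarith [norm_nonneg z, abs_nonneg s]
    have hε₂2 : ε₂ ≤ ε / 2 := by
      rw [hε₂, div_le_iff₀ hden]
      nlinarith [norm_nonneg z, abs_nonneg s]
    obtain ⟨f, f0, f1, fn, fl, fz⟩ :=
      ih (fun z hz => hl z (by simp [hz])) f₁ g0 g1 gn ε₂ hε₂0
    refine ⟨f, f0, f1, fn, ?_, ?_⟩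
    · have e1 : (1 - e) * f = (1 - e) * f₁ * f + (1 - e) * ((1 - f₁) * f) := by noncomm_ring
      have he : ‖1 - e‖ ≤ 1 :=
        (CStarAlgebra.norm_le_one_iff_of_nonneg _ (sub_nonneg.2 he1)).2 (sub_le_self _ he0)
      rw [e1]
      calc ‖(1 - e) * f₁ * f + (1 - e) * ((1 - f₁) * f)‖
          ≤ ‖(1 - e) * f₁‖ * ‖f‖ + ‖1 - e‖ * ‖(1 - f₁) * f‖ :=
            (norm_add_le _ _).trans (add_le_add (norm_mul_le _ _) (norm_mul_le _ _))
        _ ≤ ε / 2 * 1 + 1 * ε₂ := by
            gcongr
            exact fn.le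
        _ ≤ ε := by linarith
    · intro w hw
      rcases List.mem_cons.1 hw with rfl | hw
      · refine ⟨s, (preserve g0 gn.le f0 fn.le gs fl).trans ?_⟩
        linarith
      · obtain ⟨s', hs'⟩ := fz w hw
        exact ⟨s', hs'.trans (by linarith)⟩

/-- local unit trick -/
theorem exists_local_unit {f : A} (hf0 : 0 ≤ f) (hfn : ‖f‖ = 1) :
    ∃ k h : A, IsSelfAdjoint k ∧ ‖k‖ ≤ 2 ∧ Commute k f ∧ 0 ≤ h ∧ h ≠ 0 ∧ h * (k * f) = h := by
  have hfsa : IsSelfAdjoint f := .of_nonneg hf0
  have hspec : ∀ t ∈ spectrum ℝ f, 0 ≤ t := fun t ht => spectrum_nonneg_of_nonneg hf0 ht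
  have hmem : (1:ℝ) ∈ spectrum ℝ f := by
    have := CStarAlgebra.norm_mem_spectrum_of_nonneg (a := f) hf0
    rwa [hfn] at this
  have hkc : Continuous (fun t : ℝ => (max t (1 / 2))⁻¹) := by
    apply Continuous.inv₀ (by fun_prop)
    intro t
    have := le_max_right t (1 / 2)
    positivity
  have hhc : Continuous (fun t : ℝ => max 0 (2 * t - 1)) := by fun_prop
  refine ⟨cfc (fun t : ℝ => (max t (1 / 2))⁻¹) f, cfc (fun t : ℝ => max 0 (2 * t - 1)) f,
    IsSelfAdjoint.cfc, ?_, ?_, ?_, ?_, ?_⟩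
  · apply norm_cfc_le (by norm_num)
    intro t _
    have h1 := le_max_right t (1 / 2)
    have h2 : 0 < max t (1 / 2) := lt_of_lt_of_le (by norm_num) h1
    rw [Real.norm_eq_abs, abs_of_pos (inv_pos.2 h2), inv_le_comm₀ h2 (by norm_num)]
    linarith
  · have := cfc_commute_cfc (fun t : ℝ => (max t (1 / 2))⁻¹) (fun t : ℝ => t) f
    rwa [cfc_id' ℝ f hfsa] at this
  · exact cfc_nonneg (fun t _ => le_max_left _ _)
  · intro h0
    have h1 : (1:ℝ) ∈ spectrum ℝ (cfc (fun t : ℝ => max 0 (2 * t - 1)) f) := by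
      rw [cfc_map_spectrum (fun t : ℝ => max 0 (2 * t - 1)) f hfsa hhc.continuousOn]
      exact ⟨1, hmem, by norm_num⟩
    rw [h0, CFC.spectrum_zero_eq] at h1
    simp at h1
  · have e1 : cfc (fun t : ℝ => (max t (1 / 2))⁻¹) f * f =
        cfc (fun t : ℝ => (max t (1 / 2))⁻¹ * t) f := by
      rw [cfc_mul (fun t : ℝ => (max t (1 / 2))⁻¹) (fun t => t) f hkc.continuousOn (by fun_prop),
        cfc_id' ℝ f hfsa]
    rw [e1, ← cfc_mul (fun t : ℝ => max 0 (2 * t - 1)) (fun t : ℝ => (max t (1 / 2))⁻¹ * t) f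
      hhc.continuousOn (hkc.mul continuous_id).continuousOn]
    apply cfc_congr
    intro t ht
    show max 0 (2 * t - 1) * ((max t (1 / 2))⁻¹ * t) = max 0 (2 * t - 1)
    rcases le_or_gt (1 / 2) t with h | h
    · rw [max_eq_left h, inv_mul_cancel₀ (by linarith), mul_one]
    · rw [max_eq_left (by linarith : 2 * t - 1 ≤ 0), zero_mul]

end step

section simple

variable {A : Type*} [CStarAlgebra A] [PartialOrder A] [StarOrderedRing A]

/-- an element bounded below by a positive scalar can be conjugated to `1` -/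
theorem exists_conj_eq_one {p : A} {c : ℝ} (hc : 0 < c) (h : algebraMap ℝ A c ≤ p) :
    ∃ r : A, IsSelfAdjoint r ∧ r * p * r = 1 := by
  rcases subsingleton_or_nontrivial A with hA | hA
  · exact ⟨1, IsSelfAdjoint.one A, Subsingleton.elim _ _⟩
  have hp0 : 0 ≤ p := le_trans (algebraMap_nonneg A hc.le) h
  have hpos : IsStrictlyPositive p := by
    rw [StarOrderedRing.isStrictlyPositive_iff_spectrum_pos (R := ℝ) p]
    intro x hx
    exact lt_of_lt_of_le hc ((algebraMap_le_iff_le_spectrum (a := p)).1 h x hx)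
  exact ⟨p ^ (-(1 / 2) : ℝ), IsSelfAdjoint.of_nonneg CFC.rpow_nonneg,
    CFC.conjugate_rpow_neg_one_half p hpos⟩

omit [PartialOrder A] [StarOrderedRing A] in
/-- in a simple unital C*-algebra, `1` is a finite sum of `a h b` for any nonzero `h` -/
theorem exists_one_eq_sum (hA : IsSimpleCStar A) {h : A} (hh : h ≠ 0) :
    ∃ l : List (A × A), (l.map (fun p => p.1 * h * p.2)).sum = 1 := by
  set S : Set A := {x | ∃ l : List (A × A), (l.map (fun p => p.1 * h * p.2)).sum = x} with hS
  have hS0 : (0:A) ∈ S := ⟨[], by simp⟩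
  have hSadd : ∀ {x y}, x ∈ S → y ∈ S → x + y ∈ S := by
    rintro _ _ ⟨l, rfl⟩ ⟨l', rfl⟩
    exact ⟨l ++ l', by simp⟩
  have hSleft : ∀ {x y}, y ∈ S → x * y ∈ S := by
    rintro x _ ⟨l, rfl⟩
    refine ⟨l.map (fun p => (x * p.1, p.2)), ?_⟩
    rw [List.map_map, ← List.sum_map_mul_left]
    congr 1
    apply List.map_congr_left
    intro p _
    simp [mul_assoc]
  have hSright : ∀ {x y}, x ∈ S → x * y ∈ S := by
    rintro _ y ⟨l, rfl⟩
    refine ⟨l.map (fun p => (p.1, p.2 * y)), ?_⟩
    rw [List.map_map, ← List.sum_map_mul_right]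
    congr 1
    apply List.map_congr_left
    intro p _
    simp [mul_assoc]
  have hSneg : ∀ {x}, x ∈ S → -x ∈ S := by
    intro x hx
    have := hSleft (x := -1) hx
    simpa using this
  have hSh : h ∈ S := ⟨[(1, 1)], by simp⟩
  let J : TwoSidedIdeal A := TwoSidedIdeal.mk' (closure S) (subset_closure hS0)
    (fun {x y} hx hy => map_mem_closure₂ (s := S) (t := S) (u := S) continuous_add hx hy
      (fun a ha b hb => hSadd ha hb))
    (fun {x} hx => map_mem_closure (s := S) (t := S) continuous_neg hx (fun a ha => hSneg ha))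
    (fun {x y} hy => map_mem_closure (s := S) (t := S) (f := fun a => x * a)
      (continuous_const.mul continuous_id) hy (fun a ha => hSleft ha))
    (fun {x y} hx => map_mem_closure (s := S) (t := S) (f := fun a => a * y)
      (continuous_id.mul continuous_const) hx (fun a ha => hSright ha))
  have hJ : (J : Set A) = closure S := TwoSidedIdeal.coe_mk' _ _ _ _ _ _
  have hJc : IsClosed (J : Set A) := by rw [hJ]; exact isClosed_closure
  rcases hA.2 J hJc with h1 | h1
  · exfalso
    have h2 : h ∈ J := by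
      have : h ∈ (J : Set A) := by rw [hJ]; exact subset_closure hSh
      exact this
    rw [h1] at h2
    exact hh (by simpa using h2)
  · have h2 : (1:A) ∈ closure S := by
      rw [← hJ, h1]; simp
    obtain ⟨x, hx, hdist⟩ := Metric.mem_closure_iff.1 h2 1 one_pos
    obtain ⟨l, rfl⟩ := hx
    set x := (l.map (fun p => p.1 * h * p.2)).sum with hx
    have hu : IsUnit x := by
      have h3 : ‖1 - x‖ < 1 := by rwa [← dist_eq_norm]
      have := (Units.oneSub (1 - x) h3).isUnit
      simpa using this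
    obtain ⟨u, hu⟩ := hu
    obtain ⟨l', hl'⟩ := hSright (x := x) (y := (↑u⁻¹ : A)) ⟨l, rfl⟩
    refine ⟨l', ?_⟩
    rw [hl', ← hu]; simp

theorem sum_nonneg_aux (h : A) (l : List A) : 0 ≤ (l.map (fun c => star c * (star h * h) * c)).sum := by
  apply List.sum_nonneg
  intro x hx
  obtain ⟨c, _, rfl⟩ := List.mem_map.1 hx
  have : star c * (star h * h) * c = star (h * c) * (h * c) := by
    rw [star_mul]; noncomm_ring
  rw [this]
  exact star_mul_self_nonneg _

theorem sum_sq_le (h : A) (l : List (A × A)) : ∃ K : ℝ, 0 ≤ K ∧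
    star (l.map (fun p => p.1 * h * p.2)).sum * (l.map (fun p => p.1 * h * p.2)).sum ≤
      K • ((l.map Prod.snd).map (fun c => star c * (star h * h) * c)).sum := by
  induction l with
  | nil => exact ⟨0, le_rfl, by simp⟩
  | cons p l ih =>
    obtain ⟨K, hK, ih⟩ := ih
    set x := p.1 * h * p.2 with hx
    set y := (l.map (fun p => p.1 * h * p.2)).sum with hy
    set C := ((l.map Prod.snd).map (fun c => star c * (star h * h) * c)).sum with hC
    set D := star p.2 * (star h * h) * p.2 with hD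
    have hC0 : 0 ≤ C := sum_nonneg_aux h _
    have hD0 : 0 ≤ D := by
      have := sum_nonneg_aux h [p.2]
      simpa using this
    refine ⟨2 * ‖p.1‖ ^ 2 + 2 * K, by positivity, ?_⟩
    simp only [List.map_cons, List.sum_cons]
    rw [← hx, ← hy, ← hC, ← hD]
    have h1 : star (x + y) * (x + y) ≤ (2:ℝ) • (star x * x) + (2:ℝ) • (star y * y) := by
      have h2 : 0 ≤ star (x - y) * (x - y) := star_mul_self_nonneg _
      have h3 : (2:ℝ) • (star x * x) + (2:ℝ) • (star y * y) =
          star (x + y) * (x + y) + star (x - y) * (x - y) := by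
        simp only [two_smul, star_add, star_sub]
        noncomm_ring
      rw [h3]
      exact le_add_of_nonneg_right h2
    have h2 : star x * x ≤ (‖p.1‖ ^ 2) • D := by
      have h3 : star x * x = star (h * p.2) * (star p.1 * p.1) * (h * p.2) := by
        rw [hx]; simp only [star_mul]; noncomm_ring
      have h4 : (‖p.1‖ ^ 2) • D = star (h * p.2) * algebraMap ℝ A (‖p.1‖ ^ 2) * (h * p.2) := by
        rw [Algebra.algebraMap_eq_smul_one, hD]
        simp only [star_mul, mul_smul_comm, smul_mul_assoc]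
        congr 1
        noncomm_ring
      rw [h3, h4]
      exact star_left_conjugate_le_conjugate CStarAlgebra.star_mul_le_algebraMap_norm_sq _
    calc star (x + y) * (x + y) ≤ (2:ℝ) • (star x * x) + (2:ℝ) • (star y * y) := h1
      _ ≤ (2:ℝ) • ((‖p.1‖ ^ 2) • D) + (2:ℝ) • (K • C) := by
          gcongr
      _ = (2 * ‖p.1‖ ^ 2) • D + (2 * K) • C := by rw [smul_smul, smul_smul]
      _ ≤ (2 * ‖p.1‖ ^ 2 + 2 * K) • D + (2 * ‖p.1‖ ^ 2 + 2 * K) • C := by
          apply add_le_add
          · exact smul_le_smul_of_nonneg_right (by linarith) hD0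
          · exact smul_le_smul_of_nonneg_right (by nlinarith [norm_nonneg p.1]) hC0
      _ = (2 * ‖p.1‖ ^ 2 + 2 * K) • (D + C) := by rw [smul_add]

/-- in a simple unital C*-algebra, `Σ c* h* h c = 1` for suitable `c`'s -/
theorem exists_sum_conj_eq_one (hA : IsSimpleCStar A) {h : A} (hh : h ≠ 0) :
    ∃ l : List A, (l.map (fun c => star c * (star h * h) * c)).sum = 1 := by
  have := hA.1
  obtain ⟨l, hl⟩ := exists_one_eq_sum hA hh
  obtain ⟨K, hK, hle⟩ := sum_sq_le h l
  rw [hl] at hle
  simp only [star_one, mul_one] at hle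
  set C := ((l.map Prod.snd).map (fun c => star c * (star h * h) * c)).sum with hC
  have hC0 : 0 ≤ C := sum_nonneg_aux h _
  have hKpos : 0 < K := by
    rcases hK.lt_or_eq with h1 | h1
    · exact h1
    · exfalso
      rw [← h1, zero_smul] at hle
      have h3 : (1:A) = 0 := le_antisymm hle zero_le_one
      exact one_ne_zero h3
  have h2 : algebraMap ℝ A K⁻¹ ≤ C := by
    rw [Algebra.algebraMap_eq_smul_one]
    calc K⁻¹ • (1:A) ≤ K⁻¹ • (K • C) := smul_le_smul_of_nonneg_left hle (by positivity)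
      _ = C := by rw [smul_smul, inv_mul_cancel₀ hKpos.ne', one_smul]
  obtain ⟨r, hr, hr1⟩ := exists_conj_eq_one (inv_pos.2 hKpos) h2
  refine ⟨(l.map Prod.snd).map (fun c => c * r), ?_⟩
  rw [List.map_map, ← hr1, hC, mul_assoc, ← List.sum_map_mul_right, ← List.sum_map_mul_left]
  congr 1
  apply List.map_congr_left
  intro c _
  simp only [Function.comp_apply, star_mul, hr.star_eq]
  noncomm_ring

theorem sum_conj_mono (l : List A) {x y : A} (h : x ≤ y) :
    (l.map (fun c => star c * x * c)).sum ≤ (l.map (fun c => star c * y * c)).sum := by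
  apply List.sum_le_sum
  intro c _
  exact star_left_conjugate_le_conjugate h c

theorem sum_conj_smul (l : List A) (x : A) (r : ℝ) :
    (l.map (fun c => star c * (r • x) * c)).sum = r • (l.map (fun c => star c * x * c)).sum := by
  rw [List.smul_sum, List.map_map]
  congr 1
  apply List.map_congr_left
  intro c _
  simp

theorem sum_conj_isSelfAdjoint (l : List A) {x : A} (h : IsSelfAdjoint x) :
    IsSelfAdjoint (l.map (fun c => star c * x * c)).sum := by
  induction l with
  | nil => simp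
  | cons c l ih =>
    simp only [List.map_cons, List.sum_cons]
    exact (h.conjugate' c).add ih

/-- **Excision.** -/
theorem excision (hA : IsSimpleCStar A) (l : List A) (hl : ∀ z ∈ l, IsSelfAdjoint z) (z₀ : A)
    (hz₀ : IsSelfAdjoint z₀) {ε : ℝ} (hε : 0 < ε) :
    ∃ cs : List A, (cs.map (fun a => star a * a)).sum = 1 ∧
      ‖(cs.map (fun a => star a * z₀ * a)).sum - algebraMap ℝ A (top z₀)‖ ≤ ε ∧
      ∀ z ∈ l, ∃ s : ℝ, ‖(cs.map (fun a => star a * z * a)).sum - algebraMap ℝ A s‖ ≤ ε := by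
  have := hA.1
  obtain ⟨e, he0, he1, hen, hel, heu⟩ := exists_bump hz₀ (show 0 < ε / 8 by positivity)
  have hesa : IsSelfAdjoint e := .of_nonneg he0
  have hee1 : e * e ≤ 1 := by
    have h3 : ‖e * e‖ ≤ 1 := (norm_mul_le e e).trans (by rw [hen]; norm_num)
    have h4 : 0 ≤ e * e := by simpa [hesa.star_eq] using star_mul_self_nonneg e
    exact (CStarAlgebra.norm_le_one_iff_of_nonneg _ h4).1 h3
  have hee0 : 0 ≤ e * e := by simpa [hesa.star_eq] using star_mul_self_nonneg e
  have hez : ‖e * z₀ * e - top z₀ • (e * e)‖ ≤ ε / 8 := by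
    apply norm_le_of_two_sided (by positivity)
    · have h4 : IsSelfAdjoint (e * z₀ * e) := by
        have := hz₀.conjugate e
        rwa [hesa.star_eq] at this
      exact h4.sub ((IsSelfAdjoint.all (top z₀)).smul (.of_nonneg hee0))
    · rw [Algebra.algebraMap_eq_smul_one]
      calc -((ε / 8) • (1:A)) ≤ -((ε / 8) • (e * e)) :=
            neg_le_neg (smul_le_smul_of_nonneg_left hee1 (by positivity))
        _ = (top z₀ - ε / 8) • (e * e) - top z₀ • (e * e) := by module
        _ ≤ _ := sub_le_sub_right hel _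
    · calc e * z₀ * e - top z₀ • (e * e) ≤ 0 := sub_nonpos.2 heu
        _ ≤ algebraMap ℝ A (ε / 8) := algebraMap_nonneg A (by positivity)
  set ε₂ : ℝ := min (ε / 4) (ε / (8 * (2 * (‖z₀‖ + |top z₀|) + 1))) with hε₂
  have hden : 0 < 8 * (2 * (‖z₀‖ + |top z₀|) + 1) := by positivity
  have hε₂0 : 0 < ε₂ := by positivity
  have hε₂1 : 2 * (‖z₀‖ + |top z₀|) * ε₂ ≤ ε / 8 := by
    have h1 : ε₂ ≤ ε / (8 * (2 * (‖z₀‖ + |top z₀|) + 1)) := min_le_right _ _
    have h2 : 2 * (‖z₀‖ + |top z₀|) * ε₂ ≤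
        2 * (‖z₀‖ + |top z₀|) * (ε / (8 * (2 * (‖z₀‖ + |top z₀|) + 1))) := by gcongr
    refine h2.trans ?_
    rw [← mul_div_assoc, div_le_iff₀ hden]
    nlinarith [norm_nonneg z₀, abs_nonneg (top z₀)]
  obtain ⟨f, hf0, hf1, hfn, hfe, hfz⟩ := excision_list l hl e he0 he1 hen ε₂ hε₂0
  have hfz0 : ‖f * z₀ * f - top z₀ • (f * f)‖ ≤ ε / 4 := by
    refine (preserve he0 hen.le hf0 hfn.le hez hfe).trans ?_
    linarith
  obtain ⟨k, h, hk, hk2, hkc, hh0, hhne, hhk⟩ := exists_local_unit hf0 hfn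
  have hfsa : IsSelfAdjoint f := .of_nonneg hf0
  have hhsa : IsSelfAdjoint h := .of_nonneg hh0
  obtain ⟨cs, hcs⟩ := exists_sum_conj_eq_one hA hhne
  rw [hhsa.star_eq] at hcs
  have hhk' : k * f * h = h := by
    have h1 := congrArg star hhk
    simp only [star_mul, hk.star_eq, hfsa.star_eq, hhsa.star_eq] at h1
    rw [hkc.eq]
    exact h1
  -- the main estimate
  have main : ∀ z : A, IsSelfAdjoint z → ∀ s : ℝ, ‖f * z * f - s • (f * f)‖ ≤ ε / 4 →
      ‖((cs.map (fun c => h * c)).map (fun a => star a * z * a)).sum - algebraMap ℝ A s‖ ≤ ε := by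
    intro z hz s hs
    set w : A := k * (f * z * f - s • (f * f)) * k with hw
    have hwsa : IsSelfAdjoint w := by
      have h4 : IsSelfAdjoint (f * z * f) := by
        have := hz.conjugate f
        rwa [hfsa.star_eq] at this
      have h5 : IsSelfAdjoint (f * f) := by
        rw [IsSelfAdjoint, star_mul, hfsa.star_eq]
      have h6 := (h4.sub ((IsSelfAdjoint.all s).smul h5)).conjugate k
      rwa [hk.star_eq] at h6
    have hwn : ‖w‖ ≤ ε := by
      calc ‖w‖ ≤ 2 * (ε / 4) * 2 := norm_mul_three_le hk2 hs hk2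
        _ = ε := by ring
    have e1 : h * z * h - s • (h * h) = h * w * h := by
      have h1 : h * z * h = h * (k * f) * z * (k * f * h) := by rw [hhk, hhk']
      have h2 : h * h = h * (k * f) * (k * f * h) := by rw [hhk, hhk']
      rw [h1, h2, hw]
      have h3 : k * f = f * k := hkc.eq
      simp only [mul_sub, sub_mul, mul_smul_comm, smul_mul_assoc]
      congr 1
      · calc h * (k * f) * z * (k * f * h) = h * (k * f) * z * ((k * f) * h) := by noncomm_ring
          _ = h * (k * f) * z * ((f * k) * h) := by rw [h3]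
          _ = h * (k * (f * z * f) * k) * h := by noncomm_ring
      · congr 1
        calc h * (k * f) * (k * f * h) = h * (k * f) * ((k * f) * h) := by noncomm_ring
          _ = h * (k * f) * ((f * k) * h) := by rw [h3]
          _ = h * (k * (f * f) * k) * h := by noncomm_ring
    have e2 : ((cs.map (fun c => h * c)).map (fun a => star a * z * a)).sum - algebraMap ℝ A s =
        (cs.map (fun c => star c * (h * w * h) * c)).sum := by
      rw [List.map_map]
      have h1 : algebraMap ℝ A s = (cs.map (fun c => star c * (s • (h * h)) * c)).sum := by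
        rw [sum_conj_smul, hcs, Algebra.algebraMap_eq_smul_one]
      rw [h1, ← e1]
      have h2 : ∀ (L : List A), (L.map ((fun a => star a * z * a) ∘ fun c => h * c)).sum -
          (L.map (fun c => star c * (s • (h * h)) * c)).sum =
          (L.map (fun c => star c * (h * z * h - s • (h * h)) * c)).sum := by
        intro L
        induction L with
        | nil => simp
        | cons c L ih =>
          simp only [List.map_cons, List.sum_cons, Function.comp_apply]
          rw [← ih]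
          simp only [star_mul, hhsa.star_eq, mul_sub, sub_mul, Function.comp_def, mul_assoc]
          abel
      exact h2 cs
    rw [e2]
    have hhwh : IsSelfAdjoint (h * w * h) := by
      have := hwsa.conjugate h
      rwa [hhsa.star_eq] at this
    apply norm_le_of_two_sided hε.le (sum_conj_isSelfAdjoint cs hhwh)
    · have h1 : (-ε) • (h * h) ≤ h * w * h := by
        have h2 : algebraMap ℝ A (-ε) ≤ w := by
          calc algebraMap ℝ A (-ε) ≤ -algebraMap ℝ A ‖w‖ := by
                rw [map_neg]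
                apply neg_le_neg
                exact algebraMap_mono A hwn
            _ ≤ w := hwsa.neg_algebraMap_norm_le_self
        have h3 := conj_mono hhsa h2
        rw [Algebra.algebraMap_eq_smul_one] at h3
        simpa using h3
      have h2 := sum_conj_mono cs h1
      rw [sum_conj_smul, hcs] at h2
      rw [Algebra.algebraMap_eq_smul_one, ← neg_smul]
      exact h2
    · have h1 : h * w * h ≤ ε • (h * h) := by
        have h2 : w ≤ algebraMap ℝ A ε :=
          (hwsa.le_algebraMap_norm_self).trans (algebraMap_mono A hwn)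
        have h3 := conj_mono hhsa h2
        rw [Algebra.algebraMap_eq_smul_one] at h3
        simpa using h3
      have h2 := sum_conj_mono cs h1
      rw [sum_conj_smul, hcs] at h2
      rw [Algebra.algebraMap_eq_smul_one]
      exact h2
  refine ⟨cs.map (fun c => h * c), ?_, main z₀ hz₀ _ hfz0, ?_⟩
  · rw [List.map_map, ← hcs]
    congr 1
    apply List.map_congr_left
    intro c _
    simp only [Function.comp_apply, star_mul, hhsa.star_eq]
    noncomm_ring
  · intro z hz
    obtain ⟨s, hs⟩ := hfz z hz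
    exact ⟨s, main z (hl z hz) s (hs.trans (min_le_left _ _))⟩

end simple

end Pool.Agent.helper29
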