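import Mathlib

/-!
# Hilbert space tensor products, in the form of a bilinear map with the right inner products
-/

open scoped InnerProductSpace ENNReal

noncomputable section

namespace Pool.Agent.helper29

variable {K L M : Type*}
  [NormedAddCommGroup K] [InnerProductSpace ℂ K] [CompleteSpace K]
  [NormedAddCommGroup L] [InnerProductSpace ℂ L] [CompleteSpace L]
  [NormedAddCommGroup M] [InnerProductSpace ℂ M] [CompleteSpace M]

/-! ### pointwise operators on vector-valued `ℓ²` -/

/-- vector-valued `ℓ²` -/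
abbrev L2 (Q : Type*) (M : Type*) [NormedAddCommGroup M] : Type _ := lp (fun _ : Q => M) 2

section diag
variable {Q : Type*}

theorem memlp_map (T : M →L[ℂ] M) (f : L2 Q M) : Memℓp (fun q => T (f q)) 2 := by
  have h1 : Memℓp (fun q => (‖T‖ : ℝ) * ‖f q‖) 2 := by
    have := (lp.memℓp f)
    have h2 : Memℓp (fun q => ‖f q‖) 2 := memℓp_norm_iff.2 this
    exact h2.const_mul (𝕜 := ℝ) ‖T‖
  refine h1.mono (fun q => ?_)
  exact T.le_opNorm (f q)

theorem norm_map_le (T : M →L[ℂ] M) (f : L2 Q M) :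
    ‖(⟨fun q => T (f q), memlp_map T f⟩ : L2 Q M)‖ ≤ ‖T‖ * ‖f‖ := by
  have h2 : (0 : ℝ) < (2 : ℝ≥0∞).toReal := by norm_num
  apply lp.norm_le_of_forall_sum_le h2 (by positivity)
  intro s
  have h3 := lp.sum_rpow_le_norm_rpow h2 f s
  rw [Real.mul_rpow (norm_nonneg _) (norm_nonneg _)]
  refine le_trans ?_ (mul_le_mul_of_nonneg_left h3 (by positivity))
  rw [Finset.mul_sum]
  apply Finset.sum_le_sum
  intro i _
  rw [← Real.mul_rpow (norm_nonneg _) (norm_nonneg _)]
  exact Real.rpow_le_rpow (norm_nonneg _) (T.le_opNorm _) (by norm_num)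

/-- the pointwise operator -/
def diagL (T : M →L[ℂ] M) : L2 Q M →L[ℂ] L2 Q M :=
  LinearMap.mkContinuous
    { toFun := fun f => ⟨fun q => T (f q), memlp_map T f⟩
      map_add' := by
        intro f g
        apply lp.ext
        funext q
        exact map_add T (f q) (g q)
      map_smul' := by
        intro c f
        apply lp.ext
        funext q
        exact map_smul T c (f q) } ‖T‖ (fun f => norm_map_le T f)

@[simp] theorem diagL_apply (T : M →L[ℂ] M) (f : L2 Q M) (q : Q) : diagL T f q = T (f q) := rfl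

/-- pointwise application of an operator, as a `*`-homomorphism -/
def diag (Q : Type*) (M : Type*) [NormedAddCommGroup M] [InnerProductSpace ℂ M] [CompleteSpace M] :
    (M →L[ℂ] M) →⋆ₐ[ℂ] (L2 Q M →L[ℂ] L2 Q M) where
  toFun := diagL
  map_one' := by ext f q; rfl
  map_mul' := by intro S T; ext f q; rfl
  map_zero' := by ext f q; rfl
  map_add' := by intro S T; ext f q; rfl
  commutes' := by intro c; ext f q; rfl
  map_star' := by
    intro T
    rw [ContinuousLinearMap.star_eq_adjoint, ContinuousLinearMap.star_eq_adjoint,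
      ContinuousLinearMap.eq_adjoint_iff]
    intro f g
    rw [lp.inner_eq_tsum, lp.inner_eq_tsum]
    congr 1
    funext q
    exact ContinuousLinearMap.adjoint_inner_left T (g q) (f q)

@[simp] theorem diag_apply (T : M →L[ℂ] M) (f : L2 Q M) (q : Q) : diag Q M T f q = T (f q) := rfl

theorem diag_single [DecidableEq Q] (T : M →L[ℂ] M) (q : Q) (m : M) :
    diag Q M T (lp.single 2 q m) = lp.single 2 q (T m) := by
  apply lp.ext
  funext r
  rw [diag_apply]
  by_cases h : r = q
  · subst h; simp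
  · rw [lp.single_apply_ne _ _ _ h, lp.single_apply_ne _ _ _ h, map_zero]

end diag

/-! ### abstract Hilbert tensor products -/

/-- `t : K × L → M` exhibits `M` as the Hilbert space tensor product of `K` and `L`. -/
structure HTensor (K L M : Type*)
    [NormedAddCommGroup K] [InnerProductSpace ℂ K] [CompleteSpace K]
    [NormedAddCommGroup L] [InnerProductSpace ℂ L] [CompleteSpace L]
    [NormedAddCommGroup M] [InnerProductSpace ℂ M] [CompleteSpace M] where
  /-- the bilinear map -/
  t : K →L[ℂ] L →L[ℂ] M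
  inner_t : ∀ k l k' l', ⟪t k l, t k' l'⟫_ℂ = ⟪k, k'⟫_ℂ * ⟪l, l'⟫_ℂ
  total : ∀ m : M, (∀ k l, ⟪t k l, m⟫_ℂ = 0) → m = 0

namespace HTensor

variable (τ : HTensor K L M)

theorem norm_t (k : K) (l : L) : ‖τ.t k l‖ = ‖k‖ * ‖l‖ := by
  have h := τ.inner_t k l k l
  rw [inner_self_eq_norm_sq_to_K, inner_self_eq_norm_sq_to_K, inner_self_eq_norm_sq_to_K] at h
  have h2 : ‖τ.t k l‖ ^ 2 = (‖k‖ * ‖l‖) ^ 2 := by
    rw [mul_pow]
    exact_mod_cast h
  exact (sq_eq_sq₀ (norm_nonneg _) (by positivity)).1 h2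

/-- the flipped tensor product -/
def flip : HTensor L K M where
  t := τ.t.flip
  inner_t := by
    intro l k l' k'
    rw [ContinuousLinearMap.flip_apply, ContinuousLinearMap.flip_apply, τ.inner_t, mul_comm]
  total := by
    intro m h
    exact τ.total m (fun k l => h l k)

@[simp] theorem flip_t (l : L) (k : K) : τ.flip.t l k = τ.t k l := rfl

theorem ext_op {N : Type*} [NormedAddCommGroup N] [InnerProductSpace ℂ N] [CompleteSpace N]
    {S T : M →L[ℂ] N} (h : ∀ k l, S (τ.t k l) = T (τ.t k l)) : S = T := by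
  have h1 : ∀ n : N, ContinuousLinearMap.adjoint (S - T) n = 0 := by
    intro n
    apply τ.total
    intro k l
    rw [ContinuousLinearMap.adjoint_inner_right]
    simp [h k l]
  have h2 : ContinuousLinearMap.adjoint (S - T) = 0 := by
    ext n
    simpa using h1 n
  have h3 : S - T = 0 := by
    rw [← ContinuousLinearMap.adjoint_adjoint (S - T), h2, map_zero]
  exact sub_eq_zero.1 h3

/-- the isometry `k ↦ k ⊗ l` for a unit vector `l` -/
def slot (l : L) (hl : ‖l‖ = 1) : K →ₗᵢ[ℂ] M where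
  toLinearMap := (τ.t.flip l).toLinearMap
  norm_map' := by
    intro k
    show ‖τ.t k l‖ = ‖k‖
    rw [τ.norm_t, hl, mul_one]

@[simp] theorem slot_apply (l : L) (hl : ‖l‖ = 1) (k : K) : τ.slot l hl k = τ.t k l := rfl

theorem orthogonalFamily {J : Type*} (β : HilbertBasis J ℂ L) :
    OrthogonalFamily ℂ (fun _ : J => K) (fun j => τ.slot (β j) (β.orthonormal.1 j)) := by
  intro i j hij k k'
  rw [slot_apply, slot_apply, τ.inner_t, β.orthonormal.2 hij, mul_zero]

theorem isHilbertSum {J : Type*} (β : HilbertBasis J ℂ L) :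
    IsHilbertSum ℂ (fun _ : J => K) (fun j => τ.slot (β j) (β.orthonormal.1 j)) := by
  apply IsHilbertSum.mk (τ.orthogonalFamily β)
  rw [top_le_iff, Submodule.topologicalClosure_eq_top_iff, Submodule.eq_bot_iff]
  intro m hm
  rw [Submodule.mem_orthogonal] at hm
  apply τ.total
  intro k l
  have h1 : ∀ j, ⟪τ.t k (β j), m⟫_ℂ = 0 := by
    intro j
    apply hm
    apply Submodule.mem_iSup_of_mem j
    exact ⟨k, rfl⟩
  -- the functional l ↦ ⟪t k l, m⟫ vanishes on a dense set
  have h2 : (innerSL ℂ m).comp (τ.t k) = 0 := by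
    apply ContinuousLinearMap.ext_on
      (s := Set.range β) (by
        rw [dense_iff_closure_eq, ← Submodule.topologicalClosure_coe, β.dense_span]; rfl)
    rintro _ ⟨j, rfl⟩
    simp only [ContinuousLinearMap.comp_apply, innerSL_apply_apply, zero_apply]
    rw [← inner_conj_symm, h1, map_zero]
  have h3 := congrArg (fun f => f l) h2
  simp only [ContinuousLinearMap.comp_apply, innerSL_apply_apply,
    zero_apply] at h3
  rw [← inner_conj_symm, h3, map_zero]

/-- the index set of a Hilbert basis -/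
def basIdx (L : Type*) [NormedAddCommGroup L] [InnerProductSpace ℂ L] [CompleteSpace L] : Set L :=
  Classical.choose (exists_hilbertBasis ℂ L)

/-- a Hilbert basis of the second factor -/
def bas (L : Type*) [NormedAddCommGroup L] [InnerProductSpace ℂ L] [CompleteSpace L] :
    HilbertBasis (basIdx L) ℂ L :=
  Classical.choose (Classical.choose_spec (exists_hilbertBasis ℂ L))

/-- unitary onto vector-valued `ℓ²` -/
def U : M ≃ₗᵢ[ℂ] L2 (basIdx L) K :=
  (τ.isHilbertSum (bas L)).linearIsometryEquiv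

theorem U_symm_single [DecidableEq (basIdx L)]
    (j : basIdx L) (k : K) :
    τ.U.symm (lp.single 2 j k) = τ.t k (bas L j) :=
  (τ.isHilbertSum (bas L)).linearIsometryEquiv_symm_apply_single k

open Classical in
theorem U_t (j : basIdx L) (k : K) :
    τ.U (τ.t k (bas L j)) = lp.single 2 j k := by
  rw [← τ.U_symm_single, LinearIsometryEquiv.apply_symm_apply]

/-- the operator `T ⊗ 1` -/
def ampLFun (T : K →L[ℂ] K) : M →L[ℂ] M :=
  (τ.U.symm.toContinuousLinearEquiv : L2 (basIdx L) K →L[ℂ] M).comp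
    ((diagL T).comp (τ.U.toContinuousLinearEquiv : M →L[ℂ] L2 (basIdx L) K))

open Classical in
theorem ampLFun_t (T : K →L[ℂ] K) (k : K) (l : L) :
    τ.ampLFun T (τ.t k l) = τ.t (T k) l := by
  have h : (τ.ampLFun T).comp (τ.t k) = τ.t (T k) := by
    apply ContinuousLinearMap.ext_on
      (s := Set.range (bas L)) (by
        rw [dense_iff_closure_eq, ← Submodule.topologicalClosure_coe, (bas L).dense_span]; rfl)
    rintro _ ⟨j, rfl⟩
    show τ.U.symm (diagL T (τ.U (τ.t k (bas L j)))) = _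
    rw [τ.U_t]
    have := diag_single T j k
    show τ.U.symm (diag _ K T (lp.single 2 j k)) = _
    rw [this, τ.U_symm_single]
  exact congrArg (fun f => f l) h

/-- `T ↦ T ⊗ 1` as a `*`-homomorphism -/
def ampL : (K →L[ℂ] K) →⋆ₐ[ℂ] (M →L[ℂ] M) where
  toFun := τ.ampLFun
  map_one' := by
    apply τ.ext_op; intro k l; rw [τ.ampLFun_t]; rfl
  map_mul' := by
    intro S T; apply τ.ext_op; intro k l
    rw [mul_apply_eq_comp, τ.ampLFun_t, τ.ampLFun_t, τ.ampLFun_t]; rfl
  map_zero' := by
    apply τ.ext_op; intro k l; rw [τ.ampLFun_t]; simp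
  map_add' := by
    intro S T; apply τ.ext_op; intro k l
    rw [add_apply, τ.ampLFun_t, τ.ampLFun_t, τ.ampLFun_t]; simp
  commutes' := by
    intro c; apply τ.ext_op; intro k l
    rw [τ.ampLFun_t, Algebra.algebraMap_eq_smul_one, Algebra.algebraMap_eq_smul_one]; simp
  map_star' := by
    intro T
    rw [ContinuousLinearMap.star_eq_adjoint, ContinuousLinearMap.star_eq_adjoint]
    apply τ.ext_op
    intro k l
    rw [← sub_eq_zero]
    apply τ.total
    intro k' l'
    rw [inner_sub_right, ContinuousLinearMap.adjoint_inner_right, τ.ampLFun_t, τ.ampLFun_t,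
      τ.inner_t, τ.inner_t, ContinuousLinearMap.adjoint_inner_right, sub_self]

@[simp] theorem ampL_t (T : K →L[ℂ] K) (k : K) (l : L) : τ.ampL T (τ.t k l) = τ.t (T k) l :=
  τ.ampLFun_t T k l

/-- `S ↦ 1 ⊗ S` as a `*`-homomorphism -/
def ampR : (L →L[ℂ] L) →⋆ₐ[ℂ] (M →L[ℂ] M) := τ.flip.ampL

@[simp] theorem ampR_t (S : L →L[ℂ] L) (k : K) (l : L) : τ.ampR S (τ.t k l) = τ.t k (S l) :=
  τ.flip.ampL_t S l k

theorem amp_comm (T : K →L[ℂ] K) (S : L →L[ℂ] L) :
    τ.ampL T * τ.ampR S = τ.ampR S * τ.ampL T := by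
  apply τ.ext_op
  intro k l
  simp [mul_apply_eq_comp]

/-- matrix coefficients separate: `Σ T_j ⊗ S_j = 0` forces `Σ ⟨k, T_j k'⟩ S_j = 0` -/
theorem sum_slice {J : Type*} (s : Finset J) (T : J → K →L[ℂ] K) (S : J → L →L[ℂ] L)
    (h : ∑ j ∈ s, τ.ampL (T j) * τ.ampR (S j) = 0) (l l' : L) :
    ∑ j ∈ s, ⟪l, S j l'⟫_ℂ • T j = 0 := by
  ext k'
  apply ext_inner_left ℂ
  intro k
  have h2 := congrArg (fun f => ⟪τ.t k l, f (τ.t k' l')⟫_ℂ) h
  simp only [sum_apply, mul_apply_eq_comp, ampR_t, ampL_t,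
    inner_sum, τ.inner_t, zero_apply, inner_zero_right] at h2
  simp only [sum_apply, smul_apply, inner_sum,
    inner_smul_right, zero_apply, inner_zero_right]
  rw [← h2]
  apply Finset.sum_congr rfl
  intro j _
  ring

/-- the slice map at a unit vector `k` -/
def slice (k : K) (x : M →L[ℂ] M) : L →L[ℂ] L :=
  (ContinuousLinearMap.adjoint (τ.t k)).comp (x.comp (τ.t k))

theorem inner_slice (k : K) (x : M →L[ℂ] M) (l l' : L) :
    ⟪l, τ.slice k x l'⟫_ℂ = ⟪τ.t k l, x (τ.t k l')⟫_ℂ := by
  simp [slice, ContinuousLinearMap.adjoint_inner_right]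

end HTensor

end Pool.Agent.helper29
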