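import Pool.Agent.helper29.HTensor

/-!
# A Hilbert space `L` with `K ⊗ L ≅ L` (infinite tensor power of `K` along a unit vector)
-/

open scoped InnerProductSpace ENNReal

noncomputable section

namespace Pool.Agent.helper29

/-- scalar `ℓ²` -/
abbrev ell (P : Type*) : Type _ := L2 P ℂ

section prod
variable {P Q R : Type*} (e : R ≃ P × Q)

theorem summable_sq {P : Type*} (f : ell P) : Summable (fun p => ‖f p‖ ^ 2) := by
  have h := (lp.memℓp f).summable (by norm_num)
  simpa using h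

theorem summable_mul_aux {P Q R : Type*} (e : R ≃ P × Q) (F : P → ℝ) (G : Q → ℝ)
    (hF : Summable F) (hG : Summable G) (hF0 : ∀ p, 0 ≤ F p) (hG0 : ∀ q, 0 ≤ G q) :
    Summable (fun r => F (e r).1 * G (e r).2) := by
  have h : Summable (fun x : P × Q => F x.1 * G x.2) := hF.mul_of_nonneg hG hF0 hG0
  exact (e.summable_iff).2 h

theorem tsum_mul_aux {P Q R : Type*} (e : R ≃ P × Q) (F : P → ℂ) (G : Q → ℂ)
    (hF : Summable (fun p => ‖F p‖)) (hG : Summable (fun q => ‖G q‖)) :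
    ∑' r, F (e r).1 * G (e r).2 = (∑' p, F p) * ∑' q, G q := by
  rw [tsum_mul_tsum_of_summable_norm hF hG]
  exact e.tsum_eq (fun x : P × Q => F x.1 * G x.2)

theorem summable_prod_sq (f : ell P) (g : ell Q) :
    Summable (fun r => ‖f (e r).1 * g (e r).2‖ ^ 2) := by
  have h2 := summable_mul_aux e (fun p => ‖f p‖ ^ 2) (fun q => ‖g q‖ ^ 2) (summable_sq f)
    (summable_sq g) (fun _ => sq_nonneg _) (fun _ => sq_nonneg _)
  have h3 : (fun r => ‖f (e r).1 * g (e r).2‖ ^ 2) =
      (fun r => ‖f (e r).1‖ ^ 2 * ‖g (e r).2‖ ^ 2) := by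
    funext r
    rw [norm_mul, mul_pow]
  rw [h3]
  exact h2

theorem hasSum_inner_ell {P : Type*} (f g : ell P) :
    HasSum (fun p => (starRingEnd ℂ) (f p) * g p) ⟪f, g⟫_ℂ := by
  have h := lp.hasSum_inner (𝕜 := ℂ) f g
  refine h.congr_fun (fun p => ?_)
  rw [RCLike.inner_apply, mul_comm]

theorem inner_ell {P : Type*} (f g : ell P) :
    ⟪f, g⟫_ℂ = ∑' p, (starRingEnd ℂ) (f p) * g p := (hasSum_inner_ell f g).tsum_eq.symm

theorem memlp_prod (f : ell P) (g : ell Q) : Memℓp (fun r => f (e r).1 * g (e r).2) 2 := by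
  apply memℓp_gen
  have := summable_prod_sq e f g
  simpa using this

/-- product vector -/
def tpv (f : ell P) (g : ell Q) : ell R := ⟨fun r => f (e r).1 * g (e r).2, memlp_prod e f g⟩

@[simp] theorem tpv_apply (f : ell P) (g : ell Q) (r : R) :
    tpv e f g r = f (e r).1 * g (e r).2 := rfl

theorem inner_tpv (f f' : ell P) (g g' : ell Q) :
    ⟪tpv e f g, tpv e f' g'⟫_ℂ = ⟪f, f'⟫_ℂ * ⟪g, g'⟫_ℂ := by
  rw [inner_ell, inner_ell, inner_ell]
  have h := tsum_mul_aux e (fun p => (starRingEnd ℂ) (f p) * f' p)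
    (fun q => (starRingEnd ℂ) (g q) * g' q)
    (hasSum_inner_ell f f').summable.norm (hasSum_inner_ell g g').summable.norm
  refine Eq.trans ?_ h
  apply tsum_congr
  intro r
  rw [tpv_apply, tpv_apply, map_mul]
  ring

/-- product vectors as a bounded bilinear map -/
def tpl : ell P →L[ℂ] ell Q →L[ℂ] ell R :=
  LinearMap.mkContinuous₂
    (LinearMap.mk₂ ℂ (tpv e)
      (by intro f f' g; apply lp.ext; funext r; simp [add_mul])
      (by intro c f g; apply lp.ext; funext r; simp [mul_assoc])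
      (by intro f g g'; apply lp.ext; funext r; simp [mul_add])
      (by intro c f g; apply lp.ext; funext r; simp [mul_left_comm])) 1
    (by
      intro f g
      have h := inner_tpv e f f g g
      rw [inner_self_eq_norm_sq_to_K, inner_self_eq_norm_sq_to_K, inner_self_eq_norm_sq_to_K] at h
      have h2 : ‖tpv e f g‖ ^ 2 = (‖f‖ * ‖g‖) ^ 2 := by
        rw [mul_pow]
        exact_mod_cast h
      have h3 := (sq_eq_sq₀ (norm_nonneg _) (by positivity)).1 h2
      show ‖tpv e f g‖ ≤ _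
      rw [h3, one_mul])

@[simp] theorem tpl_apply (f : ell P) (g : ell Q) (r : R) :
    tpl e f g r = f (e r).1 * g (e r).2 := rfl

theorem tpl_single [DecidableEq P] [DecidableEq Q] [DecidableEq R] (p : P) (q : Q) (a b : ℂ) :
    tpl e (lp.single 2 p a) (lp.single 2 q b) = lp.single 2 (e.symm (p, q)) (a * b) := by
  apply lp.ext
  funext r
  rw [tpl_apply]
  by_cases h : r = e.symm (p, q)
  · subst h; simp
  · rw [lp.single_apply_ne _ _ _ h]
    have h2 : e r ≠ (p, q) := fun h' => h (by rw [← h']; simp)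
    by_cases h3 : (e r).1 = p
    · have h4 : (e r).2 ≠ q := fun h' => h2 (by rw [← h3, ← h'])
      rw [lp.single_apply_ne _ _ _ h4, mul_zero]
    · rw [lp.single_apply_ne _ _ _ h3, zero_mul]

/-- the tensor structure on scalar `ℓ²` spaces -/
def ellTensor : HTensor (ell P) (ell Q) (ell R) where
  t := tpl e
  inner_t := by
    intro k l k' l'
    exact inner_tpv e k k' l l'
  total := by
    classical
    intro m hm
    apply lp.ext
    funext r
    have h := hm (lp.single 2 (e r).1 1) (lp.single 2 (e r).2 1)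
    rw [tpl_single] at h
    simp only [Prod.mk.eta, Equiv.symm_apply_apply, mul_one] at h
    rw [lp.inner_single_left] at h
    simpa using h

end prod

/-- transport of the first factor along a unitary -/
def HTensor.congrLeft {K K' L M : Type*}
    [NormedAddCommGroup K] [InnerProductSpace ℂ K] [CompleteSpace K]
    [NormedAddCommGroup K'] [InnerProductSpace ℂ K'] [CompleteSpace K']
    [NormedAddCommGroup L] [InnerProductSpace ℂ L] [CompleteSpace L]
    [NormedAddCommGroup M] [InnerProductSpace ℂ M] [CompleteSpace M]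
    (τ : HTensor K L M) (u : K' ≃ₗᵢ[ℂ] K) : HTensor K' L M where
  t := τ.t.comp (u.toContinuousLinearEquiv : K' →L[ℂ] K)
  inner_t := by
    intro k l k' l'
    show ⟪τ.t (u k) l, τ.t (u k') l'⟫_ℂ = _
    rw [τ.inner_t, LinearIsometryEquiv.inner_map_map]
  total := by
    intro m hm
    apply τ.total
    intro k l
    have := hm (u.symm k) l
    simpa using this

section inf

variable (K : Type*) [NormedAddCommGroup K] [InnerProductSpace ℂ K] [CompleteSpace K]

theorem exists_basis_with (Ω : K) (hΩ : ‖Ω‖ = 1) :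
    ∃ (w : Set K) (b : HilbertBasis w ℂ K), Ω ∈ w ∧ ⇑b = ((↑) : w → K) := by
  have h : Orthonormal ℂ ((↑) : ({Ω} : Set K) → K) := by
    constructor
    · rintro ⟨x, hx⟩
      rw [Set.mem_singleton_iff] at hx
      subst hx; exact hΩ
    · rintro ⟨x, hx⟩ ⟨y, hy⟩ hxy
      rw [Set.mem_singleton_iff] at hx hy
      exact absurd (Subtype.ext (hx.trans hy.symm)) hxy
  obtain ⟨w, b, hw, hb⟩ := h.exists_hilbertBasis_extension
  exact ⟨w, b, hw rfl, hb⟩

variable {K} (Ω : K) (hΩ : ‖Ω‖ = 1)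

/-- index set of the basis -/
def wSet : Set K := Classical.choose (exists_basis_with K Ω hΩ)

/-- the basis -/
def wBas : HilbertBasis (wSet Ω hΩ) ℂ K :=
  Classical.choose (Classical.choose_spec (exists_basis_with K Ω hΩ))

theorem wBas_spec : Ω ∈ wSet Ω hΩ ∧ ⇑(wBas Ω hΩ) = ((↑) : wSet Ω hΩ → K) :=
  Classical.choose_spec (Classical.choose_spec (exists_basis_with K Ω hΩ))

/-- the base point of the basis -/
def w0 : wSet Ω hΩ := ⟨Ω, (wBas_spec Ω hΩ).1⟩

theorem wBas_w0 : wBas Ω hΩ (w0 Ω hΩ) = Ω := by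
  rw [(wBas_spec Ω hΩ).2]; rfl

/-- sequences in the basis which are eventually the base point -/
def Seqs : Type _ := {f : ℕ → wSet Ω hΩ // ∃ n, ∀ m ≥ n, f m = w0 Ω hΩ}

instance : DecidableEq (Seqs Ω hΩ) := Classical.decEq _

instance : DecidableEq (wSet Ω hΩ) := Classical.decEq _

/-- splitting off the first coordinate -/
def splitSeq : Seqs Ω hΩ ≃ (wSet Ω hΩ) × Seqs Ω hΩ where
  toFun f := (f.1 0, ⟨fun n => f.1 (n + 1), by
    obtain ⟨n, hn⟩ := f.2
    exact ⟨n, fun m hm => hn (m + 1) (by omega)⟩⟩)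
  invFun p := ⟨fun n => Nat.casesOn n p.1 (fun k => p.2.1 k), by
    obtain ⟨n, hn⟩ := p.2.2
    refine ⟨n + 1, fun m hm => ?_⟩
    cases m with
    | zero => omega
    | succ m => exact hn m (by omega)⟩
  left_inv f := by
    apply Subtype.ext
    funext n
    cases n <;> rfl
  right_inv p := by
    apply Prod.ext
    · rfl
    · apply Subtype.ext; rfl

/-- the constant sequence -/
def constSeq : Seqs Ω hΩ := ⟨fun _ => w0 Ω hΩ, 0, fun _ _ => rfl⟩

theorem splitSeq_symm_const : (splitSeq Ω hΩ).symm (w0 Ω hΩ, constSeq Ω hΩ) = constSeq Ω hΩ := by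
  apply Subtype.ext
  funext n
  cases n <;> rfl

/-- the infinite tensor power of `K` along `Ω` -/
abbrev LInf : Type _ := ell (Seqs Ω hΩ)

/-- `K ⊗ LInf ≅ LInf` -/
def infTensor : HTensor K (LInf Ω hΩ) (LInf Ω hΩ) :=
  (ellTensor (splitSeq Ω hΩ)).congrLeft (wBas Ω hΩ).repr

theorem infTensor_t_basis (i : wSet Ω hΩ) (y : Seqs Ω hΩ) :
    (infTensor Ω hΩ).t (wBas Ω hΩ i) (lp.single 2 y 1) =
      lp.single 2 ((splitSeq Ω hΩ).symm (i, y)) 1 := by
  show tpl (splitSeq Ω hΩ) ((wBas Ω hΩ).repr (wBas Ω hΩ i)) (lp.single 2 y 1) = _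
  rw [HilbertBasis.repr_self, tpl_single, mul_one]

/-- the vacuum vector -/
def vac : LInf Ω hΩ := lp.single 2 (constSeq Ω hΩ) 1

theorem norm_vac : ‖vac Ω hΩ‖ = 1 := by
  rw [vac, lp.norm_single (by norm_num)]; simp

theorem infTensor_vac : (infTensor Ω hΩ).t Ω (vac Ω hΩ) = vac Ω hΩ := by
  have h := infTensor_t_basis Ω hΩ (w0 Ω hΩ) (constSeq Ω hΩ)
  rw [wBas_w0, splitSeq_symm_const] at h
  exact h

/-- unit product vectors with vacuum tail -/
inductive ProdVec : ℕ → LInf Ω hΩ → Prop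
  | zero : ProdVec 0 (vac Ω hΩ)
  | succ (n : ℕ) (k : K) (hk : ‖k‖ = 1) (ξ : LInf Ω hΩ) (h : ProdVec n ξ) :
      ProdVec (n + 1) ((infTensor Ω hΩ).t k ξ)

theorem ProdVec.norm {n : ℕ} {ξ : LInf Ω hΩ} (h : ProdVec Ω hΩ n ξ) : ‖ξ‖ = 1 := by
  induction h with
  | zero => exact norm_vac Ω hΩ
  | succ n k hk ξ _ ih => rw [HTensor.norm_t, hk, ih, one_mul]

theorem ProdVec.succ_of {n : ℕ} {ξ : LInf Ω hΩ} (h : ProdVec Ω hΩ n ξ) :
    ProdVec Ω hΩ (n + 1) ξ := by
  induction h with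
  | zero =>
    have := ProdVec.succ 0 Ω hΩ (vac Ω hΩ) ProdVec.zero
    rwa [infTensor_vac] at this
  | succ n k hk ξ _ ih => exact ProdVec.succ (n + 1) k hk ξ ih

theorem ProdVec.mono {n m : ℕ} (hnm : n ≤ m) {ξ : LInf Ω hΩ} (h : ProdVec Ω hΩ n ξ) :
    ProdVec Ω hΩ m ξ := by
  induction m, hnm using Nat.le_induction with
  | base => exact h
  | succ m _ ih => exact ih.succ_of

theorem norm_wBas (i : wSet Ω hΩ) : ‖wBas Ω hΩ i‖ = 1 := (wBas Ω hΩ).orthonormal.1 i

theorem prodVec_single_aux (n : ℕ) : ∀ y : Seqs Ω hΩ, (∀ m ≥ n, y.1 m = w0 Ω hΩ) →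
    ProdVec Ω hΩ n (lp.single 2 y 1) := by
  induction n with
  | zero =>
    intro y hy
    have : y = constSeq Ω hΩ := by
      apply Subtype.ext
      funext m
      exact hy m (Nat.zero_le _)
    rw [this]
    exact ProdVec.zero
  | succ n ih =>
    intro y hy
    have h1 := ih (splitSeq Ω hΩ y).2 (fun m hm => hy (m + 1) (by omega))
    have h2 := ProdVec.succ n (wBas Ω hΩ (splitSeq Ω hΩ y).1) (norm_wBas Ω hΩ _) _ h1
    rw [infTensor_t_basis] at h2
    simpa using h2

theorem prodVec_single (y : Seqs Ω hΩ) : ∃ n, ProdVec Ω hΩ n (lp.single 2 y 1) := by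
  obtain ⟨n, hn⟩ := y.2
  exact ⟨n, prodVec_single_aux Ω hΩ n y hn⟩

end inf

end Pool.Agent.helper29
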